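import Mathlib

/-!
# `MP_682720`, dense part: real inequalities for the swap dichotomy
-/

set_option autoImplicit false

namespace Pool.Agent.T4

open Real

/-- tangent line of the cosine -/
lemma cos_tan {x x0 : ℝ} (hx0 : 0 ≤ x) (hx1 : x ≤ π / 2) (h0 : 0 ≤ x0) (h1 : x0 ≤ π / 2) :
    cos x ≤ cos x0 - sin x0 * (x - x0) := by
  have hpi := pi_pos
  have hc : ConcaveOn ℝ (Set.Icc (-(π / 2)) (π / 2)) cos := strictConcaveOn_cos_Icc.concaveOn
  have hxm : x ∈ Set.Icc (-(π / 2)) (π / 2) := ⟨by linarith, hx1⟩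
  have hym : x0 ∈ Set.Icc (-(π / 2)) (π / 2) := ⟨by linarith, h1⟩
  rcases lt_trichotomy x x0 with h | h | h
  · have h2 := hc.le_slope_of_hasDerivAt hxm hym h (hasDerivAt_cos x0)
    rw [slope_def_field, le_div_iff₀ (by linarith)] at h2
    linarith
  · rw [h]; simp
  · have h2 := hc.slope_le_of_hasDerivAt hym hxm h (hasDerivAt_cos x0)
    rw [slope_def_field, div_le_iff₀ (by linarith)] at h2
    linarith

/-- tangent line of the sine -/
lemma sin_tan {y y0 : ℝ} (hy0 : 0 ≤ y) (hy1 : y ≤ π / 2) (h0 : 0 ≤ y0) (h1 : y0 ≤ π / 2) :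
    sin y ≤ sin y0 + cos y0 * (y - y0) := by
  have h := cos_tan (x := π / 2 - y) (x0 := π / 2 - y0) (by linarith) (by linarith) (by linarith)
    (by linarith)
  rw [cos_pi_div_two_sub, cos_pi_div_two_sub, sin_pi_div_two_sub] at h
  linarith

lemma sqrt3_bounds : 1.73205 < √3 ∧ √3 < 1.73206 := by
  constructor
  · rw [Real.lt_sqrt (by norm_num)]; norm_num
  · rw [Real.sqrt_lt' (by norm_num)]; norm_num

lemma sqrt5_bounds : 2.23606 < √5 ∧ √5 < 2.23607 := by
  constructor
  · rw [Real.lt_sqrt (by norm_num)]; norm_num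
  · rw [Real.sqrt_lt' (by norm_num)]; norm_num

lemma cos36_bounds : 0.809015 < cos (π / 5) ∧ cos (π / 5) < 0.809018 := by
  rw [cos_pi_div_five]
  have := sqrt5_bounds
  constructor <;> linarith

lemma sin36_bounds : 0.58778 < sin (π / 5) ∧ sin (π / 5) < 0.58779 := by
  have h1 := cos36_bounds
  have h2 := sin_sq_add_cos_sq (π / 5)
  have hpi := pi_pos
  have h3 : 0 ≤ sin (π / 5) := sin_nonneg_of_nonneg_of_le_pi (by positivity) (by linarith)
  constructor
  · nlinarith
  · nlinarith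

/-- the linearised dichotomy -/
lemma lin {K sb ct st sw cw N R I d d' e e' ε : ℝ} (hK : 0 ≤ K) (hsb : 0 ≤ sb)
    (hd0 : 0 ≤ d) (hd1 : d ≤ 1 / 2) (hd0' : 0 ≤ d') (hd1' : d' ≤ 1 / 2)
    (he0 : 0 ≤ e) (he1 : e ≤ 1 / 2) (he0' : 0 ≤ e') (he1' : e' ≤ 1 / 2)
    (s1 : ct * N ≤ K * sb * cos (π * d)) (s2 : ct * R - st * |I| ≤ K * sb * cos (π * d'))
    (o1 : sw * N ≤ K * sin (π * e)) (o2 : sw * R - cw * |I| ≤ K * sin (π * e'))
    (hx : 2 * e + e' ≤ 2 * d + d' + ε) :
    2 * N * (sw * sb + ct) + 2 * sin (π / 5) / √3 * (R * (sw * sb + ct) - |I| * (cw * sb + st)) ≤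
      K * sb * (4 * cos (π / 5) + 2 * sin (π / 5) / √3 - sin (π / 5) * π / 30 +
        sin (π / 5) * π * ε) := by
  have hpi := pi_pos
  have hs3 : (0 : ℝ) < √3 := by positivity
  have hs33 : √3 * √3 = 3 := Real.mul_self_sqrt (by norm_num)
  have hs0 := sin36_bounds.1
  set s0 := sin (π / 5) with hs0d
  set a0 := cos (π / 5) with ha0d
  set q := 2 * s0 / √3 with hq
  have hq0 : 0 ≤ q := by rw [hq]; positivity
  have hqs : q * (√3 / 2) = s0 := by rw [hq]; field_simp
  have t1 := cos_tan (x := π * d) (x0 := π / 5) (by positivity) (by nlinarith) (by positivity)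
    (by linarith)
  have t2 := cos_tan (x := π * d') (x0 := π / 3) (by positivity) (by nlinarith) (by positivity)
    (by linarith)
  have t3 := sin_tan (y := π * e) (y0 := 3 * π / 10) (by positivity) (by nlinarith) (by positivity)
    (by linarith)
  have t4 := sin_tan (y := π * e') (y0 := π / 6) (by positivity) (by nlinarith) (by positivity)
    (by linarith)
  have e1 : sin (3 * π / 10) = a0 := by
    rw [ha0d, ← sin_pi_div_two_sub]; congr 1; ring
  have e2 : cos (3 * π / 10) = s0 := by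
    rw [hs0d, ← cos_pi_div_two_sub]; congr 1; ring
  rw [cos_pi_div_three, sin_pi_div_three] at t2
  rw [sin_pi_div_six, cos_pi_div_six] at t4
  rw [e1, e2] at t3
  rw [← hs0d, ← ha0d] at t1
  have hKs : 0 ≤ K * sb := mul_nonneg hK hsb
  have u1 : ct * N ≤ K * sb * (a0 - s0 * (π * d - π / 5)) :=
    s1.trans (mul_le_mul_of_nonneg_left t1 hKs)
  have u2 : ct * R - st * |I| ≤ K * sb * (1 / 2 - √3 / 2 * (π * d' - π / 3)) :=
    s2.trans (mul_le_mul_of_nonneg_left t2 hKs)
  have u3 : sw * N * sb ≤ K * sb * (a0 + s0 * (π * e - 3 * π / 10)) := by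
    have := mul_le_mul_of_nonneg_right (o1.trans (mul_le_mul_of_nonneg_left t3 hK)) hsb
    linarith
  have u4 : (sw * R - cw * |I|) * sb ≤ K * sb * (1 / 2 + √3 / 2 * (π * e' - π / 6)) := by
    have := mul_le_mul_of_nonneg_right (o2.trans (mul_le_mul_of_nonneg_left t4 hK)) hsb
    linarith
  have v2 := mul_le_mul_of_nonneg_left u2 hq0
  have v4 := mul_le_mul_of_nonneg_left u4 hq0
  have w2 : q * (K * sb * (1 / 2 - √3 / 2 * (π * d' - π / 3))) =
      K * sb * (q / 2 - s0 * (π * d' - π / 3)) := by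
    rw [← hqs]; ring
  have w4 : q * (K * sb * (1 / 2 + √3 / 2 * (π * e' - π / 6))) =
      K * sb * (q / 2 + s0 * (π * e' - π / 6)) := by
    rw [← hqs]; ring
  rw [w2] at v2
  rw [w4] at v4
  have hx2 : K * sb * (s0 * π) * (2 * e + e') ≤ K * sb * (s0 * π) * (2 * d + d' + ε) := by
    apply mul_le_mul_of_nonneg_left hx
    have : 0 ≤ s0 := by linarith
    positivity
  nlinarith [u1, v2, u3, v4, hx2]

end Pool.Agent.T4
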