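import Mathlib
import Pool.Agent.Lib_helper93.T4.Core

set_option autoImplicit false

namespace Pool.Agent.T4

open Real

lemma q_bounds : 0.67869 < 2 * sin (π / 5) / √3 ∧ 2 * sin (π / 5) / √3 < 0.67873 := by
  have h1 := sin36_bounds
  have h3 := sqrt3_bounds
  have hs3 : (0 : ℝ) < √3 := by positivity
  constructor
  · rw [lt_div_iff₀ hs3]; nlinarith
  · rw [div_lt_iff₀ hs3]; nlinarith

lemma abs_I_le {N R I : ℝ} (hN : N ^ 2 = R ^ 2 + I ^ 2) (hN0 : 0 ≤ N) (hR0 : 0 ≤ R) :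
    8 * |I| ≤ 17 * N - 15 * R := by
  have hRN : R ≤ N := by
    apply le_of_sq_le_sq _ hN0
    nlinarith [sq_nonneg I]
  have h0 : 0 ≤ 17 * N - 15 * R := by linarith
  apply le_of_sq_le_sq _ h0
  rw [mul_pow, sq_abs]
  nlinarith [sq_nonneg (15 * N - 17 * R)]

/-- numerical form -/
lemma num1 {K sb ct st sw cw N R I ε : ℝ} (hK : 0 ≤ K) (hsb : 0 ≤ sb)
    (hcw : √3 * cw ≤ sw) (hst : √3 * st ≤ ct) (hsw : 0 ≤ sw) (hct : 0 ≤ ct)
    (hN : N ^ 2 = R ^ 2 + I ^ 2) (hN0 : 0 ≤ N) (hR0 : 0 ≤ R) (hε : 0 ≤ ε)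
    (h : 2 * N * (sw * sb + ct) + 2 * sin (π / 5) / √3 *
      (R * (sw * sb + ct) - |I| * (cw * sb + st)) ≤
      K * sb * (4 * cos (π / 5) + 2 * sin (π / 5) / √3 - sin (π / 5) * π / 30 +
        sin (π / 5) * π * ε)) :
    (sw * sb + ct) * (1.1672 * N + 1.4134 * R) ≤ K * sb * (3.8533 + 1.8467 * ε) := by
  have hq := q_bounds
  set q := 2 * sin (π / 5) / √3 with hqd
  have hs := sin36_bounds
  set s0 := sin (π / 5)
  have hc := cos36_bounds
  set a0 := cos (π / 5)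
  have hI := abs_I_le hN hN0 hR0
  have h3 := sqrt3_bounds
  have hs3 : (0 : ℝ) < √3 := by positivity
  have hpi1 := pi_gt_d6
  have hpi2 := pi_lt_d6
  set D := sw * sb + ct with hD
  have hD0 : 0 ≤ D := by rw [hD]; positivity
  have hE : √3 * (cw * sb + st) ≤ D := by
    rw [hD]; nlinarith
  have hKs : 0 ≤ K * sb := mul_nonneg hK hsb
  -- right-hand side
  have r1 : 4 * a0 + q - s0 * π / 30 + s0 * π * ε ≤ 3.8533 + 1.8467 * ε := by
    have e1 : 0.58778 * 3.141592 ≤ s0 * π := by nlinarith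
    have e2 : s0 * π ≤ 0.58779 * 3.141593 := by nlinarith
    have e3 : s0 * π * ε ≤ 1.8467 * ε := mul_le_mul_of_nonneg_right (by linarith) hε
    linarith
  have r2 := h.trans (mul_le_mul_of_nonneg_left r1 hKs)
  refine le_trans ?_ r2
  -- left-hand side
  have hI0 := abs_nonneg I
  have l1 : |I| * (cw * sb + st) * √3 ≤ |I| * D := by nlinarith
  have hq0 : 0 ≤ q := by linarith
  have l2 : |I| * (cw * sb + st) ≤ 0.57736 * (|I| * D) := by
    have : |I| * (cw * sb + st) ≤ |I| * D / √3 := by rw [le_div_iff₀ hs3]; exact l1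
    refine this.trans ?_
    rw [div_le_iff₀ hs3]
    have : 0 ≤ |I| * D := by positivity
    nlinarith
  have l3 : |I| * D ≤ (17 * N - 15 * R) / 8 * D := by
    apply mul_le_mul_of_nonneg_right _ hD0
    linarith
  have l4 : q * (|I| * (cw * sb + st)) ≤ q * (0.57736 * ((17 * N - 15 * R) / 8 * D)) := by
    apply mul_le_mul_of_nonneg_left _ hq0
    linarith
  have hRN : R ≤ N := by
    apply le_of_sq_le_sq _ hN0
    nlinarith [sq_nonneg I]
  have hX : 0 ≤ D * (17 * N - 15 * R) := by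
    apply mul_nonneg hD0; linarith
  have l5 : q * (0.57736 * ((17 * N - 15 * R) / 8 * D)) ≤
      0.67873 * (0.57736 * ((17 * N - 15 * R) / 8 * D)) := by
    apply mul_le_mul_of_nonneg_right hq.2.le
    nlinarith
  have l6 : 0.67869 * (R * D) ≤ q * (R * D) := by
    apply mul_le_mul_of_nonneg_right hq.1.le
    positivity
  have hND : 0 ≤ N * D := by positivity
  have hRD : 0 ≤ R * D := by positivity
  nlinarith

lemma posA {N t : ℝ} (ht1 : -(1 / 20) ≤ t) (ht2 : t ≤ 3 / 50) (hN1 : 0.24 ≤ N) (hN2 : N ≤ 0.4) :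
    (0.61826 * (1 - 2.3 * t ^ 2) - 2 / 9 * 1.2109 - N) * (4 * N ^ 2 - (1 / 4 - t ^ 2)) <
      1.2109 * (1 / 144 - 19 / 36 * t ^ 2 - t ^ 3 - 0.00046) := by
  have h1 : t ^ 2 ≤ 0.0036 := by nlinarith
  have h2 : t ^ 3 ≤ 0.06 * t ^ 2 := by nlinarith [sq_nonneg t]
  have h3 : 0 ≤ t ^ 2 := sq_nonneg t
  have h4 : 0 ≤ t ^ 4 := by positivity
  nlinarith [mul_nonneg (show (0:ℝ) ≤ N + 0.25 by linarith) (sq_nonneg (N - 0.3)),
    mul_nonneg h3 (show (0:ℝ) ≤ N - 0.24 by linarith),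
    mul_nonneg h3 (sq_nonneg (N - 0.3)), sq_nonneg (N - 0.3)]

end Pool.Agent.T4
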