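import Mathlib
import Pool.Agent.Lib_helper93.T4.Num

set_option autoImplicit false

namespace Pool.Agent.T4

open Real

lemma sin_lb {x : ℝ} (h0 : 0 ≤ x) (h1 : x ≤ 1) : x * (1 - x ^ 2 / 6 - 5 / 96 * x ^ 3) ≤ sin x := by
  have h := Real.sin_bound (x := x) (by rw [abs_of_nonneg h0]; exact h1)
  rw [abs_of_nonneg h0, abs_le] at h
  nlinarith [h.1]

lemma cos_lb {x : ℝ} (h0 : 0 ≤ x) (h1 : x ≤ 1) : 1 - x ^ 2 / 2 - 5 / 96 * x ^ 4 ≤ cos x := by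
  have h := Real.cos_bound (x := x) (by rw [abs_of_nonneg h0]; exact h1)
  rw [abs_of_nonneg h0, abs_le] at h
  linarith [h.1]

lemma cos_ub {x : ℝ} (h0 : 0 ≤ x) (h1 : x ≤ 1) : cos x ≤ 1 - x ^ 2 / 2 + 5 / 96 * x ^ 4 := by
  have h := Real.cos_bound (x := x) (by rw [abs_of_nonneg h0]; exact h1)
  rw [abs_of_nonneg h0, abs_le] at h
  linarith [h.2]

/-- the main angle inequality, inner side -/
lemma angA {x : ℝ} (h0 : 0 ≤ x) (h1 : x ≤ 0.4489) :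
    √3 / 2 * x ≤ cos (π / 6 - x / 6) * sin x := by
  rw [cos_sub, cos_pi_div_six, sin_pi_div_six]
  have h3 := sqrt3_bounds
  have a1 := cos_lb (x := x / 6) (by positivity) (by linarith)
  have a2 := sin_lb (x := x / 6) (by positivity) (by linarith)
  have a3 := sin_lb (x := x) h0 (by linarith)
  have a4 : 0 ≤ 1 - x ^ 2 / 6 - 5 / 96 * x ^ 3 := by nlinarith [sq_nonneg x, mul_nonneg h0 (sq_nonneg x)]
  have b1 : √3 / 2 * (1 - (x / 6) ^ 2 / 2 - 5 / 96 * (x / 6) ^ 4) +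
      1 / 2 * (x / 6 * (1 - (x / 6) ^ 2 / 6 - 5 / 96 * (x / 6) ^ 3)) ≤
      √3 / 2 * cos (x / 6) + 1 / 2 * sin (x / 6) := by nlinarith
  have hx2 : x ^ 2 ≤ 0.4489 * x := by nlinarith
  have hx3 : x ^ 3 ≤ 0.4489 * x ^ 2 := by nlinarith [sq_nonneg x]
  have hx4 : x ^ 4 ≤ 0.4489 * x ^ 3 := by
    have : 0 ≤ x ^ 3 := by positivity
    nlinarith
  have p2 : 0 ≤ x ^ 2 := by positivity
  have p3 : 0 ≤ x ^ 3 := by positivity
  have p4 : 0 ≤ x ^ 4 := by positivity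
  have b2 : √3 / 2 + 1 / 12 * x - 0.0123 * x ^ 2 ≤
      √3 / 2 * (1 - (x / 6) ^ 2 / 2 - 5 / 96 * (x / 6) ^ 4) +
      1 / 2 * (x / 6 * (1 - (x / 6) ^ 2 / 6 - 5 / 96 * (x / 6) ^ 3)) := by
    have r1 : √3 * x ^ 2 ≤ 1.73206 * x ^ 2 := mul_le_mul_of_nonneg_right h3.2.le p2
    have r2 : √3 * x ^ 4 ≤ 1.73206 * x ^ 4 := mul_le_mul_of_nonneg_right h3.2.le p4
    nlinarith
  have b0 : 0 ≤ √3 / 2 + 1 / 12 * x - 0.0123 * x ^ 2 := by nlinarith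
  calc √3 / 2 * x ≤ (√3 / 2 + 1 / 12 * x - 0.0123 * x ^ 2) *
        (x * (1 - x ^ 2 / 6 - 5 / 96 * x ^ 3)) := by
        have key : √3 / 2 ≤ (√3 / 2 + 1 / 12 * x - 0.0123 * x ^ 2) *
            (1 - x ^ 2 / 6 - 5 / 96 * x ^ 3) := by
          have e : (√3 / 2 + 1 / 12 * x - 0.0123 * x ^ 2) * (1 - x ^ 2 / 6 - 5 / 96 * x ^ 3) -
              √3 / 2 = x * (1 / 12 - 0.0123 * x - √3 / 2 * (x / 6 + 5 / 96 * x ^ 2) -
              1 / 12 * x * (x / 6 + 5 / 96 * x ^ 2) + 0.0123 * x ^ 2 * (x / 6 + 5 / 96 * x ^ 2)) := by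
            ring
          have e2 : 0 ≤ 1 / 12 - 0.0123 * x - √3 / 2 * (x / 6 + 5 / 96 * x ^ 2) -
              1 / 12 * x * (x / 6 + 5 / 96 * x ^ 2) + 0.0123 * x ^ 2 * (x / 6 + 5 / 96 * x ^ 2) := by
            have q1 : x ^ 2 ≤ 0.20152 := by nlinarith
            have q2 : √3 / 2 * (x / 6 + 5 / 96 * x ^ 2) ≤ 0.86603 * (x / 6 + 5 / 96 * x ^ 2) := by
              apply mul_le_mul_of_nonneg_right (by linarith); positivity
            have q3 : 1 / 12 * x * (x / 6 + 5 / 96 * x ^ 2) ≤ 1 / 12 * 0.4489 * (0.4489 / 6 + 5 / 96 * 0.20152) := by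
              gcongr
            have q4 : 0 ≤ 0.0123 * x ^ 2 * (x / 6 + 5 / 96 * x ^ 2) := by positivity
            nlinarith
          nlinarith [mul_nonneg h0 e2]
        nlinarith
    _ ≤ (√3 / 2 * cos (x / 6) + 1 / 2 * sin (x / 6)) * sin x := by
        apply mul_le_mul (b2.trans b1) a3 (by positivity)
        exact b0.trans (b2.trans b1)

end Pool.Agent.T4
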