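import Mathlib
import Pool.Agent.Lib_helper93.T4.Ang

set_option autoImplicit false

namespace Pool.Agent.T4

open Real

/-- inner angle, `3 ∤ m` -/
lemma angB {x : ℝ} (h0 : 0 ≤ x) (h1 : x ≤ 0.6284) :
    √3 / 2 * x ≤ sin (π / 3 + x / 3) * sin x := by
  rw [sin_add, cos_pi_div_three, sin_pi_div_three]
  have h3 := sqrt3_bounds
  have a1 := cos_lb (x := x / 3) (by positivity) (by linarith)
  have a2 := sin_lb (x := x / 3) (by positivity) (by linarith)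
  have a3 := sin_lb (x := x) h0 (by linarith)
  have hx2 : x ^ 2 ≤ 0.6284 * x := by nlinarith
  have hx3 : x ^ 3 ≤ 0.6284 * x ^ 2 := by nlinarith [sq_nonneg x]
  have hx4 : x ^ 4 ≤ 0.6284 * x ^ 3 := by
    have : 0 ≤ x ^ 3 := by positivity
    nlinarith
  have p2 : 0 ≤ x ^ 2 := by positivity
  have p3 : 0 ≤ x ^ 3 := by positivity
  have p4 : 0 ≤ x ^ 4 := by positivity
  have q1 : x ^ 2 ≤ 0.39489 := by nlinarith
  have b2 : √3 / 2 + 1 / 6 * x - 0.0512 * x ^ 2 ≤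
      √3 / 2 * (1 - (x / 3) ^ 2 / 2 - 5 / 96 * (x / 3) ^ 4) +
      1 / 2 * (x / 3 * (1 - (x / 3) ^ 2 / 6 - 5 / 96 * (x / 3) ^ 3)) := by
    have r1 : √3 * x ^ 2 ≤ 1.73206 * x ^ 2 := mul_le_mul_of_nonneg_right h3.2.le p2
    have r2 : √3 * x ^ 4 ≤ 1.73206 * x ^ 4 := mul_le_mul_of_nonneg_right h3.2.le p4
    nlinarith
  have b1 : √3 / 2 * (1 - (x / 3) ^ 2 / 2 - 5 / 96 * (x / 3) ^ 4) +
      1 / 2 * (x / 3 * (1 - (x / 3) ^ 2 / 6 - 5 / 96 * (x / 3) ^ 3)) ≤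
      √3 / 2 * cos (x / 3) + sin (x / 3) * (1 / 2) := by nlinarith
  have b0 : 0 ≤ √3 / 2 + 1 / 6 * x - 0.0512 * x ^ 2 := by nlinarith
  have a4 : 0 ≤ x * (1 - x ^ 2 / 6 - 5 / 96 * x ^ 3) := by
    apply mul_nonneg h0; nlinarith
  have e2 : 0 ≤ 1 / 6 - 0.0512 * x - √3 / 2 * (x / 6 + 5 / 96 * x ^ 2) -
      1 / 6 * x * (x / 6 + 5 / 96 * x ^ 2) + 0.0512 * x ^ 2 * (x / 6 + 5 / 96 * x ^ 2) := by
    have q2 : √3 / 2 * (x / 6 + 5 / 96 * x ^ 2) ≤ 0.86603 * (x / 6 + 5 / 96 * x ^ 2) := by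
      apply mul_le_mul_of_nonneg_right (by linarith); positivity
    have q3 : 1 / 6 * x * (x / 6 + 5 / 96 * x ^ 2) ≤
        1 / 6 * 0.6284 * (0.6284 / 6 + 5 / 96 * 0.39489) := by gcongr
    have q4 : 0 ≤ 0.0512 * x ^ 2 * (x / 6 + 5 / 96 * x ^ 2) := by positivity
    nlinarith
  calc √3 / 2 * x ≤ (√3 / 2 + 1 / 6 * x - 0.0512 * x ^ 2) *
        (x * (1 - x ^ 2 / 6 - 5 / 96 * x ^ 3)) := by nlinarith [mul_nonneg (mul_nonneg h0 h0) e2]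
    _ ≤ (√3 / 2 * cos (x / 3) + sin (x / 3) * (1 / 2)) * sin x := by
        apply mul_le_mul (b2.trans b1) a3 a4 (b0.trans (b2.trans b1))
    _ = _ := by ring

/-- `3 ∣ m` -/
lemma angC {x : ℝ} (h0 : 0 ≤ x) (h1 : x ≤ 0.3492) :
    √3 * x ≤ (√3 / 2 + cos (π / 6 - x / 2)) * sin x := by
  rw [cos_sub, cos_pi_div_six, sin_pi_div_six]
  have h3 := sqrt3_bounds
  have a1 := cos_lb (x := x / 2) (by positivity) (by linarith)
  have a2 := sin_lb (x := x / 2) (by positivity) (by linarith)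
  have a3 := sin_lb (x := x) h0 (by linarith)
  have hx2 : x ^ 2 ≤ 0.3492 * x := by nlinarith
  have hx3 : x ^ 3 ≤ 0.3492 * x ^ 2 := by nlinarith [sq_nonneg x]
  have hx4 : x ^ 4 ≤ 0.3492 * x ^ 3 := by
    have : 0 ≤ x ^ 3 := by positivity
    nlinarith
  have p2 : 0 ≤ x ^ 2 := by positivity
  have p3 : 0 ≤ x ^ 3 := by positivity
  have p4 : 0 ≤ x ^ 4 := by positivity
  have q1 : x ^ 2 ≤ 0.12195 := by nlinarith
  have b2 : √3 + 1 / 4 * x - 0.1125 * x ^ 2 ≤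
      √3 / 2 + (√3 / 2 * (1 - (x / 2) ^ 2 / 2 - 5 / 96 * (x / 2) ^ 4) +
      1 / 2 * (x / 2 * (1 - (x / 2) ^ 2 / 6 - 5 / 96 * (x / 2) ^ 3))) := by
    have r1 : √3 * x ^ 2 ≤ 1.73206 * x ^ 2 := mul_le_mul_of_nonneg_right h3.2.le p2
    have r2 : √3 * x ^ 4 ≤ 1.73206 * x ^ 4 := mul_le_mul_of_nonneg_right h3.2.le p4
    nlinarith
  have b1 : √3 / 2 + (√3 / 2 * (1 - (x / 2) ^ 2 / 2 - 5 / 96 * (x / 2) ^ 4) +
      1 / 2 * (x / 2 * (1 - (x / 2) ^ 2 / 6 - 5 / 96 * (x / 2) ^ 3))) ≤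
      √3 / 2 + (√3 / 2 * cos (x / 2) + 1 / 2 * sin (x / 2)) := by nlinarith
  have b0 : 0 ≤ √3 + 1 / 4 * x - 0.1125 * x ^ 2 := by nlinarith
  have a4 : 0 ≤ x * (1 - x ^ 2 / 6 - 5 / 96 * x ^ 3) := by
    apply mul_nonneg h0; nlinarith
  have e2 : 0 ≤ 1 / 4 - 0.1125 * x - √3 * (x / 6 + 5 / 96 * x ^ 2) -
      1 / 4 * x * (x / 6 + 5 / 96 * x ^ 2) + 0.1125 * x ^ 2 * (x / 6 + 5 / 96 * x ^ 2) := by
    have q2 : √3 * (x / 6 + 5 / 96 * x ^ 2) ≤ 1.73206 * (x / 6 + 5 / 96 * x ^ 2) := by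
      apply mul_le_mul_of_nonneg_right (by linarith); positivity
    have q3 : 1 / 4 * x * (x / 6 + 5 / 96 * x ^ 2) ≤
        1 / 4 * 0.3492 * (0.3492 / 6 + 5 / 96 * 0.12195) := by gcongr
    have q4 : 0 ≤ 0.1125 * x ^ 2 * (x / 6 + 5 / 96 * x ^ 2) := by positivity
    nlinarith
  calc √3 * x ≤ (√3 + 1 / 4 * x - 0.1125 * x ^ 2) *
        (x * (1 - x ^ 2 / 6 - 5 / 96 * x ^ 3)) := by nlinarith [mul_nonneg (mul_nonneg h0 h0) e2]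
    _ ≤ (√3 / 2 + (√3 / 2 * cos (x / 2) + 1 / 2 * sin (x / 2))) * sin x := by
        apply mul_le_mul (b2.trans b1) a3 a4 (b0.trans (b2.trans b1))

/-- reduction to a linear inequality in `N`, `R` -/
lemma red {xx t ct st sw cw N R I K d d' e e' ε D0 : ℝ} (hxx : 0 < xx) (hxx1 : xx ≤ 0.63)
    (hK : K * (π * sin xx) = xx) (hK0 : 0 ≤ K) (ht1 : -(1 / 20) ≤ t) (ht2 : t ≤ 1 / 14)
    (hd0 : 0 ≤ d) (hd1 : d ≤ 1 / 2) (hd0' : 0 ≤ d') (hd1' : d' ≤ 1 / 2)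
    (he0 : 0 ≤ e) (he1 : e ≤ 1 / 2) (he0' : 0 ≤ e') (he1' : e' ≤ 1 / 2)
    (s1 : ct * N ≤ K * cos (π * t) * cos (π * d))
    (s2 : ct * R - st * |I| ≤ K * cos (π * t) * cos (π * d'))
    (o1 : sw * N ≤ K * sin (π * e)) (o2 : sw * R - cw * |I| ≤ K * sin (π * e'))
    (hx : 2 * e + e' ≤ 2 * d + d' + ε) (hε : 0 ≤ ε)
    (hcw : √3 * cw ≤ sw) (hst : √3 * st ≤ ct) (hsw : 0 ≤ sw) (hct0 : 0 ≤ ct)
    (hN : N ^ 2 = R ^ 2 + I ^ 2) (hN0 : 0 ≤ N) (hR0 : 0 ≤ R)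
    (hD : D0 * xx ≤ (sw + ct) * sin xx) (hct : √3 / 2 * xx ≤ ct * sin xx) :
    (D0 + 4.24 * t ^ 2) * (3.6668 * N + 4.4403 * R) ≤ 3.8533 + 1.8467 * ε := by
  have hpi1 := pi_gt_d6
  have hpi2 := pi_lt_d6
  have hpit : |π * t| ≤ 1 := by
    rw [abs_le]; constructor <;> nlinarith
  set sb := cos (π * t) with hsb
  have hsbpos : 0 < sb := by
    apply cos_pos_of_mem_Ioo
    constructor <;> nlinarith
  have hsbub : sb * (1 + 4.9 * t ^ 2) ≤ 1 := by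
    have h := Real.cos_bound (x := π * t) hpit
    rw [abs_le] at h
    have h2 : |π * t| ^ 4 = (π * t) ^ 4 := by
      rw [← abs_pow, abs_of_nonneg (by positivity)]
    rw [h2] at h
    have h3 : cos (π * t) ≤ 1 - (π * t) ^ 2 / 2 + (π * t) ^ 4 * (5 / 96) := by linarith [h.2]
    have h4 : t ^ 2 ≤ 0.00511 := by nlinarith
    have h5 : π ^ 2 ≤ 9.8697 := by nlinarith
    have h6 : 9.8695 ≤ π ^ 2 := by nlinarith
    have ht0 : 0 ≤ t ^ 2 := sq_nonneg t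
    have h7 : (π * t) ^ 4 ≤ 9.8697 * t ^ 2 * 0.0505 := by
      have e : (π * t) ^ 4 = (π ^ 2 * t ^ 2) * (π ^ 2 * t ^ 2) := by ring
      rw [e]
      have g1 : π ^ 2 * t ^ 2 ≤ 9.8697 * t ^ 2 := mul_le_mul_of_nonneg_right h5 ht0
      have g2 : π ^ 2 * t ^ 2 ≤ 0.0505 := by nlinarith
      exact mul_le_mul g1 g2 (by positivity) (by positivity)
    have h8 : 9.8695 * t ^ 2 ≤ (π * t) ^ 2 := by
      rw [mul_pow]; exact mul_le_mul_of_nonneg_right h6 ht0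
    have h9 : sb ≤ 1 - 4.9086 * t ^ 2 := by
      rw [hsb]; linarith
    nlinarith
  have l1 := lin hK0 hsbpos.le hd0 hd1 hd0' hd1' he0 he1 he0' he1' s1 s2 o1 o2 hx
  have l2 := num1 hK0 hsbpos.le hcw hst hsw hct0 hN hN0 hR0 hε l1
  have hNR : 0 ≤ 1.1672 * N + 1.4134 * R := by positivity
  -- cancel sb
  have l3 : sb * ((sw + ct * (1 + 4.9 * t ^ 2)) * (1.1672 * N + 1.4134 * R)) ≤
      sb * (K * (3.8533 + 1.8467 * ε)) := by
    have g : sb * (sw + ct * (1 + 4.9 * t ^ 2)) ≤ sw * sb + ct := by nlinarith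
    calc sb * ((sw + ct * (1 + 4.9 * t ^ 2)) * (1.1672 * N + 1.4134 * R)) =
          (sb * (sw + ct * (1 + 4.9 * t ^ 2))) * (1.1672 * N + 1.4134 * R) := by ring
      _ ≤ (sw * sb + ct) * (1.1672 * N + 1.4134 * R) := mul_le_mul_of_nonneg_right g hNR
      _ ≤ K * sb * (3.8533 + 1.8467 * ε) := l2
      _ = _ := by ring
  have l4 := le_of_mul_le_mul_left l3 hsbpos
  have hsx : 0 < sin xx := sin_pos_of_pos_of_lt_pi hxx (by linarith)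
  -- multiply by π sin xx
  have l5 : (sw + ct * (1 + 4.9 * t ^ 2)) * sin xx * (π * (1.1672 * N + 1.4134 * R)) ≤
      xx * (3.8533 + 1.8467 * ε) := by
    have := mul_le_mul_of_nonneg_left l4 (mul_pos pi_pos hsx).le
    calc _ = π * sin xx * ((sw + ct * (1 + 4.9 * t ^ 2)) * (1.1672 * N + 1.4134 * R)) := by ring
      _ ≤ π * sin xx * (K * (3.8533 + 1.8467 * ε)) := this
      _ = K * (π * sin xx) * (3.8533 + 1.8467 * ε) := by ring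
      _ = _ := by rw [hK]
  have l6 : (D0 + 4.24 * t ^ 2) * xx ≤ (sw + ct * (1 + 4.9 * t ^ 2)) * sin xx := by
    have h3 := sqrt3_bounds
    have g1 : 4.24 * t ^ 2 * xx ≤ 4.9 * t ^ 2 * (ct * sin xx) := by
      have : 4.9 * t ^ 2 * (√3 / 2 * xx) ≤ 4.9 * t ^ 2 * (ct * sin xx) :=
        mul_le_mul_of_nonneg_left hct (by positivity)
      have g2 : 0 ≤ t ^ 2 * xx := by positivity
      nlinarith
    nlinarith
  have l7 : 3.6668 * N + 4.4403 * R ≤ π * (1.1672 * N + 1.4134 * R) := by nlinarith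
  have l8 : (D0 + 4.24 * t ^ 2) * xx * (π * (1.1672 * N + 1.4134 * R)) ≤
      xx * (3.8533 + 1.8467 * ε) :=
    (mul_le_mul_of_nonneg_right l6 (by positivity)).trans l5
  by_cases hneg : D0 + 4.24 * t ^ 2 ≤ 0
  · have : (D0 + 4.24 * t ^ 2) * (3.6668 * N + 4.4403 * R) ≤ 0 :=
      mul_nonpos_of_nonpos_of_nonneg hneg (by positivity)
    linarith
  · push Not at hneg
    have l9 : (D0 + 4.24 * t ^ 2) * (3.6668 * N + 4.4403 * R) ≤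
        (D0 + 4.24 * t ^ 2) * (π * (1.1672 * N + 1.4134 * R)) :=
      mul_le_mul_of_nonneg_left l7 hneg.le
    have l10 : xx * ((D0 + 4.24 * t ^ 2) * (π * (1.1672 * N + 1.4134 * R))) ≤
        xx * (3.8533 + 1.8467 * ε) := by
      calc _ = (D0 + 4.24 * t ^ 2) * xx * (π * (1.1672 * N + 1.4134 * R)) := by ring
        _ ≤ _ := l8
    exact l9.trans (le_of_mul_le_mul_left l10 hxx)

/-- division by `D0` -/
lemma red2 {t N R ε D0 Θ : ℝ} (ht1 : -(1 / 20) ≤ t) (ht2 : t ≤ 1 / 14) (hD1 : 1.7 ≤ D0)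
    (hD2 : D0 ≤ 1.82) (hΘ : 3.8533 + 1.8467 * ε ≤ 3.6668 * D0 * Θ) (hN : 0 ≤ N) (hR : 0 ≤ R)
    (hΘ0 : 0 ≤ Θ)
    (h : (D0 + 4.24 * t ^ 2) * (3.6668 * N + 4.4403 * R) ≤ 3.8533 + 1.8467 * ε) :
    N + 1.2109 * R ≤ Θ * (1 - 2.3 * t ^ 2) := by
  have h4 : t ^ 2 ≤ 0.00511 := by nlinarith
  have ht0 : 0 ≤ t ^ 2 := sq_nonneg t
  have hpos : 0 < D0 + 4.24 * t ^ 2 := by positivity
  have g1 : (D0 + 4.24 * t ^ 2) * (3.6668 * (N + 1.2109 * R)) ≤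
      (D0 + 4.24 * t ^ 2) * (3.6668 * N + 4.4403 * R) := by
    apply mul_le_mul_of_nonneg_left _ hpos.le
    linarith
  have g2 : D0 ≤ (D0 + 4.24 * t ^ 2) * (1 - 2.3 * t ^ 2) := by nlinarith
  have g3 : 3.6668 * D0 * Θ ≤ (D0 + 4.24 * t ^ 2) * (3.6668 * (Θ * (1 - 2.3 * t ^ 2))) := by
    have : 0 ≤ 3.6668 * Θ := by positivity
    nlinarith [mul_le_mul_of_nonneg_left g2 this]
  have g4 := g1.trans (h.trans (hΘ.trans g3))
  have g5 := le_of_mul_le_mul_left g4 hpos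
  linarith

end Pool.Agent.T4
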