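import Mathlib
import Pool.Agent.Lib_helper93.T4.Red

set_option autoImplicit false

namespace Pool.Agent.T4

open Real

lemma posB {N t : ℝ} (ht1 : -(1 / 20) ≤ t) (ht2 : t ≤ 3 / 50) (hN1 : 0.24 ≤ N) :
    (0.6110 * (1 - 2.3 * t ^ 2) - 2 / 9 * 1.2109 - N) * (4 * N ^ 2 - (1 / 4 - t ^ 2)) <
      1.2109 * (1 / 144 - 19 / 36 * t ^ 2 - t ^ 3 - 0.0009) := by
  have h1 : t ^ 2 ≤ 0.0036 := by nlinarith
  have h2 : t ^ 3 ≤ 0.06 * t ^ 2 := by nlinarith [sq_nonneg t]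
  have h3 : 0 ≤ t ^ 2 := sq_nonneg t
  have h4 : 0 ≤ t ^ 4 := by positivity
  nlinarith [mul_nonneg (show (0:ℝ) ≤ N + 0.25 by linarith) (sq_nonneg (N - 0.297)),
    mul_nonneg h3 (show (0:ℝ) ≤ N - 0.24 by linarith),
    mul_nonneg h3 (sq_nonneg (N - 0.297)), sq_nonneg (N - 0.297)]

/-- prime exponent `≥ 11`, only level `0` -/
lemma posP {N t : ℝ} (ht1 : -(1 / 20) ≤ t) (ht2 : t ≤ 3 / 50) (hN1 : 0.24 ≤ N) :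
    (0.5890 * (1 - 2.3 * t ^ 2) - 2 / 9 * 1.2109 - N) * (4 * N ^ 2 - (1 / 4 - t ^ 2)) <
      1.2109 * (1 / 144 - 19 / 36 * t ^ 2 - t ^ 3 - 0.0017) := by
  have h1 : t ^ 2 ≤ 0.0036 := by nlinarith
  have h2 : t ^ 3 ≤ 0.06 * t ^ 2 := by nlinarith [sq_nonneg t]
  have h3 : 0 ≤ t ^ 2 := sq_nonneg t
  have h4 : 0 ≤ t ^ 4 := by positivity
  nlinarith [mul_nonneg (show (0:ℝ) ≤ N + 0.25 by linarith) (sq_nonneg (N - 0.285)),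
    mul_nonneg h3 (show (0:ℝ) ≤ N - 0.24 by linarith),
    mul_nonneg h3 (sq_nonneg (N - 0.285)), sq_nonneg (N - 0.285)]

/-- the contradiction -/
lemma concl {t N R g Θ : ℝ} (ht1 : -(1 / 20) ≤ t) (ht2 : t ≤ 1 / 14)
    (pos : 0.24 ≤ N → N ≤ 0.4 → (Θ * (1 - 2.3 * t ^ 2) - 2 / 9 * 1.2109 - N) *
      (4 * N ^ 2 - (1 / 4 - t ^ 2)) < 1.2109 * g)
    (hlin : N + 1.2109 * R ≤ Θ * (1 - 2.3 * t ^ 2))
    (hgN : g ≤ (R - 2 / 9) * (4 * N ^ 2 - (1 / 4 - t ^ 2)))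
    (hgpos : 0 < g) (hR : 2 / 9 ≤ R) (hN0 : 0 ≤ N) (hΘ0 : 0 ≤ Θ) (hΘ : Θ ≤ 0.65) : False := by
  have h4 : t ^ 2 ≤ 0.00511 := by nlinarith
  have ht0 : 0 ≤ t ^ 2 := sq_nonneg t
  have hP : 0 < 4 * N ^ 2 - (1 / 4 - t ^ 2) := by
    by_contra hc
    push Not at hc
    have : (R - 2 / 9) * (4 * N ^ 2 - (1 / 4 - t ^ 2)) ≤ 0 :=
      mul_nonpos_of_nonneg_of_nonpos (by linarith) hc
    linarith
  have hN1 : 0.24 ≤ N := by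
    by_contra hc
    push Not at hc
    nlinarith
  have hN2 : N ≤ 0.4 := by
    have : Θ * (1 - 2.3 * t ^ 2) ≤ 0.65 := by nlinarith
    linarith
  have hp := pos hN1 hN2
  have h5 : 1.2109 * (R - 2 / 9) ≤ Θ * (1 - 2.3 * t ^ 2) - 2 / 9 * 1.2109 - N := by linarith
  have h6 := mul_le_mul_of_nonneg_right h5 hP.le
  nlinarith

/-- `m = e = 9`, `β ≤ 8 / 15` -/
lemma pos9 {N t : ℝ} (ht1 : -(1 / 20) ≤ t) (ht2 : t ≤ 1 / 30) (hN1 : 0.24 ≤ N) :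
    (0.6155 * (1 - 2.3 * t ^ 2) - 2 / 9 * 1.2109 - N) * (4 * N ^ 2 - (1 / 4 - t ^ 2)) <
      1.2109 * (1 / 144 - 19 / 36 * t ^ 2 - t ^ 3 + 5 / 4 * (t + 1 / 18) * (t - 1 / 30)) := by
  have h1 : t ^ 2 ≤ 0.0025 := by nlinarith
  have h2 : t ^ 3 ≤ 0.0334 * t ^ 2 := by nlinarith [sq_nonneg t]
  have h3 : 0 ≤ t ^ 2 := sq_nonneg t
  have h4 : 0 ≤ t ^ 4 := by positivity
  nlinarith [mul_nonneg (show (0:ℝ) ≤ N + 0.25 by linarith) (sq_nonneg (N - 0.3)),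
    mul_nonneg h3 (show (0:ℝ) ≤ N - 0.24 by linarith),
    mul_nonneg h3 (sq_nonneg (N - 0.3)), sq_nonneg (N - 0.3), sq_nonneg (t + 0.0111)]

/-- `m = e = 7`, `β ≤ 4 / 7` -/
lemma pos7 {N t : ℝ} (ht1 : -(1 / 20) ≤ t) (ht2 : t ≤ 1 / 14) (hN1 : 0.24 ≤ N) :
    (0.5890 * (1 - 2.3 * t ^ 2) - 2 / 9 * 1.2109 - N) * (4 * N ^ 2 - (1 / 4 - t ^ 2)) <
      1.2109 * (1 / 144 - 19 / 36 * t ^ 2 - t ^ 3 - 5 / 4 * (1 / 14 - t) * (t + 3 / 70)) := by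
  have h1 : t ^ 2 ≤ 0.00511 := by nlinarith
  have h2 : t ^ 3 ≤ 0.0715 * t ^ 2 := by nlinarith [sq_nonneg t]
  have h3 : 0 ≤ t ^ 2 := sq_nonneg t
  have h4 : 0 ≤ t ^ 4 := by positivity
  nlinarith [mul_nonneg (show (0:ℝ) ≤ N + 0.25 by linarith) (sq_nonneg (N - 0.285)),
    mul_nonneg h3 (show (0:ℝ) ≤ N - 0.24 by linarith),
    mul_nonneg h3 (sq_nonneg (N - 0.285)), sq_nonneg (N - 0.285), sq_nonneg (t - 0.0143)]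

end Pool.Agent.T4
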