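import Mathlib
import Pool.Agent.Lib_helper93.T4.Pos
import Pool.Agent.Lib_helper60.SCH.Out
import Pool.Agent.Lib_helper13.SDC.TwoChar
import Pool.Agent.Lib_helper26.SCH.Step

set_option autoImplicit false

namespace Pool.Agent.T4

open Finset Pool.Agent.GL Pool.Agent.Lib_helper42.RS Pool.Agent.Lib_helper13.PL Pool.Agent.SCH

universe u

variable {G : Type u} [AddCommGroup G] [Fintype G] [DecidableEq G]

/-- the inequality for one pair `x ∉ B`, `w ∈ B` with loss `κ` in the exchange inequality -/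
theorem pair_lin {m : ℕ} (hm5 : 5 ≤ m) {χ : AddChar G ℂ} {φ : G →+ ZMod m}
    (hφ : Function.Surjective φ) (hstd : Std χ φ) (B : Finset G) {x w : G} {κ : ℝ} (hκ : 0 ≤ κ)
    (hex : ((2 * dlt B w + dlt' B w : ℤ) : ℝ) ≤ ((2 * dlt B x + dlt' B x : ℤ) : ℝ) + κ)
    (h45 : 9 * Fintype.card G ≤ 20 * B.card) (h56 : 7 * B.card ≤ 4 * Fintype.card G)
    (hre : 0 ≤ (hat B χ).re) {D0 : ℝ}
    (hD : D0 * (Real.pi / m) ≤ (|Real.sin (ang φ w)| + Real.cos (ang φ x)) * Real.sin (Real.pi / m))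
    (hct : √3 / 2 * (Real.pi / m) ≤ Real.cos (ang φ x) * Real.sin (Real.pi / m))
    (hcw : √3 * |Real.cos (ang φ w)| ≤ |Real.sin (ang φ w)|)
    (hst : √3 * |Real.sin (ang φ x)| ≤ Real.cos (ang φ x)) :
    (D0 + 4.24 * ((B.card : ℝ) / Fintype.card G - 1 / 2) ^ 2) *
      (3.6668 * (‖hat B χ‖ / Fintype.card G) + 4.4403 * ((hat B χ).re / Fintype.card G)) ≤
      3.8533 + 1.8467 * (κ / Fintype.card G) := by
  have : NeZero m := ⟨by omega⟩
  have hm0 : (0 : ℝ) < m := by positivity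
  have hn0 : (0 : ℝ) < Fintype.card G := by exact_mod_cast Fintype.card_pos
  have hpi := Real.pi_pos
  have hpi1 := Real.pi_gt_d6
  have hpi2 := Real.pi_lt_d6
  set n : ℝ := (Fintype.card G : ℝ) with hn
  set xx : ℝ := Real.pi / m with hxx
  have hxx0 : 0 < xx := by rw [hxx]; positivity
  have hm5R : (5 : ℝ) ≤ m := by exact_mod_cast hm5
  have hxx1 : xx ≤ 0.63 := by
    rw [hxx, div_le_iff₀ hm0]; nlinarith
  have hsx : 0 < Real.sin xx := Real.sin_pos_of_pos_of_lt_pi hxx0 (by linarith)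
  set K : ℝ := 1 / (m * Real.sin xx) with hKd
  have hK0 : 0 ≤ K := by rw [hKd]; positivity
  have hsx' : Real.sin xx ≠ 0 := hsx.ne'
  have hK : K * (Real.pi * Real.sin xx) = xx := by
    have e : xx = Real.pi / m := hxx
    have e2 : K * (Real.pi * Real.sin xx) = Real.pi / m := by
      rw [hKd]; field_simp
    rw [e2, e]
  have hker : (Nat.card φ.ker : ℝ) / Real.sin xx = K * n := by
    have h := card_ker_mul φ hφ
    have h2 : n = m * (Nat.card φ.ker : ℝ) := by rw [hn]; exact_mod_cast h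
    rw [h2, hKd]; field_simp
  set b : ℝ := (B.card : ℝ) with hb
  set t : ℝ := b / n - 1 / 2 with ht
  have ht1 : -(1 / 20) ≤ t := by
    rw [ht]
    have : (9 : ℝ) / 20 ≤ b / n := by
      rw [le_div_iff₀ hn0]
      have : (9 : ℝ) * n ≤ 20 * b := by rw [hn, hb]; exact_mod_cast h45
      linarith
    linarith
  have ht2 : t ≤ 1 / 14 := by
    rw [ht]
    have : b / n ≤ (4 : ℝ) / 7 := by
      rw [div_le_iff₀ hn0]
      have : (7 : ℝ) * b ≤ 4 * n := by rw [hn, hb]; exact_mod_cast h56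
      linarith
    linarith
  have hsb : Real.sin (Real.pi * b / n) = Real.cos (Real.pi * t) := by
    rw [← Real.cos_sub_pi_div_two]
    congr 1
    rw [ht]; ring
  have hN : ‖hat B χ‖ ^ 2 = (hat B χ).re ^ 2 + (hat B χ).im ^ 2 := by
    rw [← Complex.normSq_eq_norm_sq, Complex.normSq_apply]; ring
  have q1 := shift1 (by omega : 2 ≤ m) hφ hstd B x
  have q2 := shift2 (by omega : 2 ≤ m) hφ hstd B x
  have q3 := out1 (by omega : 2 ≤ m) hφ hstd B w
  have q4 := out2 (by omega : 2 ≤ m) hφ hstd B w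
  rw [← hxx, hker] at q1 q2 q3 q4
  rw [← hb, ← hn, hsb] at q1 q2
  rw [← hn] at q3 q4
  have hcx := cos_ang_nonneg φ x
  rw [abs_of_nonneg hcx] at q1
  set N := ‖hat B χ‖
  set R := (hat B χ).re
  set I := (hat B χ).im
  have dl1 := dlt_le_half B x
  have dl2 := dlt'_le_half B x
  have dl3 := dlt_le_half B w
  have dl4 := dlt'_le_half B w
  rw [← hn] at dl1 dl2 dl3 dl4
  have z1 : (0 : ℝ) ≤ ((dlt B x : ℤ) : ℝ) := by unfold dlt; exact_mod_cast Nat.zero_le _
  have z2 : (0 : ℝ) ≤ ((dlt' B x : ℤ) : ℝ) := by unfold dlt'; exact_mod_cast Nat.zero_le _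
  have z3 : (0 : ℝ) ≤ ((dlt B w : ℤ) : ℝ) := by unfold dlt; exact_mod_cast Nat.zero_le _
  have z4 : (0 : ℝ) ≤ ((dlt' B w : ℤ) : ℝ) := by unfold dlt'; exact_mod_cast Nat.zero_le _
  have half : ∀ y : ℝ, 2 * y ≤ n → y / n ≤ 1 / 2 := by
    intro y hy
    rw [div_le_iff₀ hn0]; linarith
  have e1 : ∀ y : ℝ, Real.pi * y / n = Real.pi * (y / n) := fun y => by ring
  rw [e1] at q1 q2 q3 q4
  apply red (xx := xx) (t := t) (ct := Real.cos (ang φ x)) (st := |Real.sin (ang φ x)|)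
    (sw := |Real.sin (ang φ w)|) (cw := |Real.cos (ang φ w)|) (N := N / n) (R := R / n)
    (I := I / n) (K := K) (d := ((dlt B x : ℤ) : ℝ) / n) (d' := ((dlt' B x : ℤ) : ℝ) / n)
    (e := ((dlt B w : ℤ) : ℝ) / n) (e' := ((dlt' B w : ℤ) : ℝ) / n) hxx0 hxx1 hK hK0 ht1 ht2
    (by positivity) (half _ dl1) (by positivity) (half _ dl2) (by positivity) (half _ dl3)
    (by positivity) (half _ dl4)
  · rw [← mul_div_assoc, div_le_iff₀ hn0]
    calc _ ≤ _ := q1
      _ = _ := by ring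
  · have h1 : Real.cos (ang φ x) * R - |Real.sin (ang φ x)| * |I| ≤
        |Real.cos (ang φ x) * R + Real.sin (ang φ x) * I| := by
      rw [← abs_mul]
      have a1 := neg_abs_le (Real.sin (ang φ x) * I)
      have a2 := le_abs_self (Real.cos (ang φ x) * R + Real.sin (ang φ x) * I)
      linarith
    have h2 := h1.trans q2
    rw [abs_div, abs_of_pos hn0]
    have e : Real.cos (ang φ x) * (R / n) - |Real.sin (ang φ x)| * (|I| / n) =
        (Real.cos (ang φ x) * R - |Real.sin (ang φ x)| * |I|) / n := by ring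
    rw [e, div_le_iff₀ hn0]
    calc _ ≤ _ := h2
      _ = _ := by ring
  · rw [← mul_div_assoc, div_le_iff₀ hn0]
    calc _ ≤ _ := q3
      _ = _ := by ring
  · have h1 : |Real.sin (ang φ w)| * R - |Real.cos (ang φ w)| * |I| ≤
        |Real.sin (ang φ w) * R - Real.cos (ang φ w) * I| := by
      have a1 := abs_sub_abs_le_abs_sub (Real.sin (ang φ w) * R) (Real.cos (ang φ w) * I)
      rw [abs_mul, abs_mul, abs_of_nonneg hre] at a1
      exact a1
    have h2 := h1.trans q4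
    rw [abs_div, abs_of_pos hn0]
    have e : |Real.sin (ang φ w)| * (R / n) - |Real.cos (ang φ w)| * (|I| / n) =
        (|Real.sin (ang φ w)| * R - |Real.cos (ang φ w)| * |I|) / n := by ring
    rw [e, div_le_iff₀ hn0]
    calc _ ≤ _ := h2
      _ = _ := by ring
  · have h1 : 2 * (((dlt B w : ℤ) : ℝ) / n) + ((dlt' B w : ℤ) : ℝ) / n =
        ((2 * dlt B w + dlt' B w : ℤ) : ℝ) / n := by push_cast; ring
    have h2 : 2 * (((dlt B x : ℤ) : ℝ) / n) + ((dlt' B x : ℤ) : ℝ) / n + κ / n =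
        (((2 * dlt B x + dlt' B x : ℤ) : ℝ) + κ) / n := by push_cast; ring
    rw [h1, h2]
    exact (div_le_div_iff_of_pos_right hn0).mpr hex
  · positivity
  · exact hcw
  · exact hst
  · positivity
  · exact hcx
  · rw [div_pow, div_pow, div_pow, hN]; ring
  · positivity
  · positivity
  · exact hD
  · exact hct

end Pool.Agent.T4
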