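import Mathlib
import Pool.Agent.Lib_helper93.T4.Pair

set_option autoImplicit false

namespace Pool.Agent.T4

open Finset Pool.Agent.GL Pool.Agent.Lib_helper42.RS Pool.Agent.Lib_helper13.PL Pool.Agent.SCH

universe u

variable {G : Type u} [AddCommGroup G] [Fintype G] [DecidableEq G]

lemma cos_ang_eq {m : ℕ} (φ : G →+ ZMod m) (x : G) :
    Real.cos (ang φ x) = Real.cos (Real.pi * ((φ x).valMinAbs.natAbs : ℝ) / m) := by
  unfold ang
  have h : (((φ x).valMinAbs.natAbs : ℕ) : ℝ) = |((φ x).valMinAbs : ℝ)| := by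
    rw [← Int.cast_abs, Int.abs_eq_natAbs]; simp
  rw [h]
  rcases abs_cases ((φ x).valMinAbs : ℝ) with ⟨e, _⟩ | ⟨e, _⟩
  · rw [e]
  · rw [e, ← Real.cos_neg]; congr 1; ring

lemma abs_sin_ang_eq {m : ℕ} [NeZero m] (φ : G →+ ZMod m) (x : G) :
    |Real.sin (ang φ x)| = Real.sin (Real.pi * ((φ x).valMinAbs.natAbs : ℝ) / m) := by
  have hm0 : (0 : ℝ) < m := by have := NeZero.pos m; exact_mod_cast this
  have hpi := Real.pi_pos
  have h1 := ZMod.natAbs_valMinAbs_le (φ x)
  have h2 : 2 * (((φ x).valMinAbs.natAbs : ℕ) : ℝ) ≤ m := by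
    have : 2 * (φ x).valMinAbs.natAbs ≤ m := by omega
    exact_mod_cast this
  have h0 : 0 ≤ Real.sin (Real.pi * ((φ x).valMinAbs.natAbs : ℝ) / m) := by
    apply Real.sin_nonneg_of_nonneg_of_le_pi (by positivity)
    rw [div_le_iff₀ hm0]
    nlinarith
  unfold ang
  have h : (((φ x).valMinAbs.natAbs : ℕ) : ℝ) = |((φ x).valMinAbs : ℝ)| := by
    rw [← Int.cast_abs, Int.abs_eq_natAbs]; simp
  rw [h] at h0 ⊢
  rcases abs_cases ((φ x).valMinAbs : ℝ) with ⟨e, _⟩ | ⟨e, _⟩
  · rw [e] at h0 ⊢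
    exact abs_of_nonneg h0
  · rw [e] at h0 ⊢
    rw [mul_neg, neg_div, Real.sin_neg] at h0 ⊢
    exact abs_of_nonpos (by linarith)

lemma abs_cos_ang_eq {m : ℕ} [NeZero m] (φ : G →+ ZMod m) (x : G) :
    |Real.cos (ang φ x)| = Real.cos (Real.pi * ((φ x).valMinAbs.natAbs : ℝ) / m) := by
  rw [abs_of_nonneg (cos_ang_nonneg φ x), cos_ang_eq]

/-- inner angle `≤ π / 6` -/
lemma inner_st {θ : ℝ} (h0 : 0 ≤ θ) (h1 : θ ≤ Real.pi / 6) :
    √3 * Real.sin θ ≤ Real.cos θ := by
  have hpi := Real.pi_pos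
  have h2 : Real.sin θ ≤ 1 / 2 := by
    rw [← Real.sin_pi_div_six]
    exact Real.sin_le_sin_of_le_of_le_pi_div_two (by linarith) (by linarith) h1
  have h3 : √3 / 2 ≤ Real.cos θ := by
    rw [← Real.cos_pi_div_six]
    exact Real.cos_le_cos_of_nonneg_of_le_pi h0 (by linarith) h1
  have : 0 ≤ √3 := Real.sqrt_nonneg 3
  nlinarith

/-- outer angle `≥ π / 3` -/
lemma outer_cw {θ : ℝ} (h0 : Real.pi / 3 ≤ θ) (h1 : θ ≤ Real.pi / 2) :
    √3 * Real.cos θ ≤ Real.sin θ := by
  have h := inner_st (θ := Real.pi / 2 - θ) (by linarith) (by linarith [Real.pi_pos])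
  rwa [Real.sin_pi_div_two_sub, Real.cos_pi_div_two_sub] at h

lemma outer_sw {θ : ℝ} (h0 : Real.pi / 3 ≤ θ) (h1 : θ ≤ Real.pi / 2) :
    √3 / 2 ≤ Real.sin θ := by
  rw [← Real.sin_pi_div_three]
  exact Real.sin_le_sin_of_le_of_le_pi_div_two (by linarith [Real.pi_pos]) h1 h0

/-- `cos θ sin (π/m) ≥ (√3 / 2) (π / m)` for the inner angles -/
lemma inner_ct {m i : ℕ} (hm5 : 5 ≤ m) (hodd : m % 2 = 1) (hi : 6 * i ≤ m) :
    √3 / 2 * (Real.pi / m) ≤ Real.cos (Real.pi * i / m) * Real.sin (Real.pi / m) := by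
  have hm0 : (0 : ℝ) < m := by have : 0 < m := by omega
                               exact_mod_cast this
  have hpi := Real.pi_pos
  have hpi2 := Real.pi_lt_d6
  have h3 := sqrt3_bounds
  have hx0 : 0 ≤ Real.pi / m := by positivity
  rcases Nat.lt_or_ge m 7 with h7 | h7
  · have : m = 5 := by omega
    subst this
    have : i = 0 := by omega
    subst this
    have h1 := sin_lb (x := Real.pi / (5 : ℕ)) (by positivity) (by push_cast; linarith)
    have e : Real.pi * ((0 : ℕ) : ℝ) / ((5 : ℕ) : ℝ) = 0 := by simp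
    rw [e, Real.cos_zero, one_mul]
    refine le_trans ?_ h1
    set x := Real.pi / ((5 : ℕ) : ℝ) with hx
    have hx1 : x ≤ 0.62832 := by rw [hx]; push_cast; linarith
    have hx2 : x ^ 2 ≤ 0.3948 := by nlinarith
    have hx3 : x ^ 3 ≤ 0.2481 := by
      have : x ^ 3 = x ^ 2 * x := by ring
      rw [this]; nlinarith
    nlinarith
  · have h7R : (7 : ℝ) ≤ m := by exact_mod_cast h7
    have hx1 : Real.pi / m ≤ 0.4489 := by
      rw [div_le_iff₀ hm0]; nlinarith
    refine (angA hx0 hx1).trans ?_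
    apply mul_le_mul_of_nonneg_right
    · apply Real.cos_le_cos_of_nonneg_of_le_pi (by positivity) (by linarith)
      have h6 : 6 * i + 1 ≤ m := by omega
      have h6R : 6 * (i : ℝ) + 1 ≤ m := by exact_mod_cast h6
      have e : Real.pi / 6 - Real.pi / m / 6 = Real.pi * ((m - 1) / 6) / m := by
        field_simp
      rw [e]
      apply div_le_div_of_nonneg_right _ hm0.le
      apply mul_le_mul_of_nonneg_left _ hpi.le
      linarith
    · apply Real.sin_nonneg_of_nonneg_of_le_pi hx0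
      have := Real.pi_gt_d6
      linarith

/-- the sum condition, all odd `m ≥ 5` -/
lemma sum_D {m i j : ℕ} (hm5 : 5 ≤ m) (hodd : m % 2 = 1) (hi : 6 * i ≤ m) (hj : m ≤ 3 * j)
    (hj2 : 2 * j ≤ m) :
    √3 * (Real.pi / m) ≤ (Real.sin (Real.pi * j / m) + Real.cos (Real.pi * i / m)) *
      Real.sin (Real.pi / m) := by
  have hm0 : (0 : ℝ) < m := by have : 0 < m := by omega
                               exact_mod_cast this
  have hpi := Real.pi_pos
  have hpi2 := Real.pi_lt_d6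
  have h3 := sqrt3_bounds
  have hx0 : 0 ≤ Real.pi / m := by positivity
  have hm5R : (5 : ℝ) ≤ m := by exact_mod_cast hm5
  have hj2R : 2 * (j : ℝ) ≤ m := by exact_mod_cast hj2
  have hjR : (m : ℝ) ≤ 3 * j := by exact_mod_cast hj
  have hθ2 : Real.pi * j / m ≤ Real.pi / 2 := by
    rw [div_le_iff₀ hm0]; nlinarith
  have hθ1 : Real.pi / 3 ≤ Real.pi * j / m := by
    rw [le_div_iff₀ hm0]; nlinarith
  have hs0 : 0 ≤ Real.sin (Real.pi / m) := by
    apply Real.sin_nonneg_of_nonneg_of_le_pi hx0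
    rw [div_le_iff₀ hm0]; nlinarith
  by_cases h3m : m % 3 = 0
  · have h9 : 9 ≤ m := by omega
    have h9R : (9 : ℝ) ≤ m := by exact_mod_cast h9
    have hx1 : Real.pi / m ≤ 0.3492 := by
      rw [div_le_iff₀ hm0]; nlinarith
    refine (angC hx0 hx1).trans ?_
    apply mul_le_mul_of_nonneg_right _ hs0
    apply add_le_add (outer_sw hθ1 hθ2)
    apply Real.cos_le_cos_of_nonneg_of_le_pi (by positivity) (by linarith)
    have h6 : 6 * i + 3 ≤ m := by omega
    have h6R : 6 * (i : ℝ) + 3 ≤ m := by exact_mod_cast h6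
    have e : Real.pi / 6 - Real.pi / m / 2 = Real.pi * ((m - 3) / 6) / m := by
      field_simp
      ring
    rw [e]
    apply div_le_div_of_nonneg_right _ hm0.le
    apply mul_le_mul_of_nonneg_left _ hpi.le
    linarith
  · have hx1 : Real.pi / m ≤ 0.6284 := by
      rw [div_le_iff₀ hm0]; nlinarith
    have h1 := angB hx0 hx1
    have h2 := inner_ct hm5 hodd hi
    have h4 : Real.sin (Real.pi / 3 + Real.pi / m / 3) ≤ Real.sin (Real.pi * j / m) := by
      apply Real.sin_le_sin_of_le_of_le_pi_div_two (by linarith) hθ2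
      have h6 : m + 1 ≤ 3 * j := by omega
      have h6R : (m : ℝ) + 1 ≤ 3 * j := by exact_mod_cast h6
      have e : Real.pi / 3 + Real.pi / m / 3 = Real.pi * ((m + 1) / 3) / m := by
        field_simp
      rw [e]
      apply div_le_div_of_nonneg_right _ hm0.le
      apply mul_le_mul_of_nonneg_left _ hpi.le
      linarith
    have h5 := mul_le_mul_of_nonneg_right h4 hs0
    nlinarith

end Pool.Agent.T4
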