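import Mathlib
import Pool.Agent.Lib_helper93.T4.Angle
import Pool.Agent.Lib_helper26.SCH.Shift

set_option autoImplicit false

namespace Pool.Agent.T4

open Finset Pool.Agent.GL Pool.Agent.Lib_helper42.RS Pool.Agent.Lib_helper13.PL Pool.Agent.SCH

universe u

variable {G : Type u} [AddCommGroup G] [Fintype G] [DecidableEq G]

/-- the shift inequalities without the constant of `m`, for the levels of the full hole -/
theorem shift_free {m : ℕ} (hm5 : 5 ≤ m) (hmodd : m % 2 = 1) {χ : AddChar G ℂ} {φ : G →+ ZMod m}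
    (hφ : Function.Surjective φ) (hstd : Std χ φ) (B : Finset G) (x : G)
    (hx6 : 6 * |(φ x).valMinAbs| ≤ m) :
    √3 * ‖hat B χ‖ ≤ 2 * ((Fintype.card G : ℝ) / Real.pi) *
      Real.sin (Real.pi * B.card / Fintype.card G) *
      Real.cos (Real.pi * ((dlt B x : ℤ) : ℝ) / Fintype.card G) ∧
    √3 / 2 * |(hat B χ).re| - |(hat B χ).im| / 2 ≤ (Fintype.card G : ℝ) / Real.pi *
      Real.sin (Real.pi * B.card / Fintype.card G) *
      Real.cos (Real.pi * ((dlt' B x : ℤ) : ℝ) / Fintype.card G) := by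
  have : NeZero m := ⟨by omega⟩
  have hm0 : (0 : ℝ) < m := by have : 0 < m := by omega
                               exact_mod_cast this
  have hn0 : (0 : ℝ) < Fintype.card G := by exact_mod_cast Fintype.card_pos
  have hpi := Real.pi_pos
  set n : ℝ := (Fintype.card G : ℝ) with hn
  have hi : 6 * (φ x).valMinAbs.natAbs ≤ m := by
    have h2 : (((φ x).valMinAbs.natAbs : ℕ) : ℤ) = |(φ x).valMinAbs| := Int.natCast_natAbs _
    omega
  have hct := inner_ct hm5 hmodd hi
  have hi' : 6 * (((φ x).valMinAbs.natAbs : ℕ) : ℝ) ≤ m := by exact_mod_cast hi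
  set θ : ℝ := Real.pi * ((φ x).valMinAbs.natAbs : ℝ) / m with hθ
  have hθ0 : 0 ≤ θ := by rw [hθ]; positivity
  have hθ1 : θ ≤ Real.pi / 6 := by
    rw [hθ, div_le_iff₀ hm0]
    have : Real.pi * (6 * ((φ x).valMinAbs.natAbs : ℝ)) ≤ Real.pi * m :=
      mul_le_mul_of_nonneg_left hi' hpi.le
    linarith
  have hst : |Real.sin (ang φ x)| ≤ 1 / 2 := by
    rw [abs_sin_ang_eq, ← hθ, ← Real.sin_pi_div_six]
    exact Real.sin_le_sin_of_le_of_le_pi_div_two (by linarith) (by linarith) hθ1
  have hcx := cos_ang_nonneg φ x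
  have hc : Real.cos (ang φ x) = Real.cos θ := cos_ang_eq φ x
  set xx : ℝ := Real.pi / m with hxx
  have hxx0 : 0 < xx := by rw [hxx]; positivity
  have hm5R : (5 : ℝ) ≤ m := by exact_mod_cast hm5
  have hxx1 : xx ≤ Real.pi / 5 := by
    rw [hxx]; exact div_le_div_of_nonneg_left hpi.le (by norm_num) hm5R
  have hsx : 0 < Real.sin xx := Real.sin_pos_of_pos_of_lt_pi hxx0 (by linarith)
  have hsx1 : Real.sin xx ≤ xx := Real.sin_le hxx0.le
  have hker : (Nat.card φ.ker : ℝ) / Real.sin xx * Real.sin xx = n / Real.pi * xx := by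
    have h := card_ker_mul φ hφ
    have h2 : n = m * (Nat.card φ.ker : ℝ) := by rw [hn]; exact_mod_cast h
    rw [div_mul_cancel₀ _ hsx.ne', h2, hxx]; field_simp
  have q1 := shift1 (by omega : 2 ≤ m) hφ hstd B x
  have q2 := shift2 (by omega : 2 ≤ m) hφ hstd B x
  rw [← hxx] at q1 q2
  rw [abs_of_nonneg hcx, hc] at q1
  rw [hc] at q2
  rw [← hn] at q1 q2
  set b : ℝ := (B.card : ℝ) with hb
  set sb : ℝ := Real.sin (Real.pi * b / n) with hsb
  set c1 : ℝ := Real.cos (Real.pi * ((dlt B x : ℤ) : ℝ) / n) with hc1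
  set c2 : ℝ := Real.cos (Real.pi * ((dlt' B x : ℤ) : ℝ) / n) with hc2
  set N := ‖hat B χ‖ with hN
  set R := (hat B χ).re with hR
  set I := (hat B χ).im with hI
  set M : ℝ := (Nat.card φ.ker : ℝ) / Real.sin xx with hM
  have hN0 : 0 ≤ N := norm_nonneg _
  constructor
  · -- multiply by `sin xx`
    have h1 : Real.cos θ * Real.sin xx * N ≤ n / Real.pi * xx * sb * c1 := by
      have := mul_le_mul_of_nonneg_left q1 hsx.le
      calc Real.cos θ * Real.sin xx * N = Real.sin xx * (Real.cos θ * N) := by ring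
        _ ≤ Real.sin xx * (M * sb * c1) := this
        _ = (M * Real.sin xx) * sb * c1 := by ring
        _ = n / Real.pi * xx * sb * c1 := by rw [hker]
    have h2 : √3 / 2 * xx * N ≤ Real.cos θ * Real.sin xx * N :=
      mul_le_mul_of_nonneg_right hct hN0
    have h3 := h2.trans h1
    have h4 : xx * (√3 / 2 * N) ≤ xx * (n / Real.pi * sb * c1) := by
      calc _ = √3 / 2 * xx * N := by ring
        _ ≤ _ := h3
        _ = _ := by ring
    have h5 := le_of_mul_le_mul_left h4 hxx0
    linarith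
  · have h0 : Real.cos θ * |R| - |Real.sin (ang φ x)| * |I| ≤
        |Real.cos θ * R + Real.sin (ang φ x) * I| := by
      have a1 := abs_sub_abs_le_abs_sub (Real.cos θ * R) (-(Real.sin (ang φ x) * I))
      rw [abs_neg, abs_mul, abs_mul, sub_neg_eq_add] at a1
      have a2 : |Real.cos θ| = Real.cos θ := abs_of_nonneg (by rw [← hc]; exact hcx)
      rw [a2] at a1
      exact a1
    have h0' := h0.trans q2
    have h1 : Real.sin xx * (Real.cos θ * |R| - |Real.sin (ang φ x)| * |I|) ≤
        n / Real.pi * xx * sb * c2 := by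
      have := mul_le_mul_of_nonneg_left h0' hsx.le
      calc _ ≤ Real.sin xx * (M * sb * c2) := this
        _ = (M * Real.sin xx) * sb * c2 := by ring
        _ = n / Real.pi * xx * sb * c2 := by rw [hker]
    have h2 : √3 / 2 * xx * |R| ≤ Real.cos θ * Real.sin xx * |R| :=
      mul_le_mul_of_nonneg_right hct (abs_nonneg _)
    have h3 : Real.sin xx * |Real.sin (ang φ x)| * |I| ≤ xx * (1 / 2) * |I| := by
      apply mul_le_mul_of_nonneg_right _ (abs_nonneg _)
      exact mul_le_mul hsx1 hst (abs_nonneg _) hxx0.le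
    have h4 : xx * (√3 / 2 * |R| - |I| / 2) ≤ xx * (n / Real.pi * sb * c2) := by
      calc xx * (√3 / 2 * |R| - |I| / 2) = √3 / 2 * xx * |R| - xx * (1 / 2) * |I| := by ring
        _ ≤ Real.cos θ * Real.sin xx * |R| - Real.sin xx * |Real.sin (ang φ x)| * |I| := by
            linarith
        _ = Real.sin xx * (Real.cos θ * |R| - |Real.sin (ang φ x)| * |I|) := by ring
        _ ≤ _ := h1
        _ = _ := by ring
    exact le_of_mul_le_mul_left h4 hxx0

end Pool.Agent.T4
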