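import Mathlib
import Pool.Agent.Lib_helper93.T4.Angle

/-!
# `MP_682720`, dense part, `β ≤ 14/25`: the hole `6 |φ x| ≤ m`
-/

set_option autoImplicit false

namespace Pool.Agent.T4

open Finset Pool.Agent.GL Pool.Agent.Lib_helper42.RS Pool.Agent.Lib_helper13.PL Pool.Agent.SCH

universe u

/-- normalised form of the two Fourier inequalities -/
lemma fou_norm {n b F R N : ℝ} (hn : 0 < n)
    (h : n * (F + 3 * b ^ 2) ≤ 4 * b ^ 3 + 8 * N ^ 2 * (2 * R - 4 / 9 * n) +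
      4 * (4 / 9 * n - R) * (n * b - b ^ 2)) :
    1 / 144 - 19 / 36 * (b / n - 1 / 2) ^ 2 - (b / n - 1 / 2) ^ 3 + F / n ^ 2 / 4 ≤
      (R / n - 2 / 9) * (4 * (N / n) ^ 2 - (1 / 4 - (b / n - 1 / 2) ^ 2)) := by
  obtain ⟨β, rfl⟩ : ∃ β, b = β * n := ⟨b / n, by field_simp⟩
  obtain ⟨f, rfl⟩ : ∃ f, F = f * n ^ 2 := ⟨F / n ^ 2, by field_simp⟩
  obtain ⟨ρ, rfl⟩ : ∃ ρ, R = ρ * n := ⟨R / n, by field_simp⟩
  obtain ⟨ν, rfl⟩ : ∃ ν, N = ν * n := ⟨N / n, by field_simp⟩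
  have e1 : β * n / n = β := by field_simp
  have e2 : f * n ^ 2 / n ^ 2 = f := by field_simp
  have e3 : ρ * n / n = ρ := by field_simp
  have e4 : ν * n / n = ν := by field_simp
  rw [e1, e2, e3, e4]
  have hn3 : 0 < n ^ 3 := by positivity
  have h2 : n ^ 3 * (f + 3 * β ^ 2) ≤ n ^ 3 * (4 * β ^ 3 + 8 * ν ^ 2 * (2 * ρ - 4 / 9) +
      4 * (4 / 9 - ρ) * (β - β ^ 2)) := by
    calc _ = n * (f * n ^ 2 + 3 * (β * n) ^ 2) := by ring
      _ ≤ _ := h
      _ = _ := by ring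
  have h3 := le_of_mul_le_mul_left h2 hn3
  nlinarith

lemma fou_norm1 {n b F R : ℝ} (hn : 0 < n)
    (h : n * (F + 3 * b ^ 2) ≤ 4 * b ^ 3 + 4 * R * (n * b - b ^ 2)) :
    1 / 144 - 19 / 36 * (b / n - 1 / 2) ^ 2 - (b / n - 1 / 2) ^ 3 + F / n ^ 2 / 4 ≤
      (R / n - 2 / 9) * (1 / 4 - (b / n - 1 / 2) ^ 2) := by
  obtain ⟨β, rfl⟩ : ∃ β, b = β * n := ⟨b / n, by field_simp⟩
  obtain ⟨f, rfl⟩ : ∃ f, F = f * n ^ 2 := ⟨F / n ^ 2, by field_simp⟩
  obtain ⟨ρ, rfl⟩ : ∃ ρ, R = ρ * n := ⟨R / n, by field_simp⟩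
  have e1 : β * n / n = β := by field_simp
  have e2 : f * n ^ 2 / n ^ 2 = f := by field_simp
  have e3 : ρ * n / n = ρ := by field_simp
  rw [e1, e2, e3]
  have hn3 : 0 < n ^ 3 := by positivity
  have h2 : n ^ 3 * (f + 3 * β ^ 2) ≤ n ^ 3 * (4 * β ^ 3 + 4 * ρ * (β - β ^ 2)) := by
    calc _ = n * (f * n ^ 2 + 3 * (β * n) ^ 2) := by ring
      _ ≤ _ := h
      _ = _ := by ring
  have h3 := le_of_mul_le_mul_left h2 hn3
  nlinarith

variable {G : Type u} [AddCommGroup G] [Fintype G] [DecidableEq G]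

lemma chi_ne_zero {m : ℕ} (hm : 2 ≤ m) {χ : AddChar G ℂ} {φ : G →+ ZMod m}
    (hφ : Function.Surjective φ) (hstd : Std χ φ) : χ ≠ 0 := by
  intro h0
  have : NeZero m := ⟨by omega⟩
  obtain ⟨x, hx⟩ := hφ 1
  have h := hstd x
  rw [h0, AddChar.zero_apply, hx] at h
  -- `exp (2 π i v / m) = 1` with `v = valMinAbs 1`
  have hm0 : (0 : ℝ) < m := by positivity
  set v : ℤ := (1 : ZMod m).valMinAbs with hv
  have hv0 : v ≠ 0 := by
    intro h1
    rw [hv, ZMod.valMinAbs_eq_zero] at h1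
    have : (1 : ℕ) % m = 0 := by
      have h2 : ((1 : ℕ) : ZMod m) = 0 := by simpa using h1
      rw [ZMod.natCast_eq_zero_iff] at h2
      exact Nat.mod_eq_zero_of_dvd h2
    rw [Nat.mod_eq_of_lt (by omega)] at this
    omega
  have h2 := ZMod.natAbs_valMinAbs_le (1 : ZMod m)
  rw [← hv] at h2
  have hre := congrArg Complex.re h
  rw [Complex.exp_ofReal_mul_I_re, Complex.one_re] at hre
  have h3 : 2 * Real.pi * (v : ℝ) / m = 2 * (Real.pi * v / m) := by ring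
  rw [h3, Real.cos_two_mul'] at hre
  have h4 := Real.sin_sq_add_cos_sq (Real.pi * v / m)
  have h5 : Real.sin (Real.pi * v / m) = 0 := by nlinarith
  rw [Real.sin_eq_zero_iff] at h5
  obtain ⟨k, hk⟩ := h5
  have h6 : (k : ℝ) * m = v := by
    have hpi := Real.pi_ne_zero
    field_simp at hk
    linarith
  have h7 : k * m = v := by exact_mod_cast h6
  have hk0 : k ≠ 0 := by rintro rfl; apply hv0; rw [← h7]; simp
  have h8 : v.natAbs = k.natAbs * m := by rw [← h7, Int.natAbs_mul, Int.natAbs_natCast]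
  have h9 : 1 ≤ k.natAbs := by omega
  have h10 : m ≤ k.natAbs * m := Nat.le_mul_of_pos_left m h9
  rw [← h8] at h10
  omega

/-- the setting: everything that is needed besides the pair inequality -/
lemma setting {B : Finset G} {m : ℕ} {χ : AddChar G ℂ} {φ : G →+ ZMod m} (ctx : Ctx B χ φ)
    (hodd : Odd (Fintype.card G)) (h45 : 9 * Fintype.card G < 20 * B.card)
    (h56 : 7 * B.card ≤ 4 * Fintype.card G) {γ : ℝ}
    (hf : -4 * γ * (Fintype.card G : ℝ) ^ 2 ≤ ((GL.FF B : ℤ) : ℝ))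
    (hpos : 0 < 1 / 144 - 19 / 36 * ((B.card : ℝ) / Fintype.card G - 1 / 2) ^ 2 -
      ((B.card : ℝ) / Fintype.card G - 1 / 2) ^ 3 - γ) :
    2 / 9 ≤ (hat B χ).re / Fintype.card G ∧
    1 / 144 - 19 / 36 * ((B.card : ℝ) / Fintype.card G - 1 / 2) ^ 2 -
      ((B.card : ℝ) / Fintype.card G - 1 / 2) ^ 3 - γ ≤
      ((hat B χ).re / Fintype.card G - 2 / 9) * (4 * (‖hat B χ‖ / Fintype.card G) ^ 2 -
        (1 / 4 - ((B.card : ℝ) / Fintype.card G - 1 / 2) ^ 2)) := by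
  have hn0 : (0 : ℝ) < Fintype.card G := by exact_mod_cast Fintype.card_pos
  have hχ := chi_ne_zero (by have := ctx.hm; omega) ctx.surj ctx.std
  have h1 := fou_norm hn0 (fou_two hodd B hχ)
  have h2 := fou_norm1 hn0 ctx.fou
  set n : ℝ := (Fintype.card G : ℝ) with hn
  have hf2 : -γ ≤ ((GL.FF B : ℤ) : ℝ) / n ^ 2 / 4 := by
    rw [le_div_iff₀ (by norm_num), le_div_iff₀ (by positivity)]
    linarith
  set t := (B.card : ℝ) / n - 1 / 2 with ht
  refine ⟨?_, by linarith⟩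
  by_contra hc
  push Not at hc
  have ht1 : -(1 / 20) ≤ t := by
    rw [ht]
    have : (9 : ℝ) / 20 ≤ (B.card : ℝ) / n := by
      rw [le_div_iff₀ hn0]
      have : (9 : ℝ) * n < 20 * B.card := by rw [hn]; exact_mod_cast h45
      linarith
    linarith
  have ht2 : t ≤ 1 / 14 := by
    rw [ht]
    have : (B.card : ℝ) / n ≤ (4 : ℝ) / 7 := by
      rw [div_le_iff₀ hn0]
      have : (7 : ℝ) * B.card ≤ 4 * n := by rw [hn]; exact_mod_cast h56
      linarith
    linarith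
  have h3 : 0 < 1 / 4 - t ^ 2 := by nlinarith
  have h4 : ((hat B χ).re / n - 2 / 9) * (1 / 4 - t ^ 2) < 0 :=
    mul_neg_of_neg_of_pos (by linarith) h3
  linarith

/-- the range of `t = b / n - 1 / 2` -/
lemma t_range {B : Finset G} {p q : ℕ} (hq : 0 < q) (h45 : 9 * Fintype.card G < 20 * B.card)
    (h56 : q * B.card ≤ p * Fintype.card G) :
    -(1 / 20) ≤ (B.card : ℝ) / Fintype.card G - 1 / 2 ∧
      (B.card : ℝ) / Fintype.card G - 1 / 2 ≤ p / q - 1 / 2 := by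
  have hn0 : (0 : ℝ) < Fintype.card G := by exact_mod_cast Fintype.card_pos
  set n : ℝ := (Fintype.card G : ℝ) with hn
  constructor
  · have : (9 : ℝ) / 20 ≤ (B.card : ℝ) / n := by
      rw [le_div_iff₀ hn0]
      have : (9 : ℝ) * n < 20 * B.card := by rw [hn]; exact_mod_cast h45
      linarith
    linarith
  · have hqR : (0 : ℝ) < q := by exact_mod_cast hq
    have : (B.card : ℝ) / n ≤ (p : ℝ) / q := by
      rw [div_le_div_iff₀ hn0 hqR]
      have : (q : ℝ) * B.card ≤ p * n := by rw [hn]; exact_mod_cast h56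
      linarith
    linarith

lemma outer_facts {m : ℕ} (hm5 : 5 ≤ m) {φ : G →+ ZMod m} {w : G}
    (hw : (m : ℤ) ≤ 3 * |(φ w).valMinAbs|) :
    m ≤ 3 * (φ w).valMinAbs.natAbs ∧ 2 * (φ w).valMinAbs.natAbs ≤ m ∧ w ≠ 0 := by
  have : NeZero m := ⟨by omega⟩
  have h1 := ZMod.natAbs_valMinAbs_le (φ w)
  have h2 : (((φ w).valMinAbs.natAbs : ℕ) : ℤ) = |(φ w).valMinAbs| := Int.natCast_natAbs _
  refine ⟨by omega, by omega, ?_⟩
  rintro rfl
  rw [map_zero, ZMod.valMinAbs_zero, abs_zero] at hw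
  omega

/-- `0 ∈ B` -/
theorem zero_mem {B : Finset G} {m : ℕ} {χ : AddChar G ℂ} {φ : G →+ ZMod m} (ctx : Ctx B χ φ)
    (hm5 : 5 ≤ m) (hn27 : 27 ≤ Fintype.card G)
    (hR : 2 / 9 ≤ (hat B χ).re / Fintype.card G) : (0 : G) ∈ B := by
  by_contra h0
  have : NeZero m := ⟨by omega⟩
  have hn0 : (0 : ℝ) < Fintype.card G := by exact_mod_cast Fintype.card_pos
  have hm0 : (0 : ℝ) < m := by positivity
  have hpi := Real.pi_pos
  have hpi1 := Real.pi_gt_d6
  have hpi2 := Real.pi_lt_d6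
  have h3 := sqrt3_bounds
  obtain ⟨w, hwB, hw⟩ := ctx.wrap
  obtain ⟨-, -, hw0⟩ := outer_facts hm5 hw
  set n : ℝ := (Fintype.card G : ℝ) with hn
  have hn27R : (27 : ℝ) ≤ n := by rw [hn]; exact_mod_cast hn27
  have hre : 2 / 9 * n ≤ (hat B χ).re := by
    rwa [le_div_iff₀ hn0] at hR
  have q1 := outer_ge B (by omega : 2 ≤ m) ctx.std w (by nlinarith) hw
  have q2 := exch' ctx.maxi h0 hwB hw0
  have q3 : dlt B (0 : G) = 0 := by
    unfold dlt
    have : B.filter (fun y => y + 0 ∉ B) = ∅ := by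
      apply Finset.filter_false_of_mem
      intro y hy
      simpa using hy
    rw [this]; simp
  have q4 := shift2 (by omega : 2 ≤ m) ctx.surj ctx.std B (0 : G)
  have a0 : ang φ (0 : G) = 0 := by unfold ang; simp
  rw [a0, Real.cos_zero, Real.sin_zero, one_mul, zero_mul, add_zero] at q4
  have q5 := dlt'_le_half B (0 : G)
  have z2 : (0 : ℝ) ≤ ((dlt' B (0 : G) : ℤ) : ℝ) := by unfold dlt'; exact_mod_cast Nat.zero_le _
  rw [q3] at q2
  have q6 : ((2 * dlt B w + dlt' B w : ℤ) : ℝ) ≤ ((dlt' B (0 : G) : ℤ) : ℝ) + 6 := by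
    have : 2 * dlt B w + dlt' B w ≤ dlt' B (0 : G) + 6 := by linarith
    exact_mod_cast this
  push_cast at q6
  set D : ℝ := ((dlt' B (0 : G) : ℤ) : ℝ) with hD
  set R : ℝ := (hat B χ).re
  have h11 : 3.3166 < √11 := by rw [Real.lt_sqrt (by norm_num)]; norm_num
  have q7 : 2.52 * R ≤ D + 6 := by nlinarith
  -- the constant
  have hm5R : (5 : ℝ) ≤ m := by exact_mod_cast hm5
  set x := Real.pi / m with hx
  have hx0 : 0 < x := by rw [hx]; positivity
  have hx1 : x ≤ 0.6284 := by rw [hx, div_le_iff₀ hm0]; nlinarith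
  have hs := sin_lb hx0.le (by linarith)
  have hx2 : x ^ 2 ≤ 0.39489 := by nlinarith
  have hx3 : x ^ 3 ≤ 0.24815 := by
    have : x ^ 3 = x ^ 2 * x := by ring
    rw [this]; nlinarith
  have hs2 : 0.9212 * x ≤ Real.sin x := by nlinarith
  have hsx : 0 < Real.sin x := by nlinarith
  have hker : (Nat.card φ.ker : ℝ) / Real.sin x ≤ 0.346 * n := by
    have h := card_ker_mul φ ctx.surj
    have h2 : n = m * (Nat.card φ.ker : ℝ) := by rw [hn]; exact_mod_cast h
    rw [div_le_iff₀ hsx, h2]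
    have h4 : (0 : ℝ) ≤ (Nat.card φ.ker : ℝ) := by positivity
    have h5 : 1 ≤ 0.346 * m * Real.sin x := by
      have h6 : x * m = Real.pi := by rw [hx]; field_simp
      nlinarith
    nlinarith
  have hsb : Real.sin (Real.pi * B.card / n) ≤ 1 := Real.sin_le_one _
  have hsb0 : 0 ≤ Real.sin (Real.pi * B.card / n) := by
    apply Real.sin_nonneg_of_nonneg_of_le_pi (by positivity)
    rw [div_le_iff₀ hn0]
    have : (B.card : ℝ) ≤ n := by rw [hn]; exact_mod_cast Finset.card_le_univ B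
    nlinarith
  have hcos0 : 0 ≤ Real.cos (Real.pi * D / n) := by
    apply Real.cos_nonneg_of_neg_pi_div_two_le_of_le
    · have : 0 ≤ Real.pi * D / n := by positivity
      linarith
    · rw [div_le_iff₀ hn0]; nlinarith
  have q8 : R ≤ 0.346 * n * Real.cos (Real.pi * D / n) := by
    have g1 : R ≤ (Nat.card φ.ker : ℝ) / Real.sin x * Real.sin (Real.pi * B.card / n) *
        Real.cos (Real.pi * D / n) := (le_abs_self _).trans q4
    refine g1.trans ?_
    apply mul_le_mul_of_nonneg_right _ hcos0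
    calc (Nat.card φ.ker : ℝ) / Real.sin x * Real.sin (Real.pi * B.card / n) ≤
          0.346 * n * 1 := by
          apply mul_le_mul hker hsb hsb0 (by positivity)
      _ = _ := by ring
  have q9 := cos_tan (x := Real.pi * D / n) (x0 := Real.pi / 3) (by positivity)
    (by rw [div_le_iff₀ hn0]; nlinarith) (by positivity) (by linarith)
  rw [Real.cos_pi_div_three, Real.sin_pi_div_three] at q9
  have q10 : R ≤ 0.346 * n * (1 / 2 - √3 / 2 * (Real.pi * D / n - Real.pi / 3)) :=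
    q8.trans (mul_le_mul_of_nonneg_left q9 (by positivity))
  have e1 : 0.346 * n * (1 / 2 - √3 / 2 * (Real.pi * D / n - Real.pi / 3)) =
      0.346 * (n / 2 - √3 * Real.pi / 2 * D + √3 * Real.pi / 6 * n) := by
    field_simp
    ring
  rw [e1] at q10
  have g1 : 5.4413 ≤ √3 * Real.pi := by nlinarith
  have g2 : √3 * Real.pi ≤ 5.4415 := by nlinarith
  have g3 : 5.4413 * D ≤ √3 * Real.pi * D := mul_le_mul_of_nonneg_right g1 z2
  have g4 : √3 * Real.pi * n ≤ 5.4415 * n := mul_le_mul_of_nonneg_right g2 hn0.le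
  nlinarith

end Pool.Agent.T4
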