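import Mathlib
import Pool.Agent.Lib_helper60.SCH.Near

set_option autoImplicit false

namespace Pool.Agent.T4

open Finset Pool.Agent.GL Pool.Agent.Lib_helper42.RS Pool.Agent.Lib_helper13.PL Pool.Agent.SCH

universe u

section
variable {G : Type u} [AddCommGroup G] [Fintype G] [DecidableEq G]
variable {m : ℕ} [NeZero m]

/-- **one level**, the whole interval between an even multiple and the odd multiple below -/
theorem near_level_wide {B : Finset G} {χ : AddChar G ℂ} {φ : G →+ ZMod m} (hm : 2 ≤ m)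
    (hstd : Std χ φ) (hsurj : Function.Surjective φ) (hmax : IsMaxi B)
    (hbig : fG G B.card < GL.FF B)
    (hfou : (Fintype.card G : ℝ) * (((GL.FF B : ℤ) : ℝ) + 3 * (B.card : ℝ) ^ 2) ≤
      4 * (B.card : ℝ) ^ 3 +
        4 * (hat B χ).re * ((Fintype.card G : ℝ) * B.card - (B.card : ℝ) ^ 2))
    {K t : ℕ} (hmK : m = 3 * K) (hK : 3 ≤ K) (hb : B.card + t = 2 * K * Nat.card φ.ker)
    (ht : t ≤ Nat.card φ.ker)
    (hslope : fG G (B.card + 1) ≤ fG G B.card + (4 * (Nat.card φ.ker : ℤ) + 5))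
    {D a r S u : ℤ} {L M E w : ZMod m → ℤ} {p : ZMod m} (hD : 0 < D) (hr : 0 ≤ r)
    (hu : 10 ≤ u) (huK : u * (2 * K + 1) ≤ 50 * (K - 1))
    (hdec : ∀ j : ZMod m, 0 ≤ L j ∧ L j ≤ D ∧ 0 ≤ M j ∧ M j ≤ D ∧ 0 ≤ E j ∧
      0 ≤ 2 * (L j + L (j - p)) + (M j + M (p - j)) - a + w j + E j)
    (hS : ∑ j, E j + 2 * ∑ j, L j + ∑ j, M j = S)
    (hw : ∀ j : ZMod m, (w j : ℝ) ≤ r * Real.cos (2 * Real.pi * (j.valMinAbs.natAbs : ℝ) / m))
    (hA : 2 * D < 2 * a * K + r * K - 2 * S) (hB : 90 * D ≤ 20 * a + r * u)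
    {x : G} (hx : x ∉ B) (hp : φ x = p ∨ φ x = -p) : False := by
  set l := Nat.card φ.ker with hl
  have hlpos : 0 < l := Nat.card_pos
  have hn : Fintype.card G = m * l := card_ker_mul φ hsurj
  have hlr : (0:ℝ) < l := by exact_mod_cast hlpos
  have hbz : (B.card : ℤ) + t = 2 * K * l := by exact_mod_cast hb
  have hnz : ((Fintype.card G : ℕ) : ℤ) = 3 * K * l := by rw [hn, hmK]; push_cast; ring
  have hAz : ((Bᶜ).card : ℤ) = K * l + t := by
    rw [card_compl_int B, hnz]; linarith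
  have htz : (t : ℤ) ≤ l := by exact_mod_cast ht
  have hKz : (3:ℤ) ≤ K := by exact_mod_cast hK
  have hK1 : 1 ≤ K := by omega
  have hlz : (0:ℤ) < l := by exact_mod_cast hlpos
  have htz0 : (0:ℤ) ≤ t := by positivity
  have hKl : 3 * (l:ℤ) ≤ K * l := by nlinarith
  -- the witness
  have hwit : -((t:ℤ) * (4 * l - 5 * t)) ≤ fG G B.card := by
    apply le_fG
    refine Or.inr ⟨φ.ker, K - 1, l - t, Nat.sub_le _ _, ?_, Or.inr ⟨?_, ?_⟩⟩
    · rw [← hl]
      push_cast [show t ≤ l by omega]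
      ring
    · rw [← hl]
      obtain ⟨K', rfl⟩ : ∃ K', K = K' + 1 := ⟨K - 1, by omega⟩
      zify [show t ≤ l by omega]
      push_cast at hbz ⊢
      linarith
    · exact SCH.Alive.mono (ker_alive φ hsurj) (by omega)
  -- the real part
  have hF : -((t:ℝ) * (4 * l - 5 * t)) ≤ ((GL.FF B : ℤ) : ℝ) := by
    have : -((t:ℤ) * (4 * l - 5 * t)) ≤ GL.FF B := by linarith
    exact_mod_cast this
  have hre := re_near (F := ((GL.FF B : ℤ) : ℝ)) (R := (hat B χ).re) (l := (l:ℝ)) (t := (t:ℝ))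
    (K := (K:ℝ)) (u := (u:ℝ)) (b := (B.card:ℝ)) (a := (((Bᶜ).card : ℕ) : ℝ))
    (n := (Fintype.card G : ℝ)) hlr (by positivity)
    (by have : t ≤ l := by omega
        exact_mod_cast this) (by exact_mod_cast hK1) (by exact_mod_cast hu)
    (by exact_mod_cast huK)
    (by have : (B.card : ℝ) + t = 2 * K * l := by exact_mod_cast hbz
        linarith)
    (by exact_mod_cast hAz) (by exact_mod_cast hnz) hF hfou
  -- `0 ∈ B` and the budget
  have h0 : (0 : G) ∈ B := by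
    apply zero_mem_slope hmax hslope
    rw [hAz]
    have e : 2 * (K:ℤ) * l = 2 * (K * l) := by ring
    rw [e] at hbz
    linarith
  have hbud := budget_slope hmax h0 hslope hx
  rw [hAz] at hbud
  have hm1 := lev_minus φ hsurj Bᶜ x
  have hp1 := lev_plus φ hsurj Bᶜ x
  rw [← hl] at hm1 hp1
  set r1 : ℤ := ((Bᶜ.filter (fun z => z + x ∈ Bᶜ)).card : ℤ) with hr1
  set r2 : ℤ := ((Bᶜ.filter (fun z => x - z ∈ Bᶜ)).card : ℤ) with hr2
  have hbud2 : 4 * ((2 * (r1 : ℝ)) + r2) ≤ 4 * l + 18 * t := by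
    have : 4 * (2 * r1 + r2) ≤ 4 * (l:ℤ) + 18 * t := by linarith
    exact_mod_cast this
  -- the levels
  have hcase : ∃ N : ZMod m → ℝ, (∀ j, 0 ≤ N j) ∧ (∀ j, N j ≤ l) ∧
      ∑ j, N j = (K * l + t : ℝ) ∧
      (hat B χ).re = -∑ j, N j * Real.cos (2 * Real.pi * (j.valMinAbs.natAbs : ℝ) / m) ∧
      ∑ j, max 0 (N j + N (j + p) - l) ≤ (r1 : ℝ) ∧
      ∑ j, max 0 (N j + N (p - j) - l) ≤ (r2 : ℝ) := by
    have hsum : ∑ j, (lv φ Bᶜ j : ℝ) = (K * l + t : ℝ) := by
      have h := sum_lv φ Bᶜ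
      rw [hAz] at h
      exact_mod_cast h
    have hre0 := re_levels hm hstd hsurj B
    have hm2 : ∑ j, max 0 ((lv φ Bᶜ j : ℝ) + lv φ Bᶜ (j + φ x) - l) ≤ (r1 : ℝ) := by
      exact_mod_cast hm1
    have hp2 : ∑ j, max 0 ((lv φ Bᶜ j : ℝ) + lv φ Bᶜ (φ x - j) - l) ≤ (r2 : ℝ) := by
      exact_mod_cast hp1
    have hle : ∀ j, (lv φ Bᶜ j : ℝ) ≤ l := by
      intro j
      have h := lv_le φ hsurj Bᶜ j
      rw [← hl] at h
      exact_mod_cast h
    rcases hp with hp | hp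
    · refine ⟨fun j => (lv φ Bᶜ j : ℝ), fun j => by positivity, hle, hsum, hre0, ?_, ?_⟩
      · rw [hp] at hm2; exact hm2
      · rw [hp] at hp2; exact hp2
    · refine ⟨fun j => (lv φ Bᶜ (-j) : ℝ), fun j => by positivity, fun j => hle (-j),
        ?_, ?_, ?_, ?_⟩
      · rw [← hsum]
        exact Equiv.sum_comp (Equiv.neg (ZMod m)) (fun j => (lv φ Bᶜ j : ℝ))
      · rw [hre0]
        congr 1
        rw [← Equiv.sum_comp (Equiv.neg (ZMod m))]
        refine Finset.sum_congr rfl fun j _ => ?_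
        rw [Equiv.neg_apply, cosm_neg]
      · rw [hp] at hm2
        refine le_trans (le_of_eq ?_) hm2
        refine Finset.sum_equiv (Equiv.neg (ZMod m)) (by simp) fun j _ => ?_
        have e1 : -(j + p) = -j + -p := by ring
        show max 0 ((lv φ Bᶜ (-j) : ℝ) + lv φ Bᶜ (-(j + p)) - l) =
          max 0 ((lv φ Bᶜ (-j) : ℝ) + lv φ Bᶜ (-j + -p) - l)
        rw [e1]
      · rw [hp] at hp2
        refine le_trans (le_of_eq ?_) hp2
        refine Finset.sum_equiv (Equiv.neg (ZMod m)) (by simp) fun j _ => ?_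
        have e1 : -(p - j) = -p - -j := by ring
        show max 0 ((lv φ Bᶜ (-j) : ℝ) + lv φ Bᶜ (-(p - j)) - l) =
          max 0 ((lv φ Bᶜ (-j) : ℝ) + lv φ Bᶜ (-p - -j) - l)
        rw [e1]
  obtain ⟨N, hN0, hN1, hNs, hNre, hNm, hNp⟩ := hcase
  have hc := near_cert hD hdec hS hw N l hN0 hN1
  have hrr : (0:ℝ) ≤ r := by exact_mod_cast hr
  have hDr : (0:ℝ) < D := by exact_mod_cast hD
  have hAr : 2 * (D:ℝ) < 2 * a * K + r * K - 2 * S := by exact_mod_cast hA
  have hBr : 90 * (D:ℝ) ≤ 20 * a + r * u := by exact_mod_cast hB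
  have k1 : (D:ℝ) * (2 * ∑ j, max 0 (N j + N (j + p) - l) + ∑ j, max 0 (N j + N (p - j) - l)) ≤
      D * (2 * (r1:ℝ) + r2) := mul_le_mul_of_nonneg_left (by linarith) hDr.le
  have k2 : (D:ℝ) * (4 * (2 * (r1:ℝ) + r2)) ≤ D * (4 * l + 18 * t) :=
    mul_le_mul_of_nonneg_left hbud2 hDr.le
  have k3 : (r:ℝ) * (10 * K * l + u * t) ≤ r * (20 * (hat B χ).re) :=
    mul_le_mul_of_nonneg_left hre hrr
  rw [hNs] at hc
  have k4 : ∑ j, N j * Real.cos (2 * Real.pi * (j.valMinAbs.natAbs : ℝ) / m) = -(hat B χ).re := by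
    rw [hNre, neg_neg]
  rw [k4] at hc
  have k5 := mul_lt_mul_of_pos_right hAr hlr
  have k6 : 90 * (D:ℝ) * t ≤ (20 * a + r * u) * t := mul_le_mul_of_nonneg_right hBr (by positivity)
  nlinarith

end

section
variable {G : Type u} [AddCommGroup G] [Fintype G] [DecidableEq G]

/-- the cell `m = 9` on `(5/9, 2/3]` -/
theorem cell_9_wide {B : Finset G} {χ : AddChar G ℂ} {φ : G →+ ZMod 9}
    (hstd : Std χ φ) (hsurj : Function.Surjective φ) (hmax : IsMaxi B)
    (hbig : fG G B.card < GL.FF B)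
    (hfou : (Fintype.card G : ℝ) * (((GL.FF B : ℤ) : ℝ) + 3 * (B.card : ℝ) ^ 2) ≤
      4 * (B.card : ℝ) ^ 3 +
        4 * (hat B χ).re * ((Fintype.card G : ℝ) * B.card - (B.card : ℝ) ^ 2))
    {t : ℕ} (hb : B.card + t = 6 * Nat.card φ.ker) (ht : t < Nat.card φ.ker)
    (hslope : fG G (B.card + 1) ≤ fG G B.card + (4 * (Nat.card φ.ker : ℤ) + 5)) : False := by
  have hb' : B.card + t = 2 * 3 * Nat.card φ.ker := by omega
  have h0 : ∀ x ∉ B, (φ x = (0 : ZMod 9) ∨ φ x = -(0 : ZMod 9)) → False := by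
    intro x hx hp
    refine near_level_wide (by norm_num) hstd hsurj hmax hbig hfou (K := 3) (t := t) (by norm_num)
      (by norm_num) hb' ht.le hslope (D := 1000) (a := 935) (r := 5389) (S := 9632) (u := 14)
      (L := fun j => ([0, 0, 0, 908, 1000, 1000, 908, 0, 0] : List ℤ).getD j.val 0)
      (M := fun j => ([0, 0, 0, 0, 1000, 1000, 0, 0, 0] : List ℤ).getD j.val 0)
      (E := fun j => ([0, 0, 0, 0, 0, 0, 0, 0, 0] : List ℤ).getD j.val 0)
      (w := fun j => ([5389, 4127, 935, -2695, -5065] : List ℤ).getD j.valMinAbs.natAbs 0)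
      (by norm_num) (by norm_num) (by norm_num) (by norm_num) (by decide +kernel)
      (by decide +kernel) ?_ (by norm_num) (by norm_num) hx hp
    exact fun j => hw_of (by norm_num) (by norm_num) q9 (by decide +kernel) j
  have h1 : ∀ x ∉ B, (φ x = (1 : ZMod 9) ∨ φ x = -(1 : ZMod 9)) → False := by
    intro x hx hp
    refine near_level_wide (by norm_num) hstd hsurj hmax hbig hfou (K := 3) (t := t) (by norm_num)
      (by norm_num) hb' ht.le hslope (D := 1000) (a := 1773) (r := 4453) (S := 10958) (u := 14)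
      (L := fun j => ([0, 0, 500, 1000, 979, 1000, 0, 0, 0] : List ℤ).getD j.val 0)
      (M := fun j => ([0, 0, 0, 1000, 1000, 1000, 1000, 0, 0] : List ℤ).getD j.val 0)
      (E := fun j => ([0, 0, 0, 0, 0, 0, 0, 0, 0] : List ℤ).getD j.val 0)
      (w := fun j => ([4453, 3410, 773, -2227, -4185] : List ℤ).getD j.valMinAbs.natAbs 0)
      (by norm_num) (by norm_num) (by norm_num) (by norm_num) (by decide +kernel)
      (by decide +kernel) ?_ (by norm_num) (by norm_num) hx hp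
    exact fun j => hw_of (by norm_num) (by norm_num) q9 (by decide +kernel) j
  have hall : ∀ x, |(φ x).valMinAbs| ≤ ((1 : ℕ) : ℤ) → x ∈ B := by
    intro x hx
    by_contra hxB
    have hcase : ∀ z : ZMod 9, |z.valMinAbs| ≤ ((1 : ℕ) : ℤ) →
        (z = (0 : ZMod 9) ∨ z = -(0 : ZMod 9)) ∨ (z = (1 : ZMod 9) ∨ z = -(1 : ZMod 9)) := by
      decide +kernel
    rcases hcase _ hx with h | h
    · exact h0 x hxB h
    · exact h1 x hxB h
  have hlpos : 0 < Nat.card φ.ker := Nat.card_pos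
  have hn : Fintype.card G = 9 * Nat.card φ.ker := card_ker_mul φ hsurj
  have hBd : Bd G B.card (GL.FF B) := by
    have hd : ∀ d, d ∣ 9 → 3 ≤ d → d < 9 → 9 / d ≤ (d + 1) * ((2 * 1 + 1) / d) + 1 := by
      intro d h1 h2 h3
      interval_cases d <;> first | decide | (exfalso; revert h1; decide)
    refine lay_Bd (J := 1) (by norm_num) (by norm_num) hd φ hsurj hall (k := 3) (s := t)
      ?_ ?_ (by norm_num) (by norm_num) (by norm_num)
    · omega
    · omega
  rw [Bd_card_iff] at hBd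
  exact absurd hbig (not_lt.mpr hBd)

end

end Pool.Agent.T4
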