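import Mathlib
import Pool.Agent.Lib_helper93.T4.Hole
import Pool.Agent.Lib_helper26.SCH.Quo

/-!
# `MP_682720`, dense part, `β ≤ 14/25`: the hole `6 |φ x| ≤ m`
-/

set_option autoImplicit false

namespace Pool.Agent.T4

open Finset Pool.Agent.GL Pool.Agent.Lib_helper42.RS Pool.Agent.Lib_helper13.PL Pool.Agent.SCH

universe u

variable {G : Type u} [AddCommGroup G] [Fintype G] [DecidableEq G]

/-- general form: `γ` with `FF ≥ - 4 γ n²`, constants `D0`, `Θ` -/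
theorem hole_gen {B : Finset G} {m : ℕ} {χ : AddChar G ℂ} {φ : G →+ ZMod m} (ctx : Ctx B χ φ)
    (hodd : Odd (Fintype.card G)) (h45 : 9 * Fintype.card G < 20 * B.card)
    (h56 : 7 * B.card ≤ 4 * Fintype.card G) (hm5 : 5 ≤ m) (hn27 : 27 ≤ Fintype.card G)
    {γ D0 Θ : ℝ} (hf : -4 * γ * (Fintype.card G : ℝ) ^ 2 ≤ ((GL.FF B : ℤ) : ℝ))
    (hpos : 0 < 1 / 144 - 19 / 36 * ((B.card : ℝ) / Fintype.card G - 1 / 2) ^ 2 -
      ((B.card : ℝ) / Fintype.card G - 1 / 2) ^ 3 - γ)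
    (pos : ∀ N : ℝ, 0.24 ≤ N → N ≤ 0.4 →
      (Θ * (1 - 2.3 * ((B.card : ℝ) / Fintype.card G - 1 / 2) ^ 2) - 2 / 9 * 1.2109 - N) *
      (4 * N ^ 2 - (1 / 4 - ((B.card : ℝ) / Fintype.card G - 1 / 2) ^ 2)) <
      1.2109 * (1 / 144 - 19 / 36 * ((B.card : ℝ) / Fintype.card G - 1 / 2) ^ 2 -
      ((B.card : ℝ) / Fintype.card G - 1 / 2) ^ 3 - γ))
    (hD1 : 1.7 ≤ D0) (hD2 : D0 ≤ 1.82) (hΘ0 : 0 ≤ Θ) (hΘ1 : Θ ≤ 0.65)
    (hΘ : 3.8533 + 1.8467 * (2 / (Fintype.card G : ℝ)) ≤ 3.6668 * D0 * Θ) {x : G}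
    (hx6 : 6 * (φ x).valMinAbs.natAbs ≤ m)
    (hD : ∀ j : ℕ, m ≤ 3 * j → 2 * j ≤ m → D0 * (Real.pi / m) ≤
      (Real.sin (Real.pi * j / m) + Real.cos (Real.pi * ((φ x).valMinAbs.natAbs : ℝ) / m)) *
        Real.sin (Real.pi / m)) : x ∈ B := by
  by_contra hx
  have : NeZero m := ⟨by omega⟩
  have hn0 : (0 : ℝ) < Fintype.card G := by exact_mod_cast Fintype.card_pos
  have hm0 : (0 : ℝ) < m := by positivity
  have hpi := Real.pi_pos
  obtain ⟨hR, hg⟩ := setting ctx hodd h45 h56 hf hpos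
  have h0 := zero_mem ctx hm5 hn27 hR
  obtain ⟨w, hwB, hw⟩ := ctx.wrap
  obtain ⟨hw1, hw2, hw0⟩ := outer_facts hm5 hw
  have hmodd : m % 2 = 1 := by
    have hc := card_ker_mul φ ctx.surj
    rw [hc] at hodd
    exact Nat.odd_iff.mp (Nat.odd_mul.mp hodd).1
  have hex := exch ctx.maxi h0 hx hwB hw0
  have hexR : ((2 * dlt B w + dlt' B w : ℤ) : ℝ) ≤ ((2 * dlt B x + dlt' B x : ℤ) : ℝ) + 2 := by
    exact_mod_cast hex
  have hre0 : 0 ≤ (hat B χ).re := by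
    rw [le_div_iff₀ hn0] at hR
    nlinarith
  -- angles
  have hw2R : 2 * ((φ w).valMinAbs.natAbs : ℝ) ≤ m := by exact_mod_cast hw2
  have hw1R : (m : ℝ) ≤ 3 * ((φ w).valMinAbs.natAbs : ℝ) := by exact_mod_cast hw1
  have hx6R : 6 * ((φ x).valMinAbs.natAbs : ℝ) ≤ m := by exact_mod_cast hx6
  have a1 : Real.pi / 3 ≤ Real.pi * ((φ w).valMinAbs.natAbs : ℝ) / m := by
    rw [le_div_iff₀ hm0]; nlinarith
  have a2 : Real.pi * ((φ w).valMinAbs.natAbs : ℝ) / m ≤ Real.pi / 2 := by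
    rw [div_le_iff₀ hm0]; nlinarith
  have a3 : Real.pi * ((φ x).valMinAbs.natAbs : ℝ) / m ≤ Real.pi / 6 := by
    rw [div_le_iff₀ hm0]; nlinarith
  have key := pair_lin hm5 ctx.surj ctx.std B (x := x) (w := w) (κ := 2) (by norm_num) hexR
    h45.le h56 hre0 (D0 := D0)
    (by rw [abs_sin_ang_eq, cos_ang_eq]; exact hD _ hw1 hw2)
    (by rw [cos_ang_eq]; exact inner_ct hm5 hmodd hx6)
    (by rw [abs_sin_ang_eq, abs_cos_ang_eq]; exact outer_cw a1 a2)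
    (by rw [abs_sin_ang_eq, cos_ang_eq]; exact inner_st (by positivity) a3)
  obtain ⟨t1, t2⟩ := t_range (p := 4) (q := 7) (by norm_num) h45 h56
  have t2' : (B.card : ℝ) / Fintype.card G - 1 / 2 ≤ 1 / 14 := by
    norm_num at t2 ⊢; linarith
  have hN0 : 0 ≤ ‖hat B χ‖ / (Fintype.card G : ℝ) := by positivity
  have hR0 : 0 ≤ (hat B χ).re / (Fintype.card G : ℝ) := by positivity
  have key2 := red2 t1 t2' hD1 hD2 hΘ hN0 hR0 hΘ0 key
  exact concl t1 t2' (fun h1 h2 => pos _ h1 h2) key2 hg hpos hR hN0 hΘ0 hΘ1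

lemma FF_ge {B : Finset G} {q : ℕ} [NeZero q] (ψ : G →+ ZMod q) (hψ : Function.Surjective ψ)
    (hb : 3 * B.card < 2 * Fintype.card G) (hbig : fG G B.card < GL.FF B) :
    -(4 / 5) / (q : ℝ) ^ 2 * (Fintype.card G : ℝ) ^ 2 ≤ ((GL.FF B : ℤ) : ℝ) := by
  have h1 := fG_ge_q ψ hψ hb
  have h2 := card_ker_mul ψ hψ
  have hq : (0 : ℝ) < q := by have := NeZero.pos q; exact_mod_cast this
  have h3 : (Fintype.card G : ℝ) = q * (Nat.card ψ.ker : ℝ) := by exact_mod_cast h2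
  rw [h3]
  have h4 : -4 * (Nat.card ψ.ker : ℤ) ^ 2 ≤ 5 * GL.FF B := by linarith
  have h5 : -4 * (Nat.card ψ.ker : ℝ) ^ 2 ≤ 5 * ((GL.FF B : ℤ) : ℝ) := by exact_mod_cast h4
  have e : -(4 / 5) / (q : ℝ) ^ 2 * ((q : ℝ) * (Nat.card ψ.ker : ℝ)) ^ 2 =
      -(4 / 5) * (Nat.card ψ.ker : ℝ) ^ 2 := by field_simp
  rw [e]
  linarith

/-- **the hole for `9/20 < β ≤ 14/25`**, composite exponent `≥ 21` -/
theorem hole_low {B : Finset G} {m : ℕ} {χ : AddChar G ℂ} {φ : G →+ ZMod m} (ctx : Ctx B χ φ)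
    (hodd : Odd (Fintype.card G)) (h45 : 9 * Fintype.card G < 20 * B.card)
    (h56 : 25 * B.card ≤ 14 * Fintype.card G) {q : ℕ} [NeZero q] (ψ : G →+ ZMod q)
    (hψ : Function.Surjective ψ) (hq : 21 ≤ q) (hn : 3 * q ≤ Fintype.card G) (x : G)
    (hx6 : 6 * |(φ x).valMinAbs| ≤ m) : x ∈ B := by
  have hn0 : (0 : ℝ) < Fintype.card G := by exact_mod_cast Fintype.card_pos
  have hmodd : m % 2 = 1 := by
    have : NeZero m := ⟨by have := ctx.hm; omega⟩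
    have hc := card_ker_mul φ ctx.surj
    rw [hc] at hodd
    exact Nat.odd_iff.mp (Nat.odd_mul.mp hodd).1
  have hm5 : 5 ≤ m := by have := ctx.hm; omega
  have hf := FF_ge (B := B) ψ hψ (by omega) ctx.big
  have hqR : (21 : ℝ) ≤ q := by exact_mod_cast hq
  have hn63 : (63 : ℝ) ≤ Fintype.card G := by
    have : 63 ≤ Fintype.card G := by omega
    exact_mod_cast this
  have hf2 : -4 * 0.00046 * (Fintype.card G : ℝ) ^ 2 ≤ ((GL.FF B : ℤ) : ℝ) := by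
    refine le_trans ?_ hf
    apply mul_le_mul_of_nonneg_right _ (by positivity)
    rw [le_div_iff₀ (by positivity)]
    nlinarith
  obtain ⟨t1, t2⟩ := t_range (p := 14) (q := 25) (by norm_num) h45 h56
  have t2' : (B.card : ℝ) / Fintype.card G - 1 / 2 ≤ 3 / 50 := by
    norm_num at t2 ⊢; linarith
  set t := (B.card : ℝ) / Fintype.card G - 1 / 2 with ht
  have hpos : 0 < 1 / 144 - 19 / 36 * t ^ 2 - t ^ 3 - 0.00046 := by
    have h1 : t ^ 2 ≤ 0.0036 := by nlinarith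
    have h2 : t ^ 3 ≤ 0.06 * t ^ 2 := by nlinarith [sq_nonneg t]
    nlinarith
  have h2 : (((φ x).valMinAbs.natAbs : ℕ) : ℤ) = |(φ x).valMinAbs| := Int.natCast_natAbs _
  have hx6' : 6 * (φ x).valMinAbs.natAbs ≤ m := by omega
  refine hole_gen ctx hodd h45 (by omega) hm5 (by omega) (γ := 0.00046) (D0 := √3)
    (Θ := 0.61826) hf2 hpos (fun N h1 h2 => posA t1 t2' h1 h2) (by linarith [sqrt3_bounds.1])
    (by linarith [sqrt3_bounds.2]) (by norm_num) (by norm_num) ?_ hx6'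
    (fun j h1 h2 => sum_D hm5 hmodd hx6' h1 h2)
  have h3 := sqrt3_bounds.1
  have h4 : 2 / (Fintype.card G : ℝ) ≤ 2 / 63 := by
    apply div_le_div_of_nonneg_left (by norm_num) (by norm_num) hn63
  nlinarith

end Pool.Agent.T4
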