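import Mathlib
import Pool.Agent.Lib_helper93.T4.Low

/-!
# `MP_682720`, dense part, small exponents
-/

set_option autoImplicit false

namespace Pool.Agent.T4

open Finset Pool.Agent.GL Pool.Agent.Lib_helper42.RS Pool.Agent.Lib_helper13.PL Pool.Agent.SCH

universe u

/-- level `0`: the constant `1.82`, `m ≥ 7`, `3 ∤ m` -/
lemma sum_D0 {m j : ℕ} (hm7 : 7 ≤ m) (h3m : m % 3 ≠ 0) (hj : m ≤ 3 * j)
    (hj2 : 2 * j ≤ m) :
    1.82 * (Real.pi / m) ≤ (Real.sin (Real.pi * j / m) + 1) * Real.sin (Real.pi / m) := by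
  have hm0 : (0 : ℝ) < m := by have : 0 < m := by omega
                               exact_mod_cast this
  have hpi := Real.pi_pos
  have hpi2 := Real.pi_lt_d6
  have h3 := sqrt3_bounds
  have hx0 : 0 ≤ Real.pi / m := by positivity
  have hm7R : (7 : ℝ) ≤ m := by exact_mod_cast hm7
  have hj2R : 2 * (j : ℝ) ≤ m := by exact_mod_cast hj2
  have hjR : (m : ℝ) ≤ 3 * j := by exact_mod_cast hj
  have hθ2 : Real.pi * j / m ≤ Real.pi / 2 := by
    rw [div_le_iff₀ hm0]; nlinarith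
  have hs0 : 0 ≤ Real.sin (Real.pi / m) := by
    apply Real.sin_nonneg_of_nonneg_of_le_pi hx0
    rw [div_le_iff₀ hm0]; nlinarith
  have hx1 : Real.pi / m ≤ 0.4489 := by
    rw [div_le_iff₀ hm0]; nlinarith
  have h1 := angB hx0 (by linarith : Real.pi / m ≤ 0.6284)
  have h4 : Real.sin (Real.pi / 3 + Real.pi / m / 3) ≤ Real.sin (Real.pi * j / m) := by
    apply Real.sin_le_sin_of_le_of_le_pi_div_two (by linarith) hθ2
    have h6 : m + 1 ≤ 3 * j := by omega
    have h6R : (m : ℝ) + 1 ≤ 3 * j := by exact_mod_cast h6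
    have e : Real.pi / 3 + Real.pi / m / 3 = Real.pi * ((m + 1) / 3) / m := by
      field_simp
    rw [e]
    apply div_le_div_of_nonneg_right _ hm0.le
    apply mul_le_mul_of_nonneg_left _ hpi.le
    linarith
  have h5 := mul_le_mul_of_nonneg_right h4 hs0
  have h7 := sin_lb hx0 (by linarith)
  set x := Real.pi / m with hx
  have hx2 : x ^ 2 ≤ 0.20152 := by nlinarith
  have hx3 : x ^ 3 ≤ 0.09047 := by
    have : x ^ 3 = x ^ 2 * x := by ring
    rw [this]; nlinarith
  have h8 : 0.9616 * x ≤ x * (1 - x ^ 2 / 6 - 5 / 96 * x ^ 3) := by nlinarith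
  nlinarith

/-- `m = 5` -/
lemma sum_D5 {j : ℕ} (hj : 5 ≤ 3 * j) (hj2 : 2 * j ≤ 5) :
    1.757 * (Real.pi / (5 : ℕ)) ≤
      (Real.sin (Real.pi * j / (5 : ℕ)) + 1) * Real.sin (Real.pi / (5 : ℕ)) := by
  have hj' : j = 2 := by omega
  subst hj'
  have hpi := Real.pi_pos
  have hpi2 := Real.pi_lt_d6
  have h3 := sqrt3_bounds
  push_cast
  have hx0 : 0 ≤ Real.pi / 5 := by positivity
  have hx1 : Real.pi / 5 ≤ 0.62832 := by linarith
  have h1 := angB hx0 (by linarith : Real.pi / 5 ≤ 0.6284)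
  have e : Real.pi / 3 + Real.pi / 5 / 3 = Real.pi * 2 / 5 := by ring
  rw [e] at h1
  have h7 := sin_lb hx0 (by linarith)
  set x := Real.pi / 5 with hx
  have hx2 : x ^ 2 ≤ 0.3948 := by nlinarith
  have hx3 : x ^ 3 ≤ 0.2481 := by
    have : x ^ 3 = x ^ 2 * x := by ring
    rw [this]; nlinarith
  have h8 : 0.9212 * x ≤ x * (1 - x ^ 2 / 6 - 5 / 96 * x ^ 3) := by nlinarith
  nlinarith

/-- `m = 15` -/
lemma sum_D15 {i j : ℕ} (hi : 6 * i ≤ 15) (hj : 15 ≤ 3 * j) (hj2 : 2 * j ≤ 15) :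
    1.757 * (Real.pi / (15 : ℕ)) ≤
      (Real.sin (Real.pi * j / (15 : ℕ)) + Real.cos (Real.pi * i / (15 : ℕ))) *
        Real.sin (Real.pi / (15 : ℕ)) := by
  have hpi := Real.pi_pos
  have hpi2 := Real.pi_lt_d6
  have h3 := sqrt3_bounds
  push_cast
  have hiR : (i : ℝ) ≤ 2 := by
    have : i ≤ 2 := by omega
    exact_mod_cast this
  have hj2R : 2 * (j : ℝ) ≤ 15 := by exact_mod_cast hj2
  have hjR : (15 : ℝ) ≤ 3 * j := by exact_mod_cast hj
  have hx0 : 0 ≤ Real.pi / 15 := by positivity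
  have hx1 : Real.pi / 15 ≤ 0.20944 := by linarith
  have h7 := sin_lb hx0 (by linarith)
  have hs : √3 / 2 ≤ Real.sin (Real.pi * j / 15) := by
    apply outer_sw
    · rw [le_div_iff₀ (by norm_num)]; nlinarith
    · rw [div_le_iff₀ (by norm_num)]; nlinarith
  have hc1 : Real.cos (Real.pi * 2 / 15) ≤ Real.cos (Real.pi * i / 15) := by
    apply Real.cos_le_cos_of_nonneg_of_le_pi (by positivity) (by linarith)
    apply div_le_div_of_nonneg_right _ (by norm_num)
    apply mul_le_mul_of_nonneg_left hiR hpi.le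
  have hc2 := cos_lb (x := Real.pi * 2 / 15) (by positivity) (by linarith)
  have hc3 : 0.9105 ≤ Real.cos (Real.pi * 2 / 15) := by
    refine le_trans ?_ hc2
    set y := Real.pi * 2 / 15 with hy
    have hy0 : 0 ≤ y := by rw [hy]; positivity
    have hy1 : y ≤ 0.4189 := by rw [hy]; linarith
    have hy2 : y ^ 2 ≤ 0.17548 := by nlinarith
    have hy4 : y ^ 4 ≤ 0.0308 := by
      have : y ^ 4 = y ^ 2 * y ^ 2 := by ring
      rw [this]; nlinarith [sq_nonneg y]
    nlinarith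
  set x := Real.pi / 15 with hx
  have hx2 : x ^ 2 ≤ 0.04387 := by nlinarith
  have hx3 : x ^ 3 ≤ 0.0092 := by
    have : x ^ 3 = x ^ 2 * x := by ring
    rw [this]; nlinarith
  have h8 : 0.992 * x ≤ x * (1 - x ^ 2 / 6 - 5 / 96 * x ^ 3) := by nlinarith
  have h9 : 1.7765 ≤ Real.sin (Real.pi * j / 15) + Real.cos (Real.pi * i / 15) := by linarith
  have h10 : 0.992 * x ≤ Real.sin x := h8.trans h7
  nlinarith

/-- `m = 9` -/
lemma sum_D9 {i j : ℕ} (hi : 6 * i ≤ 9) (hj : 9 ≤ 3 * j) (hj2 : 2 * j ≤ 9) :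
    1.768 * (Real.pi / (9 : ℕ)) ≤
      (Real.sin (Real.pi * j / (9 : ℕ)) + Real.cos (Real.pi * i / (9 : ℕ))) *
        Real.sin (Real.pi / (9 : ℕ)) := by
  have hpi := Real.pi_pos
  have hpi2 := Real.pi_lt_d6
  have h3 := sqrt3_bounds
  push_cast
  have hiR : (i : ℝ) ≤ 1 := by
    have : i ≤ 1 := by omega
    exact_mod_cast this
  have hj2R : 2 * (j : ℝ) ≤ 9 := by exact_mod_cast hj2
  have hjR : (9 : ℝ) ≤ 3 * j := by exact_mod_cast hj
  have hs : √3 / 2 ≤ Real.sin (Real.pi * j / 9) := by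
    apply outer_sw
    · rw [le_div_iff₀ (by norm_num)]; nlinarith
    · rw [div_le_iff₀ (by norm_num)]; nlinarith
  have hc1 : Real.cos (Real.pi / 9) ≤ Real.cos (Real.pi * i / 9) := by
    apply Real.cos_le_cos_of_nonneg_of_le_pi (by positivity) (by linarith)
    apply div_le_div_of_nonneg_right _ (by norm_num)
    nlinarith
  -- `sin (π / 9)` from the triple angle
  have ht := Real.sin_three_mul (Real.pi / 9)
  have e : 3 * (Real.pi / 9) = Real.pi / 3 := by ring
  rw [e, Real.sin_pi_div_three] at ht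
  have hsc := Real.sin_sq_add_cos_sq (Real.pi / 9)
  have hs0 : 0 ≤ Real.sin (Real.pi / 9) :=
    Real.sin_nonneg_of_nonneg_of_le_pi (by positivity) (by linarith)
  have hc0 : 0 ≤ Real.cos (Real.pi / 9) :=
    Real.cos_nonneg_of_neg_pi_div_two_le_of_le (by linarith) (by linarith)
  have hs1 : Real.sin (Real.pi / 9) ≤ 1 / 2 := by
    rw [← Real.sin_pi_div_six]
    exact Real.sin_le_sin_of_le_of_le_pi_div_two (by linarith) (by linarith) (by linarith)
  set s := Real.sin (Real.pi / 9) with hsd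
  set c := Real.cos (Real.pi / 9) with hcd
  have hs2 : 0.3420 ≤ s := by
    by_contra hcon
    push Not at hcon
    have : 3 * s - 4 * s ^ 3 ≤ 3 * 0.3420 - 4 * 0.3420 ^ 3 := by
      nlinarith [mul_nonneg (show (0:ℝ) ≤ 0.3420 - s by linarith)
        (show (0:ℝ) ≤ 3 - 4 * (0.3420 ^ 2 + 0.3420 * s + s ^ 2) by nlinarith)]
    linarith
  have hs3 : s ≤ 0.34203 := by
    by_contra hcon
    push Not at hcon
    have : 3 * 0.34203 - 4 * 0.34203 ^ 3 ≤ 3 * s - 4 * s ^ 3 := by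
      nlinarith [mul_nonneg (show (0:ℝ) ≤ s - 0.34203 by linarith)
        (show (0:ℝ) ≤ 3 - 4 * (0.34203 ^ 2 + 0.34203 * s + s ^ 2) by nlinarith)]
    linarith
  have hc4 : 0.9396 ≤ c := by nlinarith
  have h9 : 1.8056 ≤ Real.sin (Real.pi * j / 9) + Real.cos (Real.pi * i / 9) := by linarith
  nlinarith

variable {G : Type u} [AddCommGroup G] [Fintype G] [DecidableEq G]

lemma m_odd {B : Finset G} {m : ℕ} {χ : AddChar G ℂ} {φ : G →+ ZMod m} (ctx : Ctx B χ φ)
    (hodd : Odd (Fintype.card G)) : m % 2 = 1 ∧ 5 ≤ m := by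
  have hmodd : m % 2 = 1 := by
    have : NeZero m := ⟨by have := ctx.hm; omega⟩
    have hc := card_ker_mul φ ctx.surj
    rw [hc] at hodd
    exact Nat.odd_iff.mp (Nat.odd_mul.mp hodd).1
  exact ⟨hmodd, by have := ctx.hm; omega⟩

/-- exponent `15` -/
theorem hole_15 {B : Finset G} {m : ℕ} {χ : AddChar G ℂ} {φ : G →+ ZMod m} (ctx : Ctx B χ φ)
    (hodd : Odd (Fintype.card G)) (h45 : 9 * Fintype.card G < 20 * B.card)
    (h56 : 25 * B.card ≤ 14 * Fintype.card G) (ψ : G →+ ZMod 15)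
    (hψ : Function.Surjective ψ) (hm : m = 5 ∨ m = 15) (hn : 45 ≤ Fintype.card G) (x : G)
    (hx6 : 6 * |(φ x).valMinAbs| ≤ m) : x ∈ B := by
  obtain ⟨hmodd, hm5⟩ := m_odd ctx hodd
  have hn0 : (0 : ℝ) < Fintype.card G := by exact_mod_cast Fintype.card_pos
  have hf := FF_ge (B := B) ψ hψ (by omega) ctx.big
  have hn45 : (45 : ℝ) ≤ Fintype.card G := by exact_mod_cast hn
  have hf2 : -4 * 0.0009 * (Fintype.card G : ℝ) ^ 2 ≤ ((GL.FF B : ℤ) : ℝ) := by
    refine le_trans ?_ hf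
    apply mul_le_mul_of_nonneg_right _ (by positivity)
    norm_num
  obtain ⟨t1, t2⟩ := t_range (p := 14) (q := 25) (by norm_num) h45 h56
  have t2' : (B.card : ℝ) / Fintype.card G - 1 / 2 ≤ 3 / 50 := by
    norm_num at t2 ⊢; linarith
  set t := (B.card : ℝ) / Fintype.card G - 1 / 2 with ht
  have hpos : 0 < 1 / 144 - 19 / 36 * t ^ 2 - t ^ 3 - 0.0009 := by
    have h1 : t ^ 2 ≤ 0.0036 := by nlinarith
    have h2 : t ^ 3 ≤ 0.06 * t ^ 2 := by nlinarith [sq_nonneg t]
    nlinarith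
  have h2 : (((φ x).valMinAbs.natAbs : ℕ) : ℤ) = |(φ x).valMinAbs| := Int.natCast_natAbs _
  have hx6' : 6 * (φ x).valMinAbs.natAbs ≤ m := by omega
  refine hole_gen ctx hodd h45 (by omega) hm5 (by omega) (γ := 0.0009) (D0 := 1.757)
    (Θ := 0.6110) hf2 hpos (fun N h1 _ => posB t1 t2' h1) (by norm_num)
    (by norm_num) (by norm_num) (by norm_num) ?_ hx6' ?_
  · have h4 : 2 / (Fintype.card G : ℝ) ≤ 2 / 45 := by
      apply div_le_div_of_nonneg_left (by norm_num) (by norm_num) hn45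
    nlinarith
  · rcases hm with rfl | rfl
    · intro j hj1 hj2
      have h0 : (φ x).valMinAbs.natAbs = 0 := by omega
      rw [h0]
      have := sum_D5 hj1 hj2
      simpa using this
    · intro j hj1 hj2
      exact sum_D15 hx6' hj1 hj2

/-- exponent `9` -/
theorem hole_9 {B : Finset G} {χ : AddChar G ℂ} {φ : G →+ ZMod 9} (ctx : Ctx B χ φ)
    (hodd : Odd (Fintype.card G)) (h45 : 9 * Fintype.card G < 20 * B.card)
    (h56 : 25 * B.card ≤ 14 * Fintype.card G) (hn : 27 ≤ Fintype.card G)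
    (hfG : fG G B.card ≤ 0) (x : G) (hx6 : 6 * |(φ x).valMinAbs| ≤ 9) : x ∈ B := by
  have hn0 : (0 : ℝ) < Fintype.card G := by exact_mod_cast Fintype.card_pos
  have hn27 : (27 : ℝ) ≤ Fintype.card G := by exact_mod_cast hn
  have hc := card_ker_mul φ ctx.surj
  set h := Nat.card φ.ker with hh
  have hh0 : 0 < h := Nat.card_pos
  -- `5 b ≤ 24 h`
  have h58 : 5 * B.card ≤ 24 * h := by
    by_contra hcon
    push Not at hcon
    rcases le_or_gt B.card (5 * h) with hle | hgt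
    · obtain ⟨s, hs⟩ : ∃ s, B.card + s = 5 * h := ⟨5 * h - B.card, by omega⟩
      have hw := wit_below φ ctx.surj (b := B.card) (j := 2) (s := s) (by rw [← hh]; omega)
        (by rw [← hh]; omega) (by norm_num)
      rw [← hh] at hw
      have h1 : 5 * s < h := by omega
      have h2 : (0 : ℤ) < (h - s) * (h - 5 * s) := by
        apply mul_pos
        · have : s < h := by omega
          have : (s : ℤ) < h := by exact_mod_cast this
          linarith
        · have : 5 * (s : ℤ) < h := by exact_mod_cast h1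
          linarith
      linarith
    · obtain ⟨s, hs⟩ : ∃ s, B.card = 5 * h + s := ⟨B.card - 5 * h, by omega⟩
      have hs2 : 25 * s ≤ h := by omega
      have hw := wit_above φ ctx.surj (b := B.card) (j := 2) (s := s) (by rw [← hh]; omega)
        (by rw [← hh]; omega) (by norm_num)
      rw [← hh] at hw
      have h2 : (0 : ℤ) < (h - s) * (h - 5 * s) := by
        apply mul_pos
        · have : s < h := by omega
          have : (s : ℤ) < h := by exact_mod_cast this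
          linarith
        · have : 5 * s < h := by omega
          have : 5 * (s : ℤ) < h := by exact_mod_cast this
          linarith
      linarith
  obtain ⟨s, hs⟩ : ∃ s, B.card + s = 5 * h := ⟨5 * h - B.card, by omega⟩
  have hsh : s ≤ h := by omega
  have hw := wit_below φ ctx.surj (b := B.card) (j := 2) (s := s) (by rw [← hh]; omega)
    (by rw [← hh]; omega) (by norm_num)
  rw [← hh] at hw
  have hbig := ctx.big
  have hF : (((h : ℤ) - s) * ((h : ℤ) - 5 * s) : ℤ) ≤ GL.FF B := by linarith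
  have hFR : ((h : ℝ) - s) * ((h : ℝ) - 5 * s) ≤ ((GL.FF B : ℤ) : ℝ) := by exact_mod_cast hF
  have hcR : (Fintype.card G : ℝ) = 9 * h := by exact_mod_cast hc
  have hsR : (B.card : ℝ) + s = 5 * h := by exact_mod_cast hs
  obtain ⟨t1, t2⟩ := t_range (p := 8) (q := 15) (by norm_num) h45 (by omega)
  have t2' : (B.card : ℝ) / Fintype.card G - 1 / 2 ≤ 1 / 30 := by
    norm_num at t2 ⊢; linarith
  set t := (B.card : ℝ) / Fintype.card G - 1 / 2 with ht
  have hbt : (B.card : ℝ) = (t + 1 / 2) * Fintype.card G := by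
    rw [ht]; field_simp; ring
  have hst : (s : ℝ) = (1 / 18 - t) * Fintype.card G := by
    rw [hcR] at hbt ⊢; linarith
  have hf2 : -4 * (-(5 / 4 * (t + 1 / 18) * (t - 1 / 30))) * (Fintype.card G : ℝ) ^ 2 ≤
      ((GL.FF B : ℤ) : ℝ) := by
    refine le_trans (le_of_eq ?_) hFR
    have : (h : ℝ) = Fintype.card G / 9 := by rw [hcR]; ring
    rw [this, hst]; ring
  have hpos : 0 < 1 / 144 - 19 / 36 * t ^ 2 - t ^ 3 - (-(5 / 4 * (t + 1 / 18) * (t - 1 / 30))) := by
    have h1 : t ^ 2 ≤ 0.0025 := by nlinarith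
    have h2 : t ^ 3 ≤ 0.0334 * t ^ 2 := by nlinarith [sq_nonneg t]
    nlinarith [sq_nonneg (t + 0.0111)]
  have h2 : (((φ x).valMinAbs.natAbs : ℕ) : ℤ) = |(φ x).valMinAbs| := Int.natCast_natAbs _
  have hx6' : 6 * (φ x).valMinAbs.natAbs ≤ 9 := by omega
  refine hole_gen ctx hodd h45 (by omega) (by norm_num) hn (D0 := 1.768)
    (Θ := 0.6155) hf2 hpos (fun N h1 _ => ?_) (by norm_num)
    (by norm_num) (by norm_num) (by norm_num) ?_ hx6' (fun j h1 h2 => sum_D9 hx6' h1 h2)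
  · have := pos9 t1 t2' h1
    rw [← ht]
    linarith
  · have h4 : 2 / (Fintype.card G : ℝ) ≤ 2 / 27 := by
      apply div_le_div_of_nonneg_left (by norm_num) (by norm_num) hn27
    nlinarith

/-- prime exponent `≥ 11`: the kernel is inside `B` -/
theorem ker_prime {B : Finset G} {m : ℕ} {χ : AddChar G ℂ} {φ : G →+ ZMod m} (ctx : Ctx B χ φ)
    (hodd : Odd (Fintype.card G)) (h45 : 9 * Fintype.card G < 20 * B.card)
    (h56 : 25 * B.card ≤ 14 * Fintype.card G) (hm11 : 11 ≤ m) (hm3 : m % 3 ≠ 0)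
    (hn : 121 ≤ Fintype.card G) (x : G) (hx0 : φ x = 0) : x ∈ B := by
  obtain ⟨hmodd, hm5⟩ := m_odd ctx hodd
  have : NeZero m := ⟨by omega⟩
  have hn0 : (0 : ℝ) < Fintype.card G := by exact_mod_cast Fintype.card_pos
  have hf := FF_ge (B := B) φ ctx.surj (by omega) ctx.big
  have hmR : (11 : ℝ) ≤ m := by exact_mod_cast hm11
  have hn121 : (121 : ℝ) ≤ Fintype.card G := by exact_mod_cast hn
  have hf2 : -4 * 0.0017 * (Fintype.card G : ℝ) ^ 2 ≤ ((GL.FF B : ℤ) : ℝ) := by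
    refine le_trans ?_ hf
    apply mul_le_mul_of_nonneg_right _ (by positivity)
    rw [le_div_iff₀ (by positivity)]
    nlinarith
  obtain ⟨t1, t2⟩ := t_range (p := 14) (q := 25) (by norm_num) h45 h56
  have t2' : (B.card : ℝ) / Fintype.card G - 1 / 2 ≤ 3 / 50 := by
    norm_num at t2 ⊢; linarith
  set t := (B.card : ℝ) / Fintype.card G - 1 / 2 with ht
  have hpos : 0 < 1 / 144 - 19 / 36 * t ^ 2 - t ^ 3 - 0.0017 := by
    have h1 : t ^ 2 ≤ 0.0036 := by nlinarith
    have h2 : t ^ 3 ≤ 0.06 * t ^ 2 := by nlinarith [sq_nonneg t]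
    nlinarith
  have h0 : (φ x).valMinAbs.natAbs = 0 := by rw [hx0]; simp
  refine hole_gen ctx hodd h45 (by omega) hm5 (by omega) (γ := 0.0017) (D0 := 1.82)
    (Θ := 0.5890) hf2 hpos (fun N h1 _ => posP t1 t2' h1) (by norm_num)
    (by norm_num) (by norm_num) (by norm_num) ?_ (by omega) ?_
  · have h4 : 2 / (Fintype.card G : ℝ) ≤ 2 / 121 := by
      apply div_le_div_of_nonneg_left (by norm_num) (by norm_num) hn121
    nlinarith
  · intro j hj1 hj2
    rw [h0]
    have := sum_D0 (by omega : 7 ≤ m) hm3 hj1 hj2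
    simpa using this

/-- `m = 7 = e`: the kernel is inside `B` for `9/20 < β ≤ 4/7` -/
theorem ker_7 {B : Finset G} {χ : AddChar G ℂ} {φ : G →+ ZMod 7} (ctx : Ctx B χ φ)
    (hodd : Odd (Fintype.card G)) (h45 : 9 * Fintype.card G < 20 * B.card)
    (h47 : 7 * B.card ≤ 4 * Fintype.card G)
    (hn : 49 ≤ Fintype.card G) (x : G) (hx0 : φ x = 0) : x ∈ B := by
  have hn0 : (0 : ℝ) < Fintype.card G := by exact_mod_cast Fintype.card_pos
  have hn49 : (49 : ℝ) ≤ Fintype.card G := by exact_mod_cast hn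
  have hc := card_ker_mul φ ctx.surj
  set h := Nat.card φ.ker with hh
  have hh0 : 0 < h := Nat.card_pos
  obtain ⟨s, hs⟩ : ∃ s, B.card = 3 * h + s := ⟨B.card - 3 * h, by omega⟩
  have hsh : s ≤ h := by omega
  have hw := wit_above φ ctx.surj (b := B.card) (j := 1) (s := s) (by rw [← hh]; omega)
    (by rw [← hh]; omega) (by norm_num)
  rw [← hh] at hw
  have hbig := ctx.big
  have hF : (((h : ℤ) - s) * ((h : ℤ) - 5 * s) : ℤ) ≤ GL.FF B := by linarith
  have hFR : ((h : ℝ) - s) * ((h : ℝ) - 5 * s) ≤ ((GL.FF B : ℤ) : ℝ) := by exact_mod_cast hF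
  have hcR : (Fintype.card G : ℝ) = 7 * h := by exact_mod_cast hc
  have hsR : (B.card : ℝ) = 3 * h + s := by exact_mod_cast hs
  obtain ⟨t1, t2⟩ := t_range (p := 4) (q := 7) (by norm_num) h45 h47
  have t2' : (B.card : ℝ) / Fintype.card G - 1 / 2 ≤ 1 / 14 := by
    norm_num at t2 ⊢; linarith
  set t := (B.card : ℝ) / Fintype.card G - 1 / 2 with ht
  have hbt : (B.card : ℝ) = (t + 1 / 2) * Fintype.card G := by
    rw [ht]; field_simp; ring
  have hst : (s : ℝ) = (t + 1 / 14) * Fintype.card G := by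
    rw [hcR] at hbt ⊢; linarith
  have hf2 : -4 * (5 / 4 * (1 / 14 - t) * (t + 3 / 70)) * (Fintype.card G : ℝ) ^ 2 ≤
      ((GL.FF B : ℤ) : ℝ) := by
    refine le_trans (le_of_eq ?_) hFR
    have : (h : ℝ) = Fintype.card G / 7 := by rw [hcR]; ring
    rw [this, hst]; ring
  have hpos : 0 < 1 / 144 - 19 / 36 * t ^ 2 - t ^ 3 - 5 / 4 * (1 / 14 - t) * (t + 3 / 70) := by
    have h1 : t ^ 2 ≤ 0.00511 := by nlinarith
    have h2 : t ^ 3 ≤ 0.0715 * t ^ 2 := by nlinarith [sq_nonneg t]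
    nlinarith [sq_nonneg (t - 0.0143)]
  have h0 : (φ x).valMinAbs.natAbs = 0 := by rw [hx0]; simp
  refine hole_gen ctx hodd h45 h47 (by norm_num) (by omega) (D0 := 1.82)
    (Θ := 0.5890) hf2 hpos (fun N h1 _ => pos7 t1 t2' h1) (by norm_num)
    (by norm_num) (by norm_num) (by norm_num) ?_ (by omega) ?_
  · have h4 : 2 / (Fintype.card G : ℝ) ≤ 2 / 49 := by
      apply div_le_div_of_nonneg_left (by norm_num) (by norm_num) hn49
    nlinarith
  · intro j hj1 hj2
    rw [h0]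
    have := sum_D0 (m := 7) (by norm_num) (by norm_num) hj1 hj2
    simpa using this

end Pool.Agent.T4
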