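import Mathlib
import Pool.Agent.Lib_helper93.T4.Ang

set_option autoImplicit false

namespace Pool.Agent.T4

open Real

/-- the pair `(c, ρ)` moved to the end of the segment -/
lemma lemM {w c ρ cb σ : ℝ} (hρ0 : 0 ≤ ρ) (hρc : ρ ≤ c) (hc : c ≤ cb) (hσ0 : 0 ≤ σ)
    (hσ : σ ≤ cb) (hS : σ ^ 2 = w - cb ^ 2) (hρ : ρ ^ 2 ≤ w - c ^ 2) :
    c ^ 3 + ρ * (w - c ^ 2) ≤ cb ^ 3 + σ ^ 3 := by
  have hc0 : 0 ≤ c := hρ0.trans hρc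
  have hW : w - c ^ 2 = σ ^ 2 + (cb ^ 2 - c ^ 2) := by rw [hS]; ring
  have hW0 : 0 ≤ w - c ^ 2 := (sq_nonneg ρ).trans hρ
  have hd : 0 ≤ cb - c := by linarith
  rcases le_total ρ σ with h | h
  · have h1 : ρ * (w - c ^ 2) ≤ σ * (w - c ^ 2) := mul_le_mul_of_nonneg_right h hW0
    have h2 : 0 ≤ (cb - c) * (cb ^ 2 + cb * c + c ^ 2 - σ * cb - σ * c) := by
      apply mul_nonneg hd
      have a1 : σ * cb ≤ cb * cb := mul_le_mul_of_nonneg_right hσ (by linarith)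
      have a2 : σ * c ≤ cb * c := mul_le_mul_of_nonneg_right hσ hc0
      nlinarith [sq_nonneg c]
    rw [hW] at h1 ⊢
    nlinarith
  · have h2 : 0 ≤ (cb - c) * (cb ^ 2 + cb * c + c ^ 2 - 3 / 2 * ρ * (cb + c)) := by
      apply mul_nonneg hd
      have a1 : ρ * cb ≤ c * cb := mul_le_mul_of_nonneg_right hρc (by linarith)
      have a2 : ρ * c ≤ c * c := mul_le_mul_of_nonneg_right hρc hc0
      nlinarith [mul_nonneg hd (by linarith : 0 ≤ cb + c / 2)]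
    have h3 : ρ ^ 2 - σ ^ 2 ≤ cb ^ 2 - c ^ 2 := by rw [hW] at hρ; linarith
    have h4 : ρ / 2 * (ρ ^ 2 - σ ^ 2) ≤ ρ / 2 * (cb ^ 2 - c ^ 2) :=
      mul_le_mul_of_nonneg_left h3 (by linarith)
    have h5 : 0 ≤ (ρ - σ) * (ρ ^ 2 / 2 + ρ * σ / 2 - σ ^ 2) := by
      apply mul_nonneg (by linarith)
      have a1 : σ * σ ≤ ρ * ρ := mul_le_mul h h hσ0 hρ0
      have a2 : σ * σ ≤ ρ * σ := mul_le_mul_of_nonneg_right h hσ0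
      nlinarith
    rw [hW]
    nlinarith

lemma lemM2 {w c ρ cb : ℝ} (hρ0 : 0 ≤ ρ) (hρc : ρ ≤ c) (hc : c ≤ cb) (hS0 : 0 ≤ w - cb ^ 2)
    (hS1 : w - cb ^ 2 ≤ cb ^ 2) (hρ : ρ ^ 2 ≤ w - c ^ 2) :
    c ^ 3 + ρ * (w - c ^ 2) ≤ cb ^ 3 + (5 * (w - cb ^ 2) ^ 2 + (w - cb ^ 2) / 20) := by
  have hcb : 0 ≤ cb := (hρ0.trans hρc).trans hc
  have h1 := lemM hρ0 hρc hc (Real.sqrt_nonneg (w - cb ^ 2))
    (by rw [Real.sqrt_le_left hcb]; exact hS1) (Real.sq_sqrt hS0) hρ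
  have h2 : √(w - cb ^ 2) ^ 3 ≤ 5 * (w - cb ^ 2) ^ 2 + (w - cb ^ 2) / 20 := by
    have e := Real.sq_sqrt hS0
    have e3 : √(w - cb ^ 2) ^ 3 = √(w - cb ^ 2) * (w - cb ^ 2) := by
      calc √(w - cb ^ 2) ^ 3 = √(w - cb ^ 2) * √(w - cb ^ 2) ^ 2 := by ring
        _ = _ := by rw [e]
    rw [e3]
    have h3 : √(w - cb ^ 2) ≤ 5 * (w - cb ^ 2) + 1 / 20 := by
      nlinarith [sq_nonneg (√(w - cb ^ 2) - 1 / 10)]
    have := mul_le_mul_of_nonneg_right h3 hS0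
    nlinarith
  linarith

/-- region A: `a ≤ .24`, small mass -/
lemma regA {a c ρ R1 R2 q m : ℝ} (hρ0 : 0 ≤ ρ) (hρc : ρ ≤ c) (hca : c ≤ a) (hR1 : R1 ≤ a)
    (hR2 : R2 ≤ c) (hP : a ^ 2 + c ^ 2 + ρ ^ 2 ≤ q) (hq : 0.1152 ≤ q) (ha : a ≤ 0.24)
    (hm : 0 ≤ m) (hPm : a ^ 2 + c ^ 2 ≤ 2 * m ^ 2) :
    a ^ 2 * R1 + c ^ 2 * R2 + ρ * (q - a ^ 2 - c ^ 2) ≤ m * q := by
  have hc0 : 0 ≤ c := hρ0.trans hρc
  have ha0 : 0 ≤ a := hc0.trans hca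
  have hS : 0 ≤ q - a ^ 2 - c ^ 2 := by nlinarith [sq_nonneg ρ]
  have h1 : a ^ 2 * R1 ≤ a ^ 2 * a := mul_le_mul_of_nonneg_left hR1 (sq_nonneg a)
  have h2 : c ^ 2 * R2 ≤ c ^ 2 * c := mul_le_mul_of_nonneg_left hR2 (sq_nonneg c)
  have h3 : ρ * (q - a ^ 2 - c ^ 2) ≤ c * (q - a ^ 2 - c ^ 2) := mul_le_mul_of_nonneg_right hρc hS
  have hw : 0 ≤ q - a ^ 2 := by nlinarith [sq_nonneg c]
  rcases le_total a m with h | h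
  · have h4 : c * (q - a ^ 2) ≤ a * (q - a ^ 2) := mul_le_mul_of_nonneg_right hca hw
    have h5 : a * q ≤ m * q := mul_le_mul_of_nonneg_right h (by linarith)
    nlinarith
  · have h4 : a + c ≤ 2 * m := by
      by_contra hc'
      push Not at hc'
      nlinarith [sq_nonneg (a - c), mul_self_nonneg (a + c)]
    have h5 : c * (q - a ^ 2) ≤ (2 * m - a) * (q - a ^ 2) :=
      mul_le_mul_of_nonneg_right (by linarith) hw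
    have h6 : 2 * a ^ 2 ≤ q := by nlinarith
    have h7 : (a - m) * (2 * a ^ 2 - q) ≤ 0 :=
      mul_nonpos_of_nonneg_of_nonpos (by linarith) (by linarith)
    nlinarith

/-- region B: `a ≤ .24`, large mass -/
lemma regB {a c ρ R1 R2 q r P0 Λ : ℝ} (hρ0 : 0 ≤ ρ) (hρc : ρ ≤ c) (hca : c ≤ a)
    (hac : a + c ≤ 0.452) (hR1 : R1 ≤ r) (hr : 2 / 9 ≤ r) (hRR : R1 + R2 ≤ 4 / 9)
    (hP : a ^ 2 + c ^ 2 + ρ ^ 2 ≤ q) (ha : a ≤ 0.24)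
    (hP0 : P0 ≤ a ^ 2 + c ^ 2) (hP01 : P0 < 0.102544)
    (hB0 : 2 / 9 * P0 + (r - 2 / 9) * (0.1152 - P0) +
      (10 / 3 * (q - P0) ^ 2 + 3 / 40 * (q - P0)) < Λ)
    (hB1 : 2 / 9 * 0.102544 + (r - 2 / 9) * (0.1152 - 0.102544) +
      (10 / 3 * (q - 0.102544) ^ 2 + 3 / 40 * (q - 0.102544)) < Λ) :
    a ^ 2 * R1 + c ^ 2 * R2 + ρ * (q - a ^ 2 - c ^ 2) < Λ := by
  have hc0 : 0 ≤ c := hρ0.trans hρc
  have ha0 : 0 ≤ a := hc0.trans hca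
  have hS : 0 ≤ q - a ^ 2 - c ^ 2 := by nlinarith [sq_nonneg ρ]
  have hPm : a ^ 2 + c ^ 2 ≤ 0.102544 := by
    rcases le_total a 0.212 with h | h
    · nlinarith
    · have h1 : c ^ 2 ≤ (0.452 - a) ^ 2 := pow_le_pow_left₀ hc0 (by linarith) 2
      nlinarith
  have hd : 0 ≤ a ^ 2 - c ^ 2 := by nlinarith
  have h1 : c ^ 2 * (R1 + R2) ≤ c ^ 2 * (4 / 9) := mul_le_mul_of_nonneg_left hRR (sq_nonneg c)
  have h2 : (a ^ 2 - c ^ 2) * R1 ≤ (a ^ 2 - c ^ 2) * r := mul_le_mul_of_nonneg_left hR1 hd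
  have h3 : (r - 2 / 9) * (a ^ 2 - c ^ 2) ≤ (r - 2 / 9) * (0.1152 - (a ^ 2 + c ^ 2)) := by
    apply mul_le_mul_of_nonneg_left _ (by linarith)
    nlinarith
  have h4 : ρ ≤ 10 / 3 * (q - a ^ 2 - c ^ 2) + 3 / 40 := by
    nlinarith [sq_nonneg (ρ - 0.15)]
  have h5 : ρ * (q - a ^ 2 - c ^ 2) ≤
      (10 / 3 * (q - a ^ 2 - c ^ 2) + 3 / 40) * (q - a ^ 2 - c ^ 2) :=
    mul_le_mul_of_nonneg_right h4 hS
  set P := a ^ 2 + c ^ 2 with hPd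
  have e1 : q - a ^ 2 - c ^ 2 = q - P := by rw [hPd]; ring
  rw [e1] at h5 ⊢
  have h6 : a ^ 2 * R1 + c ^ 2 * R2 + ρ * (q - P) ≤ 2 / 9 * P + (r - 2 / 9) * (0.1152 - P) +
      (10 / 3 * (q - P) ^ 2 + 3 / 40 * (q - P)) := by
    have e2 : a ^ 2 * R1 + c ^ 2 * R2 = c ^ 2 * (R1 + R2) + (a ^ 2 - c ^ 2) * R1 := by ring
    have e3 : c ^ 2 * (4 / 9) + (a ^ 2 - c ^ 2) * r =
        2 / 9 * (a ^ 2 + c ^ 2) + (r - 2 / 9) * (a ^ 2 - c ^ 2) := by ring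
    rw [← hPd] at e3
    nlinarith
  refine lt_of_le_of_lt h6 ?_
  have k0 : 0 ≤ P - P0 := by linarith
  have k1 : 0 ≤ 0.102544 - P := by linarith
  have hpos : 0 < 0.102544 - P0 := by linarith
  by_contra hcon
  push Not at hcon
  have l0 := mul_le_mul_of_nonneg_left hcon hpos.le
  have l1 := mul_le_mul_of_nonneg_left hB0.le k1
  have l2 := mul_le_mul_of_nonneg_left hB1.le k0
  have l3 : 0 ≤ (P - P0) * (0.102544 - P) * (0.102544 - P0) :=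
    mul_nonneg (mul_nonneg k0 k1) hpos.le
  rcases k1.lt_or_eq with h | h
  · have l1' := mul_lt_mul_of_pos_left hB0 h
    nlinarith
  · have : P = 0.102544 := by linarith
    rw [this] at hcon
    linarith

/-- region C: `.24 ≤ a ≤ n` -/
lemma regC {a c ρ R1 R2 q r n Λ : ℝ} (hρ0 : 0 ≤ ρ) (hρc : ρ ≤ c)
    (hac : a + c ≤ 0.452) (hR1 : R1 ≤ r) (hr0 : 0.2 ≤ r) (hR2 : R2 ≤ c)
    (hP : a ^ 2 + c ^ 2 + ρ ^ 2 ≤ q) (hq1 : q ≤ 0.13)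
    (ha : 0.24 ≤ a) (han : a ≤ n) (hn0 : 0.3 ≤ n) (hn : n ≤ 0.331)
    (hSα : 0 ≤ q - 0.24 ^ 2 - 0.212 ^ 2)
    (hSn : 0 ≤ q - n ^ 2 - (0.452 - n) ^ 2) (hSn1 : q - n ^ 2 - (0.452 - n) ^ 2 ≤ 0.003)
    (hQ0 : 0.24 ^ 2 * r + 0.212 ^ 3 + (5 * (q - 0.24 ^ 2 - 0.212 ^ 2) ^ 2 +
      (q - 0.24 ^ 2 - 0.212 ^ 2) / 20) < Λ)
    (hQn : n ^ 2 * r + (0.452 - n) ^ 3 + (5 * (q - n ^ 2 - (0.452 - n) ^ 2) ^ 2 +
      (q - n ^ 2 - (0.452 - n) ^ 2) / 20) < Λ) :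
    a ^ 2 * R1 + c ^ 2 * R2 + ρ * (q - a ^ 2 - c ^ 2) < Λ := by
  have hc0 : 0 ≤ c := hρ0.trans hρc
  have h1 : a ^ 2 * R1 ≤ a ^ 2 * r := mul_le_mul_of_nonneg_left hR1 (sq_nonneg a)
  have h2 : c ^ 2 * R2 ≤ c ^ 2 * c := mul_le_mul_of_nonneg_left hR2 (sq_nonneg c)
  have ka : 0 ≤ a - 0.24 := by linarith
  have kn : 0 ≤ n - a := by linarith
  have kk : 0 ≤ (a - 0.24) * (n - a) := mul_nonneg ka kn
  have hpos : 0 < n - 0.24 := by linarith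
  have hS0 : 0 ≤ (q - a ^ 2) - (0.452 - a) ^ 2 := by
    have e : (n - 0.24) * ((q - a ^ 2) - (0.452 - a) ^ 2) =
        (n - a) * (q - 0.24 ^ 2 - 0.212 ^ 2) + (a - 0.24) * (q - n ^ 2 - (0.452 - n) ^ 2) +
        2 * ((a - 0.24) * (n - a)) * (n - 0.24) := by ring
    have e2 : 0 ≤ (n - 0.24) * ((q - a ^ 2) - (0.452 - a) ^ 2) := by
      rw [e]
      have := mul_nonneg kn hSα
      have := mul_nonneg ka hSn
      have := mul_nonneg kk hpos.le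
      linarith
    exact nonneg_of_mul_nonneg_right e2 hpos
  have hS1 : (q - a ^ 2) - (0.452 - a) ^ 2 ≤ (0.452 - a) ^ 2 := by
    nlinarith [sq_nonneg (a - 0.3013)]
  have h3 := lemM2 (w := q - a ^ 2) (c := c) (ρ := ρ) (cb := 0.452 - a) hρ0 hρc (by linarith)
    hS0 hS1 (by linarith)
  -- the convex function of `a`
  have hQ : a ^ 2 * r + (0.452 - a) ^ 3 + (5 * (q - a ^ 2 - (0.452 - a) ^ 2) ^ 2 +
      (q - a ^ 2 - (0.452 - a) ^ 2) / 20) < Λ := by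
    have hT : 0 ≤ r + (3 * 0.452 - 0.24 - a - n) - 1 / 10 +
        5 * (-2 * ((q - 0.24 ^ 2 - 0.212 ^ 2) + (q - n ^ 2 - (0.452 - n) ^ 2)) +
          (2 * (0.24 + a) - 0.904) * (2 * (a + n) - 0.904)) := by
      have t1 : 0 ≤ (2 * (0.24 + a) - 0.904) * (2 * (a + n) - 0.904) :=
        mul_nonneg (by linarith) (by linarith)
      nlinarith
    have hid : (n - a) * (0.24 ^ 2 * r + 0.212 ^ 3 + (5 * (q - 0.24 ^ 2 - 0.212 ^ 2) ^ 2 +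
        (q - 0.24 ^ 2 - 0.212 ^ 2) / 20)) + (a - 0.24) * (n ^ 2 * r + (0.452 - n) ^ 3 +
        (5 * (q - n ^ 2 - (0.452 - n) ^ 2) ^ 2 + (q - n ^ 2 - (0.452 - n) ^ 2) / 20)) -
        (n - 0.24) * (a ^ 2 * r + (0.452 - a) ^ 3 + (5 * (q - a ^ 2 - (0.452 - a) ^ 2) ^ 2 +
        (q - a ^ 2 - (0.452 - a) ^ 2) / 20)) =
        (n - 0.24) * ((a - 0.24) * (n - a) * (r + (3 * 0.452 - 0.24 - a - n) - 1 / 10 +
        5 * (-2 * ((q - 0.24 ^ 2 - 0.212 ^ 2) + (q - n ^ 2 - (0.452 - n) ^ 2)) +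
          (2 * (0.24 + a) - 0.904) * (2 * (a + n) - 0.904)))) := by ring
    have hT2 := mul_nonneg hpos.le (mul_nonneg kk hT)
    by_contra hcon
    push Not at hcon
    have l0 := mul_le_mul_of_nonneg_left hcon hpos.le
    rcases kn.lt_or_eq with h | h
    · have l1 := mul_lt_mul_of_pos_left hQ0 h
      have l2 := mul_le_mul_of_nonneg_left hQn.le ka
      rw [← hid] at hT2
      have l3 : (n - a) * Λ + (a - 0.24) * Λ = (n - 0.24) * Λ := by ring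
      linarith
    · have : a = n := by linarith
      rw [this] at hcon
      linarith
  have e1 : c ^ 2 * c = c ^ 3 := by ring
  have e2 : ρ * (q - a ^ 2 - c ^ 2) = ρ * ((q - a ^ 2) - c ^ 2) := by ring
  rw [e2]
  have e3 : a ^ 2 * r + ((0.452 - a) ^ 3 + (5 * ((q - a ^ 2) - (0.452 - a) ^ 2) ^ 2 +
      ((q - a ^ 2) - (0.452 - a) ^ 2) / 20)) = a ^ 2 * r + (0.452 - a) ^ 3 +
      (5 * (q - a ^ 2 - (0.452 - a) ^ 2) ^ 2 + (q - a ^ 2 - (0.452 - a) ^ 2) / 20) := by ring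
  linarith

/-- second alternative -/
lemma regD {a c ρ R1 R2 q g Λ : ℝ} (hρ0 : 0 ≤ ρ) (hρc : ρ ≤ c)
    (hac : a + c ≤ 0.452) (hR1 : R1 ≤ g) (hg : 0.152 ≤ g) (hR2 : R2 ≤ c)
    (hP : a ^ 2 + c ^ 2 + ρ ^ 2 ≤ q) (ha : 0.3 ≤ a) (ha3 : a ≤ 1 / 3)
    (hD : 1 / 9 * (g - 0.152) + 0.152 * q < Λ) :
    a ^ 2 * R1 + c ^ 2 * R2 + ρ * (q - a ^ 2 - c ^ 2) < Λ := by
  have hc0 : 0 ≤ c := hρ0.trans hρc
  have hS : 0 ≤ q - a ^ 2 - c ^ 2 := by nlinarith [sq_nonneg ρ]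
  have h1 : a ^ 2 * R1 ≤ a ^ 2 * g := mul_le_mul_of_nonneg_left hR1 (sq_nonneg a)
  have h2 : c ^ 2 * R2 ≤ c ^ 2 * c := mul_le_mul_of_nonneg_left hR2 (sq_nonneg c)
  have h3 : ρ * (q - a ^ 2 - c ^ 2) ≤ c * (q - a ^ 2 - c ^ 2) := mul_le_mul_of_nonneg_right hρc hS
  have hw : 0 ≤ q - a ^ 2 := by nlinarith [sq_nonneg c]
  have h4 : c * (q - a ^ 2) ≤ 0.152 * (q - a ^ 2) := mul_le_mul_of_nonneg_right (by linarith) hw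
  have h5 : a ^ 2 ≤ 1 / 9 := by nlinarith
  have h6 : a ^ 2 * (g - 0.152) ≤ 1 / 9 * (g - 0.152) :=
    mul_le_mul_of_nonneg_right h5 (by linarith)
  nlinarith

end Pool.Agent.T4
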