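import Mathlib
import Pool.Agent.Lib_helper93.T4.RA

set_option autoImplicit false

namespace Pool.Agent.T4

open Real

lemma trigU {δ : ℝ} (h0 : 0.06 ≤ δ) (h1 : δ ≤ 0.1182) :
    sin (π * (1 / 2 + δ)) ≤ 0.99975 - 4.8456 * δ ^ 2 := by
  have p1 := pi_gt_d6
  have p2 := pi_lt_d6
  have e : sin (π * (1 / 2 + δ)) = cos (π * δ) := by
    rw [← cos_sub_pi_div_two]; congr 1; ring
  rw [e]
  have x0 : 0 ≤ π * δ := by positivity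
  have x1 : π * δ ≤ 1 := by nlinarith
  have h := cos_ub x0 x1
  have q1 : 9.8696 ≤ π ^ 2 := by nlinarith
  have q2 : π ^ 2 ≤ 9.86961 := by nlinarith
  have q3 : π ^ 4 ≤ 97.4093 := by
    have : π ^ 4 = π ^ 2 * π ^ 2 := by ring
    rw [this]; nlinarith
  have z0 : 0.0036 ≤ δ ^ 2 := by nlinarith
  have z1 : δ ^ 2 ≤ 0.01397124 := by nlinarith
  have z2 : δ ^ 4 ≤ 0.01757124 * δ ^ 2 - 0.0000502964 := by
    have : δ ^ 4 = δ ^ 2 * δ ^ 2 := by ring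
    rw [this]
    nlinarith [mul_nonneg (sub_nonneg.mpr z0) (sub_nonneg.mpr z1)]
  have a1 : 9.8696 * δ ^ 2 ≤ (π * δ) ^ 2 := by
    rw [mul_pow]; exact mul_le_mul_of_nonneg_right q1 (sq_nonneg δ)
  have a2 : (π * δ) ^ 4 ≤ 97.4093 * δ ^ 4 := by
    rw [mul_pow]; exact mul_le_mul_of_nonneg_right q3 (by positivity)
  nlinarith

lemma trigV {η : ℝ} (h0 : 0 ≤ η) (h1 : η ≤ 0.0327) :
    cos (π / 4 + π * η) ≤
      0.707107 * (1 - 3.14159 * η - 4.93479 * η ^ 2 + 5.504 * η ^ 3) := by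
  have p1 := pi_gt_d6
  have p2 := pi_lt_d6
  have y0 : 0 ≤ π * η := by positivity
  have y1 : π * η ≤ 0.1028 := by nlinarith
  have hc := cos_ub y0 (by linarith)
  have hs := sin_lb y0 (by linarith)
  have hs2 : √2 ≤ 1.414214 := by
    rw [Real.sqrt_le_left (by norm_num)]; norm_num
  rw [cos_add, cos_pi_div_four, sin_pi_div_four]
  set y := π * η with hy
  have q1 : 9.86959 ≤ π ^ 2 := by nlinarith
  have q3 : π ^ 3 ≤ 31.0064 := by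
    have : π ^ 3 = π ^ 2 * π := by ring
    rw [this]; nlinarith [mul_pos pi_pos pi_pos]
  have a1 : 3.14159 * η ≤ y := by rw [hy]; exact mul_le_mul_of_nonneg_right (by linarith) h0
  have a2 : 9.86959 * η ^ 2 ≤ y ^ 2 := by
    rw [hy, mul_pow]; exact mul_le_mul_of_nonneg_right q1 (sq_nonneg η)
  have a3 : y ^ 3 ≤ 31.0064 * η ^ 3 := by
    rw [hy, mul_pow]; exact mul_le_mul_of_nonneg_right q3 (by positivity)
  have a4 : y ^ 4 ≤ 0.1028 * y ^ 3 := by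
    have : y ^ 4 = y * y ^ 3 := by ring
    rw [this]; exact mul_le_mul_of_nonneg_right y1 (by positivity)
  have hd : cos y - sin y ≤ 1 - 3.14159 * η - 4.93479 * η ^ 2 + 5.504 * η ^ 3 := by
    have b : cos y - sin y ≤ 1 - y - y ^ 2 / 2 + y ^ 3 / 6 + 5 / 48 * y ^ 4 := by
      have e : y * (1 - y ^ 2 / 6 - 5 / 96 * y ^ 3) = y - y ^ 3 / 6 - 5 / 96 * y ^ 4 := by ring
      rw [e] at hs
      linarith
    have : 0 ≤ η ^ 3 := by positivity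
    linarith [sq_nonneg η]
  have hd0 : 0 ≤ 1 - 3.14159 * η - 4.93479 * η ^ 2 + 5.504 * η ^ 3 := by
    have e2 : η ^ 2 ≤ 0.0327 * η := by nlinarith
    have : 0 ≤ η ^ 3 := by positivity
    linarith
  have hs0 : 0 ≤ √2 := Real.sqrt_nonneg 2
  calc √2 / 2 * cos y - √2 / 2 * sin y = √2 / 2 * (cos y - sin y) := by ring
    _ ≤ √2 / 2 * (1 - 3.14159 * η - 4.93479 * η ^ 2 + 5.504 * η ^ 3) :=
        mul_le_mul_of_nonneg_left hd (by positivity)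
    _ ≤ 0.707107 * (1 - 3.14159 * η - 4.93479 * η ^ 2 + 5.504 * η ^ 3) :=
        mul_le_mul_of_nonneg_right (by linarith) hd0

/-- the bound of `r` in terms of polynomials -/
lemma r_poly {δ s r : ℝ} (h0 : 0.06 ≤ δ) (h1 : δ ≤ 0.1182) (hη0 : 0 ≤ δ / 2 - s / 12)
    (hη1 : δ / 2 - s / 12 ≤ 0.0327)
    (hr : 2.5243 * r ≤ 3 / π * sin (π * (1 / 2 + δ)) *
      cos (π * ((1 / 2 + δ) / 2 - s / 12))) :
    r ≤ 0.378296 * ((0.99975 - 4.8456 * δ ^ 2) * (0.707107 * (1 - 3.14159 * (δ / 2 - s / 12) -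
      4.93479 * (δ / 2 - s / 12) ^ 2 + 5.504 * (δ / 2 - s / 12) ^ 3))) := by
  have p1 := pi_gt_d6
  have p2 := pi_lt_d6
  have hU := trigU h0 h1
  have hV := trigV hη0 hη1
  have e : π * ((1 / 2 + δ) / 2 - s / 12) = π / 4 + π * (δ / 2 - s / 12) := by ring
  rw [e] at hr
  set η := δ / 2 - s / 12 with hη
  have hu0 : 0 ≤ sin (π * (1 / 2 + δ)) := by
    apply sin_nonneg_of_nonneg_of_le_pi
    · have : 0 ≤ 1 / 2 + δ := by linarith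
      positivity
    · nlinarith
  have hv0 : 0 ≤ cos (π / 4 + π * η) := by
    have : 0 ≤ π * η := by positivity
    apply cos_nonneg_of_mem_Icc
    constructor
    · linarith
    · nlinarith
  have hU0 : 0 ≤ 0.99975 - 4.8456 * δ ^ 2 := by nlinarith
  have hUV : sin (π * (1 / 2 + δ)) * cos (π / 4 + π * η) ≤ (0.99975 - 4.8456 * δ ^ 2) *
      (0.707107 * (1 - 3.14159 * η - 4.93479 * η ^ 2 + 5.504 * η ^ 3)) :=
    mul_le_mul hU hV hv0 hU0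
  have h3 : 3 / π ≤ 0.95493 := by
    rw [div_le_iff₀ pi_pos]; linarith
  have hprod : 0 ≤ sin (π * (1 / 2 + δ)) * cos (π / 4 + π * η) := mul_nonneg hu0 hv0
  have h4 : 3 / π * sin (π * (1 / 2 + δ)) * cos (π / 4 + π * η) ≤
      0.95493 * (sin (π * (1 / 2 + δ)) * cos (π / 4 + π * η)) := by
    calc _ = 3 / π * (sin (π * (1 / 2 + δ)) * cos (π / 4 + π * η)) := by ring
      _ ≤ _ := mul_le_mul_of_nonneg_right h3 hprod
  have h5 := hr.trans h4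
  set X := sin (π * (1 / 2 + δ)) * cos (π / 4 + π * η)
  set Y := (0.99975 - 4.8456 * δ ^ 2) *
      (0.707107 * (1 - 3.14159 * η - 4.93479 * η ^ 2 + 5.504 * η ^ 3))
  have hY : 0 ≤ Y := hprod.trans hUV
  have h6 : 2.5243 * r ≤ 0.95493 * Y := h5.trans (by linarith)
  have h7 : 0.95493 * Y ≤ 2.5243 * (0.378296 * Y) := by nlinarith
  linarith

lemma n_poly {δ N : ℝ} (h0 : 0.06 ≤ δ) (h1 : δ ≤ 0.1182)
    (hN : N ≤ 1.0344 * sin (π * (1 / 2 + δ)) / π) : N ≤ 0.32918 - 1.5954 * δ ^ 2 := by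
  have p1 := pi_gt_d6
  have hU := trigU h0 h1
  have hU0 : 0 ≤ 0.99975 - 4.8456 * δ ^ 2 := by nlinarith
  refine hN.trans ?_
  rw [div_le_iff₀ pi_pos]
  have : 0 ≤ 0.32918 - 1.5954 * δ ^ 2 := by nlinarith
  nlinarith [mul_le_mul_of_nonneg_left p1.le this]

lemma rp1 {δ : ℝ} (h0 : 0.06 ≤ δ) (h1 : δ ≤ 0.1182) :
    0.378296 * ((0.99975 - 4.8456 * δ ^ 2) * (0.707107 * (1 - 3.14159 * (δ / 2 - 0.3175 / 12) -
      4.93479 * (δ / 2 - 0.3175 / 12) ^ 2 + 5.504 * (δ / 2 - 0.3175 / 12) ^ 3))) ≤ (0.290351 - 0.4397 * δ - 1.1348 * δ ^ 2) := by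
  have hA : 0 ≤ δ - 0.06 := by linarith
  have hB : 0 ≤ 0.1182 - δ := by linarith
  linarith [mul_nonneg (pow_nonneg hA 0) (pow_nonneg hB 5),
      mul_nonneg (pow_nonneg hA 1) (pow_nonneg hB 4),
      mul_nonneg (pow_nonneg hA 2) (pow_nonneg hB 3),
      mul_nonneg (pow_nonneg hA 3) (pow_nonneg hB 2),
      mul_nonneg (pow_nonneg hA 4) (pow_nonneg hB 1),
      mul_nonneg (pow_nonneg hA 5) (pow_nonneg hB 0)]

lemma pA1 {δ : ℝ} (h0 : 0.06 ≤ δ) (h1 : δ ≤ 0.1182) :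
    0.2105 * (1 / 8 - δ ^ 2 / 2) < ((0.25 - 0.00182) / 8 - 0.375 * δ ^ 2 - 0.5 * δ ^ 3) := by
  have hA : 0 ≤ δ - 0.06 := by linarith
  have hB : 0 ≤ 0.1182 - δ := by linarith
  linarith [mul_nonneg (pow_nonneg hA 0) (pow_nonneg hB 3),
      mul_nonneg (pow_nonneg hA 1) (pow_nonneg hB 2),
      mul_nonneg (pow_nonneg hA 2) (pow_nonneg hB 1),
      mul_nonneg (pow_nonneg hA 3) (pow_nonneg hB 0)]

lemma pB0_1 {δ : ℝ} (h0 : 0.06 ≤ δ) (h1 : δ ≤ 0.1182) :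
    2 / 9 * (177241/2000000) + ((0.290351 - 0.4397 * δ - 1.1348 * δ ^ 2) - 2 / 9) * (0.1152 - 177241/2000000) +
      (10 / 3 * ((1 / 8 - δ ^ 2 / 2) - 177241/2000000) ^ 2 + 3 / 40 * ((1 / 8 - δ ^ 2 / 2) - 177241/2000000)) < ((0.25 - 0.00182) / 8 - 0.375 * δ ^ 2 - 0.5 * δ ^ 3) := by
  have hA : 0 ≤ δ - 0.06 := by linarith
  have hB : 0 ≤ 0.1182 - δ := by linarith
  linarith [mul_nonneg (pow_nonneg hA 0) (pow_nonneg hB 4),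
      mul_nonneg (pow_nonneg hA 1) (pow_nonneg hB 3),
      mul_nonneg (pow_nonneg hA 2) (pow_nonneg hB 2),
      mul_nonneg (pow_nonneg hA 3) (pow_nonneg hB 1),
      mul_nonneg (pow_nonneg hA 4) (pow_nonneg hB 0)]

lemma pB1_1 {δ : ℝ} (h0 : 0.06 ≤ δ) (h1 : δ ≤ 0.1182) :
    2 / 9 * 0.102544 + ((0.290351 - 0.4397 * δ - 1.1348 * δ ^ 2) - 2 / 9) * (0.1152 - 0.102544) +
      (10 / 3 * ((1 / 8 - δ ^ 2 / 2) - 0.102544) ^ 2 + 3 / 40 * ((1 / 8 - δ ^ 2 / 2) - 0.102544)) < ((0.25 - 0.00182) / 8 - 0.375 * δ ^ 2 - 0.5 * δ ^ 3) := by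
  have hA : 0 ≤ δ - 0.06 := by linarith
  have hB : 0 ≤ 0.1182 - δ := by linarith
  linarith [mul_nonneg (pow_nonneg hA 0) (pow_nonneg hB 4),
      mul_nonneg (pow_nonneg hA 1) (pow_nonneg hB 3),
      mul_nonneg (pow_nonneg hA 2) (pow_nonneg hB 2),
      mul_nonneg (pow_nonneg hA 3) (pow_nonneg hB 1),
      mul_nonneg (pow_nonneg hA 4) (pow_nonneg hB 0)]

lemma pI1_1 {δ : ℝ} (h0 : 0.06 ≤ δ) (h1 : δ ≤ 0.1182) :
    0.24 ^ 2 * (0.290351 - 0.4397 * δ - 1.1348 * δ ^ 2) + 0.212 ^ 3 + (5 * ((1 / 8 - δ ^ 2 / 2) - 0.24 ^ 2 - 0.212 ^ 2) ^ 2 +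
      ((1 / 8 - δ ^ 2 / 2) - 0.24 ^ 2 - 0.212 ^ 2) / 20) < ((0.25 - 0.00182) / 8 - 0.375 * δ ^ 2 - 0.5 * δ ^ 3) := by
  have hA : 0 ≤ δ - 0.06 := by linarith
  have hB : 0 ≤ 0.1182 - δ := by linarith
  linarith [mul_nonneg (pow_nonneg hA 0) (pow_nonneg hB 4),
      mul_nonneg (pow_nonneg hA 1) (pow_nonneg hB 3),
      mul_nonneg (pow_nonneg hA 2) (pow_nonneg hB 2),
      mul_nonneg (pow_nonneg hA 3) (pow_nonneg hB 1),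
      mul_nonneg (pow_nonneg hA 4) (pow_nonneg hB 0)]

lemma pI2_1 {δ : ℝ} (h0 : 0.06 ≤ δ) (h1 : δ ≤ 0.1182) :
    (0.32918 - 1.5954 * δ ^ 2) ^ 2 * (0.290351 - 0.4397 * δ - 1.1348 * δ ^ 2) + (0.452 - (0.32918 - 1.5954 * δ ^ 2)) ^ 3 +
      (5 * ((1 / 8 - δ ^ 2 / 2) - (0.32918 - 1.5954 * δ ^ 2) ^ 2 - (0.452 - (0.32918 - 1.5954 * δ ^ 2)) ^ 2) ^ 2 +
      ((1 / 8 - δ ^ 2 / 2) - (0.32918 - 1.5954 * δ ^ 2) ^ 2 - (0.452 - (0.32918 - 1.5954 * δ ^ 2)) ^ 2) / 20) < ((0.25 - 0.00182) / 8 - 0.375 * δ ^ 2 - 0.5 * δ ^ 3) := by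
  have hA : 0 ≤ δ - 0.06 := by linarith
  have hB : 0 ≤ 0.1182 - δ := by linarith
  linarith [mul_nonneg (pow_nonneg hA 0) (pow_nonneg hB 8),
      mul_nonneg (pow_nonneg hA 1) (pow_nonneg hB 7),
      mul_nonneg (pow_nonneg hA 2) (pow_nonneg hB 6),
      mul_nonneg (pow_nonneg hA 3) (pow_nonneg hB 5),
      mul_nonneg (pow_nonneg hA 4) (pow_nonneg hB 4),
      mul_nonneg (pow_nonneg hA 5) (pow_nonneg hB 3),
      mul_nonneg (pow_nonneg hA 6) (pow_nonneg hB 2),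
      mul_nonneg (pow_nonneg hA 7) (pow_nonneg hB 1),
      mul_nonneg (pow_nonneg hA 8) (pow_nonneg hB 0)]

lemma pS1 {δ : ℝ} (h0 : 0.06 ≤ δ) (h1 : δ ≤ 0.1182) :
    0 ≤ (1 / 8 - δ ^ 2 / 2) - (0.32918 - 1.5954 * δ ^ 2) ^ 2 - (0.452 - (0.32918 - 1.5954 * δ ^ 2)) ^ 2 := by
  have hA : 0 ≤ δ - 0.06 := by linarith
  have hB : 0 ≤ 0.1182 - δ := by linarith
  linarith [mul_nonneg (pow_nonneg hA 0) (pow_nonneg hB 4),
      mul_nonneg (pow_nonneg hA 1) (pow_nonneg hB 3),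
      mul_nonneg (pow_nonneg hA 2) (pow_nonneg hB 2),
      mul_nonneg (pow_nonneg hA 3) (pow_nonneg hB 1),
      mul_nonneg (pow_nonneg hA 4) (pow_nonneg hB 0)]

lemma pS1_1 {δ : ℝ} (h0 : 0.06 ≤ δ) (h1 : δ ≤ 0.1182) :
    (1 / 8 - δ ^ 2 / 2) - (0.32918 - 1.5954 * δ ^ 2) ^ 2 - (0.452 - (0.32918 - 1.5954 * δ ^ 2)) ^ 2 ≤ 0.003 := by
  have hA : 0 ≤ δ - 0.06 := by linarith
  have hB : 0 ≤ 0.1182 - δ := by linarith
  linarith [mul_nonneg (pow_nonneg hA 0) (pow_nonneg hB 4),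
      mul_nonneg (pow_nonneg hA 1) (pow_nonneg hB 3),
      mul_nonneg (pow_nonneg hA 2) (pow_nonneg hB 2),
      mul_nonneg (pow_nonneg hA 3) (pow_nonneg hB 1),
      mul_nonneg (pow_nonneg hA 4) (pow_nonneg hB 0)]

lemma pR1 {δ : ℝ} (h0 : 0.06 ≤ δ) (h1 : δ ≤ 0.1182) :
    2 / 9 ≤ (0.290351 - 0.4397 * δ - 1.1348 * δ ^ 2) := by
  have hA : 0 ≤ δ - 0.06 := by linarith
  have hB : 0 ≤ 0.1182 - δ := by linarith
  linarith [mul_nonneg (pow_nonneg hA 0) (pow_nonneg hB 2),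
      mul_nonneg (pow_nonneg hA 1) (pow_nonneg hB 1),
      mul_nonneg (pow_nonneg hA 2) (pow_nonneg hB 0)]

lemma pD1 {δ : ℝ} (h0 : 0.06 ≤ δ) (h1 : δ ≤ 0.1182) :
    1 / 9 * ((1 / 4 - δ / 2) - 0.152) + 0.152 * (1 / 8 - δ ^ 2 / 2) < ((0.25 - 0.00182) / 8 - 0.375 * δ ^ 2 - 0.5 * δ ^ 3) := by
  have hA : 0 ≤ δ - 0.06 := by linarith
  have hB : 0 ≤ 0.1182 - δ := by linarith
  linarith [mul_nonneg (pow_nonneg hA 0) (pow_nonneg hB 3),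
      mul_nonneg (pow_nonneg hA 1) (pow_nonneg hB 2),
      mul_nonneg (pow_nonneg hA 2) (pow_nonneg hB 1),
      mul_nonneg (pow_nonneg hA 3) (pow_nonneg hB 0)]

lemma rp2 {δ : ℝ} (h0 : 0.1 ≤ δ) (h1 : δ ≤ 0.1182) :
    0.378296 * ((0.99975 - 4.8456 * δ ^ 2) * (0.707107 * (1 - 3.14159 * (δ / 2 - 0.4445 / 12) -
      4.93479 * (δ / 2 - 0.4445 / 12) ^ 2 + 5.504 * (δ / 2 - 0.4445 / 12) ^ 3))) ≤ (0.299878 - 0.4550 * δ - 1.0475 * δ ^ 2) := by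
  have hA : 0 ≤ δ - 0.1 := by linarith
  have hB : 0 ≤ 0.1182 - δ := by linarith
  linarith [mul_nonneg (pow_nonneg hA 0) (pow_nonneg hB 5),
      mul_nonneg (pow_nonneg hA 1) (pow_nonneg hB 4),
      mul_nonneg (pow_nonneg hA 2) (pow_nonneg hB 3),
      mul_nonneg (pow_nonneg hA 3) (pow_nonneg hB 2),
      mul_nonneg (pow_nonneg hA 4) (pow_nonneg hB 1),
      mul_nonneg (pow_nonneg hA 5) (pow_nonneg hB 0)]

lemma pA2 {δ : ℝ} (h0 : 0.1 ≤ δ) (h1 : δ ≤ 0.1182) :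
    0.2110 * (1 / 8 - δ ^ 2 / 2) < ((0.25 - 0.00074) / 8 - 0.375 * δ ^ 2 - 0.5 * δ ^ 3) := by
  have hA : 0 ≤ δ - 0.1 := by linarith
  have hB : 0 ≤ 0.1182 - δ := by linarith
  linarith [mul_nonneg (pow_nonneg hA 0) (pow_nonneg hB 3),
      mul_nonneg (pow_nonneg hA 1) (pow_nonneg hB 2),
      mul_nonneg (pow_nonneg hA 2) (pow_nonneg hB 1),
      mul_nonneg (pow_nonneg hA 3) (pow_nonneg hB 0)]

lemma pB0_2 {δ : ℝ} (h0 : 0.1 ≤ δ) (h1 : δ ≤ 0.1182) :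
    2 / 9 * (44521/500000) + ((0.299878 - 0.4550 * δ - 1.0475 * δ ^ 2) - 2 / 9) * (0.1152 - 44521/500000) +
      (10 / 3 * ((1 / 8 - δ ^ 2 / 2) - 44521/500000) ^ 2 + 3 / 40 * ((1 / 8 - δ ^ 2 / 2) - 44521/500000)) < ((0.25 - 0.00074) / 8 - 0.375 * δ ^ 2 - 0.5 * δ ^ 3) := by
  have hA : 0 ≤ δ - 0.1 := by linarith
  have hB : 0 ≤ 0.1182 - δ := by linarith
  linarith [mul_nonneg (pow_nonneg hA 0) (pow_nonneg hB 4),
      mul_nonneg (pow_nonneg hA 1) (pow_nonneg hB 3),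
      mul_nonneg (pow_nonneg hA 2) (pow_nonneg hB 2),
      mul_nonneg (pow_nonneg hA 3) (pow_nonneg hB 1),
      mul_nonneg (pow_nonneg hA 4) (pow_nonneg hB 0)]

lemma pB1_2 {δ : ℝ} (h0 : 0.1 ≤ δ) (h1 : δ ≤ 0.1182) :
    2 / 9 * 0.102544 + ((0.299878 - 0.4550 * δ - 1.0475 * δ ^ 2) - 2 / 9) * (0.1152 - 0.102544) +
      (10 / 3 * ((1 / 8 - δ ^ 2 / 2) - 0.102544) ^ 2 + 3 / 40 * ((1 / 8 - δ ^ 2 / 2) - 0.102544)) < ((0.25 - 0.00074) / 8 - 0.375 * δ ^ 2 - 0.5 * δ ^ 3) := by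
  have hA : 0 ≤ δ - 0.1 := by linarith
  have hB : 0 ≤ 0.1182 - δ := by linarith
  linarith [mul_nonneg (pow_nonneg hA 0) (pow_nonneg hB 4),
      mul_nonneg (pow_nonneg hA 1) (pow_nonneg hB 3),
      mul_nonneg (pow_nonneg hA 2) (pow_nonneg hB 2),
      mul_nonneg (pow_nonneg hA 3) (pow_nonneg hB 1),
      mul_nonneg (pow_nonneg hA 4) (pow_nonneg hB 0)]

lemma pI1_2 {δ : ℝ} (h0 : 0.1 ≤ δ) (h1 : δ ≤ 0.1182) :
    0.24 ^ 2 * (0.299878 - 0.4550 * δ - 1.0475 * δ ^ 2) + 0.212 ^ 3 + (5 * ((1 / 8 - δ ^ 2 / 2) - 0.24 ^ 2 - 0.212 ^ 2) ^ 2 +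
      ((1 / 8 - δ ^ 2 / 2) - 0.24 ^ 2 - 0.212 ^ 2) / 20) < ((0.25 - 0.00074) / 8 - 0.375 * δ ^ 2 - 0.5 * δ ^ 3) := by
  have hA : 0 ≤ δ - 0.1 := by linarith
  have hB : 0 ≤ 0.1182 - δ := by linarith
  linarith [mul_nonneg (pow_nonneg hA 0) (pow_nonneg hB 4),
      mul_nonneg (pow_nonneg hA 1) (pow_nonneg hB 3),
      mul_nonneg (pow_nonneg hA 2) (pow_nonneg hB 2),
      mul_nonneg (pow_nonneg hA 3) (pow_nonneg hB 1),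
      mul_nonneg (pow_nonneg hA 4) (pow_nonneg hB 0)]

lemma pI2_2 {δ : ℝ} (h0 : 0.1 ≤ δ) (h1 : δ ≤ 0.1182) :
    (0.32918 - 1.5954 * δ ^ 2) ^ 2 * (0.299878 - 0.4550 * δ - 1.0475 * δ ^ 2) + (0.452 - (0.32918 - 1.5954 * δ ^ 2)) ^ 3 +
      (5 * ((1 / 8 - δ ^ 2 / 2) - (0.32918 - 1.5954 * δ ^ 2) ^ 2 - (0.452 - (0.32918 - 1.5954 * δ ^ 2)) ^ 2) ^ 2 +
      ((1 / 8 - δ ^ 2 / 2) - (0.32918 - 1.5954 * δ ^ 2) ^ 2 - (0.452 - (0.32918 - 1.5954 * δ ^ 2)) ^ 2) / 20) < ((0.25 - 0.00074) / 8 - 0.375 * δ ^ 2 - 0.5 * δ ^ 3) := by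
  have hA : 0 ≤ δ - 0.1 := by linarith
  have hB : 0 ≤ 0.1182 - δ := by linarith
  linarith [mul_nonneg (pow_nonneg hA 0) (pow_nonneg hB 8),
      mul_nonneg (pow_nonneg hA 1) (pow_nonneg hB 7),
      mul_nonneg (pow_nonneg hA 2) (pow_nonneg hB 6),
      mul_nonneg (pow_nonneg hA 3) (pow_nonneg hB 5),
      mul_nonneg (pow_nonneg hA 4) (pow_nonneg hB 4),
      mul_nonneg (pow_nonneg hA 5) (pow_nonneg hB 3),
      mul_nonneg (pow_nonneg hA 6) (pow_nonneg hB 2),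
      mul_nonneg (pow_nonneg hA 7) (pow_nonneg hB 1),
      mul_nonneg (pow_nonneg hA 8) (pow_nonneg hB 0)]

lemma pS2 {δ : ℝ} (h0 : 0.1 ≤ δ) (h1 : δ ≤ 0.1182) :
    0 ≤ (1 / 8 - δ ^ 2 / 2) - (0.32918 - 1.5954 * δ ^ 2) ^ 2 - (0.452 - (0.32918 - 1.5954 * δ ^ 2)) ^ 2 := by
  have hA : 0 ≤ δ - 0.1 := by linarith
  have hB : 0 ≤ 0.1182 - δ := by linarith
  linarith [mul_nonneg (pow_nonneg hA 0) (pow_nonneg hB 4),
      mul_nonneg (pow_nonneg hA 1) (pow_nonneg hB 3),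
      mul_nonneg (pow_nonneg hA 2) (pow_nonneg hB 2),
      mul_nonneg (pow_nonneg hA 3) (pow_nonneg hB 1),
      mul_nonneg (pow_nonneg hA 4) (pow_nonneg hB 0)]

lemma pS1_2 {δ : ℝ} (h0 : 0.1 ≤ δ) (h1 : δ ≤ 0.1182) :
    (1 / 8 - δ ^ 2 / 2) - (0.32918 - 1.5954 * δ ^ 2) ^ 2 - (0.452 - (0.32918 - 1.5954 * δ ^ 2)) ^ 2 ≤ 0.003 := by
  have hA : 0 ≤ δ - 0.1 := by linarith
  have hB : 0 ≤ 0.1182 - δ := by linarith
  linarith [mul_nonneg (pow_nonneg hA 0) (pow_nonneg hB 4),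
      mul_nonneg (pow_nonneg hA 1) (pow_nonneg hB 3),
      mul_nonneg (pow_nonneg hA 2) (pow_nonneg hB 2),
      mul_nonneg (pow_nonneg hA 3) (pow_nonneg hB 1),
      mul_nonneg (pow_nonneg hA 4) (pow_nonneg hB 0)]

lemma pR2 {δ : ℝ} (h0 : 0.1 ≤ δ) (h1 : δ ≤ 0.1182) :
    2 / 9 ≤ (0.299878 - 0.4550 * δ - 1.0475 * δ ^ 2) := by
  have hA : 0 ≤ δ - 0.1 := by linarith
  have hB : 0 ≤ 0.1182 - δ := by linarith
  linarith [mul_nonneg (pow_nonneg hA 0) (pow_nonneg hB 2),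
      mul_nonneg (pow_nonneg hA 1) (pow_nonneg hB 1),
      mul_nonneg (pow_nonneg hA 2) (pow_nonneg hB 0)]

lemma pD2 {δ : ℝ} (h0 : 0.1 ≤ δ) (h1 : δ ≤ 0.1182) :
    1 / 9 * ((1 / 4 - δ / 2) - 0.152) + 0.152 * (1 / 8 - δ ^ 2 / 2) < ((0.25 - 0.00074) / 8 - 0.375 * δ ^ 2 - 0.5 * δ ^ 3) := by
  have hA : 0 ≤ δ - 0.1 := by linarith
  have hB : 0 ≤ 0.1182 - δ := by linarith
  linarith [mul_nonneg (pow_nonneg hA 0) (pow_nonneg hB 3),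
      mul_nonneg (pow_nonneg hA 1) (pow_nonneg hB 2),
      mul_nonneg (pow_nonneg hA 2) (pow_nonneg hB 1),
      mul_nonneg (pow_nonneg hA 3) (pow_nonneg hB 0)]

end Pool.Agent.T4
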