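import Mathlib
import Pool.Agent.Lib_helper93.T4.RAnum

set_option autoImplicit false

namespace Pool.Agent.T4

open Real

/-- the common end of the two cases -/
lemma ra_core {q Λ r n m P0 g a c ρ R1 R2 : ℝ} (h12 : c ≤ a) (h2r : ρ ≤ c) (hr0 : 0 ≤ ρ)
    (hR1 : R1 ≤ a) (hR2 : R2 ≤ c) (hN : a + c ≤ 0.452) (hR : R1 + R2 ≤ 4 / 9)
    (hP : a ^ 2 + c ^ 2 + ρ ^ 2 ≤ q) (hr1 : R1 ≤ r)
    (hN1 : a ≤ n ∨ (a ≤ 1 / 3 ∧ R1 ≤ g))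
    (hE : Λ ≤ a ^ 2 * R1 + c ^ 2 * R2 + ρ * (q - a ^ 2 - c ^ 2))
    (hq0 : 0.1152 ≤ q) (hq1 : q ≤ 0.13) (hm : 0 ≤ m) (hP0 : P0 = 2 * m ^ 2)
    (hP01 : P0 < 0.102544) (hr : 2 / 9 ≤ r) (hn0 : 0.3 ≤ n) (hn : n ≤ 0.331) (hg : 0.152 ≤ g)
    (hA : m * q < Λ)
    (hB0 : 2 / 9 * P0 + (r - 2 / 9) * (0.1152 - P0) +
      (10 / 3 * (q - P0) ^ 2 + 3 / 40 * (q - P0)) < Λ)
    (hB1 : 2 / 9 * 0.102544 + (r - 2 / 9) * (0.1152 - 0.102544) +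
      (10 / 3 * (q - 0.102544) ^ 2 + 3 / 40 * (q - 0.102544)) < Λ)
    (hSn : 0 ≤ q - n ^ 2 - (0.452 - n) ^ 2) (hSn1 : q - n ^ 2 - (0.452 - n) ^ 2 ≤ 0.003)
    (hQ0 : 0.24 ^ 2 * r + 0.212 ^ 3 + (5 * (q - 0.24 ^ 2 - 0.212 ^ 2) ^ 2 +
      (q - 0.24 ^ 2 - 0.212 ^ 2) / 20) < Λ)
    (hQn : n ^ 2 * r + (0.452 - n) ^ 3 + (5 * (q - n ^ 2 - (0.452 - n) ^ 2) ^ 2 +
      (q - n ^ 2 - (0.452 - n) ^ 2) / 20) < Λ)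
    (hD : 1 / 9 * (g - 0.152) + 0.152 * q < Λ) : False := by
  refine absurd hE (not_le.mpr ?_)
  rcases le_total a 0.24 with ha | ha
  · rcases le_total (a ^ 2 + c ^ 2) P0 with h | h
    · exact lt_of_le_of_lt (regA hr0 h2r h12 hR1 hR2 hP hq0 ha hm (by rw [← hP0]; exact h)) hA
    · exact regB hr0 h2r h12 hN hr1 hr hR hP ha h hP01 hB0 hB1
  · by_cases han : a ≤ n
    · exact regC hr0 h2r hN hr1 (by linarith) hR2 hP hq1 ha han hn0 hn (by linarith) hSn hSn1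
        hQ0 hQn
    · rcases hN1 with h | ⟨h1, h2⟩
      · exact absurd h han
      · exact regD hr0 h2r hN h2 hg hR2 hP (by push Not at han; linarith) h1 hD

/-- **the real inequality E3** -/
lemma RA_real (b F N1 N2 rho R1 R2 r s : ℝ)
    (h : (0.56 ≤ b ∧ b ≤ 6.8/11 ∧ s = 0.3175 ∧ -0.00182 ≤ F) ∨
      (0.6 ≤ b ∧ b ≤ 6.8/11 ∧ s = 0.4445 ∧ -0.00074 ≤ F))
    (h12 : N2 ≤ N1) (h2r : rho ≤ N2) (hr0 : 0 ≤ rho) (hR1 : R1 ≤ N1) (hR2 : R2 ≤ N2)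
    (hN : N1 + N2 ≤ 0.452) (hR : R1 + R2 ≤ 4/9) (hP : N1^2 + N2^2 + rho^2 ≤ (b - b^2)/2)
    (hr1 : R1 ≤ r) (hr2 : R2 ≤ r)
    (hr : 2.5243 * r ≤ 3/Real.pi * Real.sin (Real.pi * b) * Real.cos (Real.pi * (b/2 - s/12)))
    (hN1 : N1 ≤ 1.0344 * Real.sin (Real.pi * b) / Real.pi ∨ (N1 ≤ 1/3 ∧ R1 ≤ (1 - b)/2))
    (hE : (F + 3*b^2 - 4*b^3)/4 ≤ 2*N1^2*(R1 - rho) + 2*N2^2*(R2 - rho) + rho*(b - b^2)) :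
    False := by
  obtain ⟨δ, rfl⟩ : ∃ δ, b = 1 / 2 + δ := ⟨b - 1 / 2, by ring⟩
  have hδ1 : δ ≤ 0.1182 := by
    rcases h with ⟨_, h, _⟩ | ⟨_, h, _⟩ <;> linarith
  have hδ0 : 0.06 ≤ δ := by
    rcases h with ⟨h, _⟩ | ⟨h, _⟩ <;> linarith
  have eq : ((1 / 2 + δ) - (1 / 2 + δ) ^ 2) / 2 = 1 / 8 - δ ^ 2 / 2 := by ring
  rw [eq] at hP
  have hNn : N1 ≤ (0.32918 - 1.5954 * δ ^ 2) ∨ (N1 ≤ 1 / 3 ∧ R1 ≤ 1 / 4 - δ / 2) := by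
    rcases hN1 with h | ⟨h1, h2⟩
    · exact Or.inl (n_poly hδ0 hδ1 h)
    · exact Or.inr ⟨h1, by linarith⟩
  have hz1 : δ ^ 2 ≤ 0.01397124 := by nlinarith
  have hz0 : 0 ≤ δ ^ 2 := sq_nonneg δ
  rcases h with ⟨hb0, hb1, rfl, hF⟩ | ⟨hb0, hb1, rfl, hF⟩
  · have hd0 : 0.06 ≤ δ := hδ0
    have hrr := (r_poly hδ0 hδ1 (by linarith) (by linarith) hr).trans (rp1 hd0 hδ1)
    refine ra_core (q := 1 / 8 - δ ^ 2 / 2)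
      (Λ := (0.25 - 0.00182) / 8 - 0.375 * δ ^ 2 - 0.5 * δ ^ 3)
      (r := 0.290351 - 0.4397 * δ - 1.1348 * δ ^ 2) (n := 0.32918 - 1.5954 * δ ^ 2)
      (m := 0.2105) (g := 1 / 4 - δ / 2) h12 h2r hr0 hR1 hR2 hN hR hP (hr1.trans hrr) hNn ?_
      (by linarith) (by linarith) (by norm_num) ?_ ?_ (pR1 hd0 hδ1) (by linarith) (by linarith)
      (by linarith) (pA1 hd0 hδ1) (pB0_1 hd0 hδ1) (pB1_1 hd0 hδ1) (pS1 hd0 hδ1) (pS1_1 hd0 hδ1)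
      (pI1_1 hd0 hδ1) (pI2_1 hd0 hδ1) (pD1 hd0 hδ1)
    · have e : (F + 3 * (1 / 2 + δ) ^ 2 - 4 * (1 / 2 + δ) ^ 3) / 4 =
          2 * ((0.25 + F) / 8 - 0.375 * δ ^ 2 - 0.5 * δ ^ 3) := by ring
      rw [e] at hE
      nlinarith
    · norm_num
    · norm_num
  · have hd0 : 0.1 ≤ δ := by linarith
    have hrr := (r_poly hδ0 hδ1 (by linarith) (by linarith) hr).trans (rp2 hd0 hδ1)
    refine ra_core (q := 1 / 8 - δ ^ 2 / 2)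
      (Λ := (0.25 - 0.00074) / 8 - 0.375 * δ ^ 2 - 0.5 * δ ^ 3)
      (r := 0.299878 - 0.4550 * δ - 1.0475 * δ ^ 2) (n := 0.32918 - 1.5954 * δ ^ 2)
      (m := 0.2110) (g := 1 / 4 - δ / 2) h12 h2r hr0 hR1 hR2 hN hR hP (hr1.trans hrr) hNn ?_
      (by linarith) (by linarith) (by norm_num) ?_ ?_ (pR2 hd0 hδ1) (by linarith) (by linarith)
      (by linarith) (pA2 hd0 hδ1) (pB0_2 hd0 hδ1) (pB1_2 hd0 hδ1) (pS2 hd0 hδ1) (pS1_2 hd0 hδ1)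
      (pI1_2 hd0 hδ1) (pI2_2 hd0 hδ1) (pD2 hd0 hδ1)
    · have e : (F + 3 * (1 / 2 + δ) ^ 2 - 4 * (1 / 2 + δ) ^ 3) / 4 =
          2 * ((0.25 + F) / 8 - 0.375 * δ ^ 2 - 0.5 * δ ^ 3) := by ring
      rw [e] at hE
      nlinarith
    · norm_num
    · norm_num

end Pool.Agent.T4
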